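import Pool.Agent.Lib.MP_72e2e6_nt.P4.T.Spec

/-!
# MP_72e2e6_nt, theorem T4, module Bfn: bounded elements modulo `℘` are finitely many
-/

namespace Pool.Agent.MP72G

open Pool.Agent.MP72P

open scoped Classical

private theorem bfnStep {c : ℝ} (hc0 : 0 < c) (hc1 : c < 1) {a : ℝ} {k : ℤ} (ha : a = c ^ k)
    (ha1 : a < 1) : a ≤ c := by
  have hk : 0 < k := by
    by_contra hk
    have h1 : 1 ≤ c ^ k := by
      have h2 : (1 : ℝ) ≤ (c⁻¹) ^ (-k).toNat := one_le_pow₀ ((one_le_inv₀ hc0).mpr hc1.le)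
      have h3 : c ^ k = (c⁻¹) ^ (-k).toNat := by
        rw [← zpow_natCast, Int.toNat_of_nonneg (by omega), inv_zpow', neg_neg]
      rw [h3]; exact h2
    rw [← ha] at h1
    exact absurd ha1 (not_lt.mpr h1)
  have h3 : k = ((k - 1).toNat : ℤ) + 1 := by
    rw [Int.toNat_of_nonneg (by omega)]; ring
  rw [ha, h3, zpow_add₀ hc0.ne', zpow_one, zpow_natCast]
  have h4 : c ^ (k - 1).toNat ≤ 1 := pow_le_one₀ hc0.le hc1.le
  nlinarith

theorem tBfn (h1 : S_Lc1) : S_Bfn := by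
  intro p _ K _ _ v Q ϖ R hLF B
  obtain ⟨hn, -, -, hd, hr, -, -, h8, -, -, -⟩ := h1 p K v Q ϖ R hLF
  have hc0 : 0 < v ϖ := hLF.pi0
  have hc1 : v ϖ < 1 := hLF.pi1
  set w : v.Completion := algebraMap K v.Completion ϖ with hw
  have hwn : ‖w‖ = v ϖ := hn ϖ
  have hw0 : w ≠ 0 := by
    intro h
    rw [h, norm_zero] at hwn
    exact hc0.ne hwn
  have key : ∀ n : ℕ, ∃ X : Set v.Completion, X.Finite ∧
      ∀ x : v.Completion, ‖x‖ ≤ ((v ϖ) ^ n)⁻¹ → ∃ s ∈ X, ‖x - s‖ < 1 := by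
    intro n
    induction n with
    | zero =>
      refine ⟨(fun r : K => algebraMap K v.Completion r) '' (R : Set K),
        R.finite_toSet.image _, fun x hx => ?_⟩
      rw [pow_zero, inv_one] at hx
      obtain ⟨r, hrR, hxr⟩ := hr x hx
      exact ⟨_, ⟨r, hrR, rfl⟩, hxr⟩
    | succ n ih =>
      obtain ⟨X, hXf, hX⟩ := ih
      refine ⟨Set.image2 (fun (r : K) (s : v.Completion) =>
        (w ^ (n + 1))⁻¹ * algebraMap K v.Completion r + s) (R : Set K) X,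
        R.finite_toSet.image2 _ hXf, fun x hx => ?_⟩
      have hwp : w ^ (n + 1) ≠ 0 := pow_ne_zero _ hw0
      have hp0 : 0 < (v ϖ) ^ (n + 1) := pow_pos hc0 _
      have h2 : ‖w ^ (n + 1) * x‖ ≤ 1 := by
        rw [norm_mul, norm_pow, hwn]
        calc (v ϖ) ^ (n + 1) * ‖x‖ ≤ (v ϖ) ^ (n + 1) * ((v ϖ) ^ (n + 1))⁻¹ :=
              mul_le_mul_of_nonneg_left hx hp0.le
          _ = 1 := mul_inv_cancel₀ hp0.ne'
      obtain ⟨r, hrR, hxr⟩ := hr _ h2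
      have h3 : ‖w ^ (n + 1) * x - algebraMap K v.Completion r‖ ≤ v ϖ := by
        by_cases h0 : w ^ (n + 1) * x - algebraMap K v.Completion r = 0
        · rw [h0, norm_zero]; exact hc0.le
        · obtain ⟨k, hk⟩ := hd _ h0
          exact bfnStep hc0 hc1 hk hxr
      have h4 : x - (w ^ (n + 1))⁻¹ * algebraMap K v.Completion r =
          (w ^ (n + 1))⁻¹ * (w ^ (n + 1) * x - algebraMap K v.Completion r) := by
        rw [mul_sub, ← mul_assoc, inv_mul_cancel₀ hwp, one_mul]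
      have h5 : ‖x - (w ^ (n + 1))⁻¹ * algebraMap K v.Completion r‖ ≤ ((v ϖ) ^ n)⁻¹ := by
        rw [h4, norm_mul, norm_inv, norm_pow, hwn]
        calc ((v ϖ) ^ (n + 1))⁻¹ * ‖w ^ (n + 1) * x - algebraMap K v.Completion r‖ ≤
              ((v ϖ) ^ (n + 1))⁻¹ * v ϖ := mul_le_mul_of_nonneg_left h3 (inv_nonneg.mpr hp0.le)
          _ = ((v ϖ) ^ n)⁻¹ := by
              rw [pow_succ, mul_inv, mul_assoc, inv_mul_cancel₀ hc0.ne', mul_one]
      obtain ⟨s, hsX, hs⟩ := hX _ h5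
      refine ⟨_, ⟨r, hrR, s, hsX, rfl⟩, ?_⟩
      rw [sub_sub] at hs
      exact hs
  obtain ⟨n, hnB⟩ := exists_pow_lt_of_lt_one (x := (max B 1)⁻¹)
    (inv_pos.mpr (lt_of_lt_of_le one_pos (le_max_right _ _))) hc1
  obtain ⟨X, hXf, hX⟩ := key n
  refine ⟨X, hXf, fun x hx => ?_⟩
  have hB : B ≤ ((v ϖ) ^ n)⁻¹ := by
    have hm : 0 < max B 1 := lt_of_lt_of_le one_pos (le_max_right _ _)
    have h6 : max B 1 ≤ ((v ϖ) ^ n)⁻¹ := (le_inv_comm₀ (pow_pos hc0 n) hm).mp hnB.le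
    exact (le_max_left _ _).trans h6
  obtain ⟨s, hsX, hs⟩ := hX x (hx.le.trans hB)
  obtain ⟨y, -, hy⟩ := h8 _ hs
  exact ⟨s, hsX, y, hy.symm⟩

end Pool.Agent.MP72G
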