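import Pool.Agent.Lib.MP_72e2e6_nt.P4.T.Spec

/-!
# MP_72e2e6_nt, theorem T4, part T: `S_Dcg` (the double cosets)
-/

set_option autoImplicit false

namespace Pool.Agent.MP72G

open Finset Pool.Agent.MP72P IntermediateField
open Pool.Agent.MP72V

open scoped Classical

/-- Equivalent absolute values with the same nontrivial restriction are equal. -/
private theorem dcg_eq {K M : Type} [Field K] [Field M] [Algebra K M] (v w : AbsoluteValue M ℝ)
    (he : v.IsEquiv w) (hr : rsa K v = rsa K w) (hn : (rsa K v).IsNontrivial) : v = w := by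
  obtain ⟨c, hc, hcw⟩ := AbsoluteValue.isEquiv_iff_exists_rpow_eq.mp he
  obtain ⟨x, hx0, hx1⟩ := hn
  have h1 : (rsa K v x) ^ c = rsa K v x := by
    have h2 := congrFun hcw (algebraMap K M x)
    have h3 : w (algebraMap K M x) = rsa K v x := by rw [hr]; rfl
    rw [h3] at h2
    exact h2
  have h2 : 0 < rsa K v x := (rsa K v).pos hx0
  have h3 : c = 1 := by
    have h4 := congrArg Real.log h1
    rw [Real.log_rpow h2] at h4
    have h5 : Real.log (rsa K v x) ≠ 0 := Real.log_ne_zero_of_pos_of_ne_one h2 hx1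
    exact (mul_eq_right₀ h5).mp h4
  ext y
  have h4 := congrFun hcw y
  rw [h3] at h4
  simpa using h4

theorem tDcg (h1 : S_Rgo) (h2 : S_GfM) (h3 : S_Jgl) (h4 : S_Trn) (h5 : S_StD) : S_Dcg := by
  intro p _ K M _ _ _ _ _ _ hK j J J' av av' κ α h θ pq hT ι ι'
  have hcM : CharP M p := charP_of_injective_algebraMap (algebraMap K M).injective p
  have hM : GFld p M := h2 p K M hK
  obtain ⟨j1, j2, -, j4, -⟩ := h3 p K M j hT.jok
  obtain ⟨-, hsur, hrg, -⟩ := h1 p K hK J av α h hT.hs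
  obtain ⟨-, hsur', -, -⟩ := h1 p M hM J' av' (j α) (algebraMap K M h) hT.hs'
  choose u hu1 hu2 using fun i => h5 p K hK J av α h hT.hs ι i
  choose u' hu1' hu2' using fun w => h5 p M hM J' av' (j α) (algebraMap K M h) hT.hs' ι' w
  have hinj : Function.Injective θ := hT.emb.injective
  -- values on `K` and `M`
  have huK : ∀ i (x : K), u i (algebraMap K (Kgs K) x) = av i x := by
    intro i x
    rw [← hu1 i]
    rfl
  have huM : ∀ w (x : M), u' w (algebraMap M (Kgs M) x) = av' w x := by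
    intro w x
    rw [← hu1' w]
    rfl
  have hres : ∀ w (x : K), av' w (algebraMap K M x) = av (κ w) x := by
    intro w x
    rw [← hT.abo.res w]
    rfl
  -- the elements `τ w`
  have hτ : ∀ w, ∃ τ : Gal(Kgs K/K), ∀ x, u' w (j x) = u (κ w) (τ x) := by
    intro w
    have h6 := h4 p K (av (κ w)) (hT.hs.pls.ntr _) (u (κ w))
      ((u' w).comp (f := (j : Kgs K →+* Kgs M)) j.injective) (hu1 _) (by
        ext x
        show u' w (j (algebraMap K (Kgs K) x)) = av (κ w) x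
        rw [hT.jok, huM, hres])
    exact h6
  choose τ hτ using hτ
  -- the kernel of `rG`
  have hker : ∀ n : Gal(Kgs K/K), rG p av α n = 1 → ∀ y ∈ OmS p av α, n y = y := by
    intro n hn y hy
    have h6 := hrg n ⟨y, hy⟩
    rw [hn] at h6
    exact h6
  have hst : ∀ (σ : Gal(Kgs K/K)), ∀ y ∈ OmS p av α, σ y ∈ OmS p av α := by
    intro σ y hy
    have h6 := hrg σ ⟨y, hy⟩
    have h7 : σ y = ((rG p av α σ ⟨y, hy⟩ : OmS p av α) : Kgs K) := h6
    rw [h7]
    exact (rG p av α σ ⟨y, hy⟩ : OmS p av α).2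
  -- lifting
  have hlift : ∀ (σ : Gal(Kgs K/K)) (k : GS p av' (j α)), rG p av α σ = θ k →
      ∃ σ' : Gal(Kgs M/M), Jrl j σ σ' ∧ rG p av' (j α) σ' = k := by
    intro σ k hk
    obtain ⟨σ'₀, hσ'₀⟩ := hsur' k
    obtain ⟨σ₀, hσ₀⟩ := j1 σ'₀
    have h6 : rG p av α (σ₀⁻¹ * σ) = 1 := by
      rw [map_mul, map_inv, hk, ← hT.rg σ₀ σ'₀ hσ₀, hσ'₀, inv_mul_cancel]
    obtain ⟨n', hn'⟩ := j2 (σ₀⁻¹ * σ) (fun m => hker _ h6 _ (hT.inM m))
    have h7 := (j4 σ₀ (σ₀⁻¹ * σ) σ'₀ n' hσ₀ hn').1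
    rw [mul_inv_cancel_left] at h7
    refine ⟨σ'₀ * n', h7, ?_⟩
    have h8 : rG p av' (j α) n' = 1 := by
      apply hinj
      rw [hT.rg (σ₀⁻¹ * σ) n' hn', h6, map_one]
    rw [map_mul, hσ'₀, h8, mul_one]
  have hinv : ∀ (σ : Gal(Kgs K/K)) (y : Kgs K), σ (σ⁻¹ y) = y := by
    intro σ y
    rw [← AlgEquiv.mul_apply, mul_inv_cancel, AlgEquiv.one_apply]
  have hinv' : ∀ (σ : Gal(Kgs K/K)) (y : Kgs K), σ⁻¹ (σ y) = y := by
    intro σ y
    rw [← AlgEquiv.mul_apply, inv_mul_cancel, AlgEquiv.one_apply]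
  refine ⟨fun w => rG p av α (τ w)⁻¹, ⟨?_, ?_, ?_⟩⟩
  · intro w k
    constructor
    · intro hk
      obtain ⟨σ', rfl, hσ'⟩ := (hu2' w k).mp hk
      obtain ⟨σ, hσ⟩ := j1 σ'
      rw [hu2]
      refine ⟨τ w * σ * (τ w)⁻¹, ?_, ?_⟩
      · rw [map_mul, map_mul, hT.rg σ σ' hσ, map_inv, inv_inv]
      · intro y
        show u (κ w) (τ w (σ ((τ w)⁻¹ y))) = u (κ w) y
        rw [← hτ, hσ, hσ', hτ, hinv]
    · intro hk
      obtain ⟨δ, hδ, hδu⟩ := (hu2 _ _).mp hk
      have h6 : rG p av α ((τ w)⁻¹ * δ * τ w) = θ k := by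
        rw [map_mul, map_mul, hδ, map_inv]
        group
      obtain ⟨σ', hσ', rfl⟩ := hlift _ k h6
      rw [hu2']
      refine ⟨σ', rfl, fun y => ?_⟩
      obtain ⟨x, rfl⟩ := j.surjective y
      rw [← hσ', hτ, hτ]
      show u (κ w) (τ w ((τ w)⁻¹ (δ (τ w x)))) = _
      rw [hinv, hδu]
  · intro i g
    obtain ⟨γ, rfl⟩ := hsur g
    let U : AbsoluteValue (Kgs M) ℝ := (u i).comp
      (f := ((γ⁻¹ : Gal(Kgs K/K)) : Kgs K →+* Kgs K).comp (j.symm : Kgs M →+* Kgs K))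
      ((γ⁻¹ : Gal(Kgs K/K)).injective.comp j.symm.injective)
    have hU : ∀ y, U y = u i ((γ⁻¹ : Gal(Kgs K/K)) (j.symm y)) := fun _ => rfl
    have h6 : rsa K (rsa M U) = av i := by
      ext x
      show U (algebraMap M (Kgs M) (algebraMap K M x)) = av i x
      rw [hU, ← hT.jok, RingEquiv.symm_apply_apply, AlgEquiv.commutes, huK]
    obtain ⟨w, hw⟩ := hT.abo.cpl (rsa M U) ⟨i, by rw [h6]; exact AbsoluteValue.IsEquiv.rfl⟩
    have h7 : (av i).IsEquiv (av (κ w)) := by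
      rw [← h6, ← hT.abo.res w]
      obtain ⟨c, hc, hcw⟩ := AbsoluteValue.isEquiv_iff_exists_rpow_eq.mp hw
      exact AbsoluteValue.isEquiv_iff_exists_rpow_eq.mpr
        ⟨c, hc, funext fun x => congrFun hcw (algebraMap K M x)⟩
    have h8 : κ w = i := by
      by_contra hne
      exact hT.hs.pls.inq i (κ w) (fun h => hne h.symm) h7
    subst h8
    have h9 : rsa M U = av' w := by
      refine dcg_eq (K := K) _ _ hw ?_ ?_
      · rw [h6, hT.abo.res w]
      · rw [h6]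
        exact hT.hs.pls.ntr _
    obtain ⟨σ', hσ'⟩ := h4 p M (av' w) (hT.hs'.pls.ntr w) (u' w) U (hu1' w) h9
    obtain ⟨σ, hσ⟩ := j1 σ'
    have h10 : ∀ x, u (κ w) ((γ⁻¹ : Gal(Kgs K/K)) x) = u (κ w) (τ w (σ x)) := by
      intro x
      have h11 := hσ' (j x)
      rw [hU, RingEquiv.symm_apply_apply, ← hσ, hτ] at h11
      exact h11
    refine ⟨w, (rG p av' (j α) σ')⁻¹, rG p av α (τ w * σ * γ), ?_, rfl, ?_⟩
    · rw [hu2]
      refine ⟨_, rfl, fun y => ?_⟩
      show u (κ w) (τ w (σ (γ y))) = u (κ w) y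
      rw [← h10, hinv']
    · rw [map_inv, hT.rg σ σ' hσ, map_mul, map_mul, map_inv]
      group
  · intro w w' k d hd hκ he
    obtain ⟨δ, rfl, hδ⟩ := (hu2 _ _).mp hd
    obtain ⟨σ', rfl⟩ := hsur' k
    obtain ⟨σ, hσ⟩ := j1 σ'
    have h6 : rG p av α (τ w' * σ * (τ w)⁻¹ * δ) = 1 := by
      have h7 : rG p av α (τ w' * σ * (τ w)⁻¹ * δ) =
          rG p av α (τ w') * (θ (rG p av' (j α) σ') * rG p av α (τ w)⁻¹ * rG p av α δ) := by
        rw [hT.rg σ σ' hσ, map_mul, map_mul, map_mul]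
        group
      rw [h7, he, ← map_mul, mul_inv_cancel, map_one]
    have hav : av' w' = av' w := by
      ext m
      have hx : j.symm (algebraMap M (Kgs M) m) ∈ OmS p av α := hT.inM m
      obtain ⟨x, hxe⟩ : ∃ x, x = j.symm (algebraMap M (Kgs M) m) := ⟨_, rfl⟩
      rw [← hxe] at hx
      have hjx : j x = algebraMap M (Kgs M) m := by rw [hxe, RingEquiv.apply_symm_apply]
      have h7 := hker _ h6 _ (hst (τ w') x hx)
      have h8 : δ (τ w' x) = τ w (σ⁻¹ x) := by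
        have h9 : τ w' (σ ((τ w)⁻¹ (δ (τ w' x)))) = τ w' x := h7
        have h10 : σ ((τ w)⁻¹ (δ (τ w' x))) = x := (τ w').injective h9
        have h11 : (τ w)⁻¹ (δ (τ w' x)) = σ⁻¹ x := by
          conv_rhs => rw [← h10]
          rw [hinv']
        rw [← h11, hinv]
      have h9 : j (σ⁻¹ x) = algebraMap M (Kgs M) m := by
        have h10 := (j4 σ σ σ' σ' hσ hσ).2 x
        rw [h10, hjx, AlgEquiv.commutes]
      calc av' w' m = u' w' (j x) := by rw [hjx, huM]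
        _ = u (κ w') (τ w' x) := hτ w' x
        _ = u (κ w) (τ w' x) := by rw [hκ]
        _ = u (κ w) (δ (τ w' x)) := (hδ _).symm
        _ = u (κ w) (τ w (σ⁻¹ x)) := by rw [h8]
        _ = u' w (j (σ⁻¹ x)) := (hτ w _).symm
        _ = av' w m := by rw [h9, huM]
    by_contra hne
    exact hT.hs'.pls.inq w w' hne (by rw [hav]; exact AbsoluteValue.IsEquiv.rfl)

end Pool.Agent.MP72G
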