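import Pool.Agent.Lib.MP_72e2e6_nt.P4.T.Spec

/-!
# MP_72e2e6_nt, theorem T4, part T: DpM (most `D₀ + D` are deep at all places above `av`)
-/

set_option autoImplicit false

namespace Pool.Agent.MP72G

open Finset Pool.Agent.MP72P IntermediateField

open scoped Classical

/-- Counting by the fibres of a map whose fibres lie in cosets of `S`. -/
private theorem dpm_cnt {A T : Type} [AddCommGroup A] (E S : Set A) (hE : E.Finite)
    (hS : S.Finite) (Φ : A → T) (X : Set T) (hX : X.Finite) (hΦ : ∀ D ∈ E, Φ D ∈ X)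
    (hfib : ∀ D ∈ E, ∀ D₁ ∈ E, Φ D = Φ D₁ → D - D₁ ∈ S) :
    E.ncard ≤ S.ncard * X.ncard := by
  classical
  rw [Set.ncard_eq_toFinset_card E hE, Set.ncard_eq_toFinset_card S hS,
    Set.ncard_eq_toFinset_card X hX]
  refine Finset.card_le_mul_card_image_of_maps_to (f := Φ) (fun D hD => ?_) _ fun t _ => ?_
  · rw [Set.Finite.mem_toFinset] at hD ⊢
    exact hΦ D hD
  · by_cases hne : (hE.toFinset.filter fun D => Φ D = t).Nonempty
    · obtain ⟨D₁, hD₁⟩ := hne
      rw [Finset.mem_filter, Set.Finite.mem_toFinset] at hD₁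
      refine Finset.card_le_card_of_injOn (fun D => D - D₁) (fun D hD => ?_) fun D _ D' _ h => ?_
      · rw [Finset.mem_coe, Finset.mem_filter, Set.Finite.mem_toFinset] at hD
        rw [Finset.mem_coe, Set.Finite.mem_toFinset]
        exact hfib D hD.1 D₁ hD₁.1 (hD.2.trans hD₁.2.symm)
      · exact sub_left_injective h
    · rw [Finset.not_nonempty_iff_eq_empty] at hne
      rw [hne, Finset.card_empty]
      exact Nat.zero_le _

theorem tDpM (h1 : S_Na) (h2 : S_Dsc) (h3 : S_Hst) (h4 : S_Dep) (h5 : S_GfM) (h6 : S_Bfn)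
    (h7 : S_PwM) : S_DpM := by
  have _ := h1
  intro p _ K M _ _ _ _ _ _ hK j J J' av av' κ α h θ pq hT D₀ B ε hε
  have hM : GFld p M := h5 p K M hK
  have hcM : CharP M p := charP_of_injective_algebraMap (algebraMap K M).injective p
  have hcw : ∀ w, CharP (av' w).Completion p := fun w =>
    charP_of_injective_algebraMap (algebraMap M (av' w).Completion).injective p
  have hfJ : Finite J := hT.hs.fin
  have hfJ' : Finite J' := hT.abo.fin
  have hFJ' : Fintype J' := Fintype.ofFinite J'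
  obtain ⟨ι⟩ : Nonempty (∀ i, Kgs K →ₐ[K] Kvs (av i)) := ⟨fun i => IsSepClosed.lift⟩
  obtain ⟨ι'⟩ : Nonempty (∀ w, Kgs M →ₐ[M] Kvs (av' w)) := ⟨fun w => IsSepClosed.lift⟩
  obtain ⟨-, -, -, -, -, -, -, -, -, -, -, -, -, hHom, hadd, -⟩ := h3 p K hK J av α h hT.hs
  -- the finite sets
  have hX : ∀ w, ∃ X : Set (av' w).Completion, X.Finite ∧
      ∀ x : (av' w).Completion, ‖x‖ < B → ∃ s ∈ X, ∃ y : (av' w).Completion, x - s = y ^ p - y := by
    intro w
    obtain ⟨Q, ϖ, R, hLF⟩ := h2 p M hM (av' w) (hT.abo.pls.ntr w)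
    exact h6 p M (av' w) Q ϖ R hLF B
  choose X hXf hXs using hX
  -- the representatives
  have hs : ∀ w, ∃ s : OS av → (av' w).Completion, ∀ D : OS av, (∃ y : (av' w).Completion,
      ‖algebraMap M (av' w).Completion (D₀ + algebraMap K M (D : K)) - (y ^ p - y)‖ < B) →
      s D ∈ X w ∧ ∃ y : (av' w).Completion,
        algebraMap M (av' w).Completion (D₀ + algebraMap K M (D : K)) - s D = y ^ p - y := by
    intro w
    have hcw' := hcw w
    have : ∀ D : OS av, ∃ s : (av' w).Completion, (∃ y : (av' w).Completion,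
      ‖algebraMap M (av' w).Completion (D₀ + algebraMap K M (D : K)) - (y ^ p - y)‖ < B) →
      s ∈ X w ∧ ∃ y : (av' w).Completion,
        algebraMap M (av' w).Completion (D₀ + algebraMap K M (D : K)) - s = y ^ p - y := by
      intro D
      by_cases hD : ∃ y : (av' w).Completion,
        ‖algebraMap M (av' w).Completion (D₀ + algebraMap K M (D : K)) - (y ^ p - y)‖ < B
      · obtain ⟨y, hy⟩ := hD
        obtain ⟨s, hs, z, hz⟩ := hXs w _ hy
        refine ⟨s, fun _ => ⟨hs, y + z, ?_⟩⟩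
        rw [add_pow_char]
        linear_combination hz
      · exact ⟨0, fun h => absurd h hD⟩
    choose s hs using this
    exact ⟨s, hs⟩
  choose s hs using hs
  -- representatives of the decomposition groups
  set dd : J' → Gal(M/K) → GS p av α := fun w γ =>
    if hγ : ∃ d ∈ DS p av α ι (κ w), pq d = γ then hγ.choose else 1 with hdd
  have hdd1 : ∀ w, ∀ d ∈ DS p av α ι (κ w), dd w (pq d) ∈ DS p av α ι (κ w) ∧
      pq (dd w (pq d)) = pq d := by
    intro w d hd
    have hex : ∃ d' ∈ DS p av α ι (κ w), pq d' = pq d := ⟨d, hd, rfl⟩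
    have e : dd w (pq d) = hex.choose := dif_pos hex
    rw [e]
    exact hex.choose_spec
  set ff : J' → OS av → Gal(M/K) → ZMod p := fun w D γ => hS p av α (D : K) (dd w γ) with hff
  have hsub : ∀ (D D₁ : OS av) (g : GS p av α),
      hS p av α ((D - D₁ : OS av) : K) g = hS p av α (D : K) g - hS p av α (D₁ : K) g := by
    intro D D₁ g
    have e := hadd ((D - D₁ : OS av) : K) (D - D₁).2 (D₁ : K) D₁.2 g
    have e' : ((D - D₁ : OS av) : K) + (D₁ : K) = (D : K) := by
      have : ((D - D₁ : OS av) : K) = (D : K) - D₁ := rfl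
      rw [this, sub_add_cancel]
    rw [e'] at e
    rw [e]
    ring
  -- the key: the fibres
  have hkey : ∀ (w : J') (D D₁ : OS av), (∃ y : (av' w).Completion,
      ‖algebraMap M (av' w).Completion (D₀ + algebraMap K M (D : K)) - (y ^ p - y)‖ < B) →
      (∃ y : (av' w).Completion,
      ‖algebraMap M (av' w).Completion (D₀ + algebraMap K M (D₁ : K)) - (y ^ p - y)‖ < B) →
      s w D = s w D₁ → ff w D = ff w D₁ → ∃ y : (av (κ w)).Completion,
        y ^ p - y = algebraMap K (av (κ w)).Completion ((D - D₁ : OS av) : K) := by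
    intro w D D₁ hD hD₁ hss hfe
    have hcw' := hcw w
    obtain ⟨-, y, hy⟩ := hs w D hD
    obtain ⟨-, y₁, hy₁⟩ := hs w D₁ hD₁
    obtain ⟨g1, g2⟩ := h7 p K M hK j J J' av av' κ α h θ pq hT ι ι' ((D - D₁ : OS av) : K)
      (D - D₁).2
    have hD' : ((D - D₁ : OS av) : K) = (D : K) - D₁ := rfl
    have e1 : ∃ y : (av' w).Completion, y ^ p - y =
        algebraMap M (av' w).Completion (algebraMap K M ((D - D₁ : OS av) : K)) := by
      refine ⟨y - y₁, ?_⟩
      rw [sub_pow_char, hD', map_sub, map_sub]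
      rw [map_add, hss] at hy
      rw [map_add] at hy₁
      linear_combination hy₁ - hy
    rw [g1 (κ w)]
    intro d hd
    obtain ⟨q1, q2⟩ := hdd1 w d hd
    have e2 : (dd w (pq d))⁻¹ * d ∈ DS p av α ι (κ w) :=
      Subgroup.mul_mem _ (Subgroup.inv_mem _ q1) hd
    have e3 : pq ((dd w (pq d))⁻¹ * d) = 1 := by
      rw [map_mul, map_inv, q2, inv_mul_cancel]
    have e4 := g2 w e1 _ e2 e3
    have e5 : hS p av α ((D - D₁ : OS av) : K) (dd w (pq d)) = 0 := by
      rw [hsub]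
      have := congrFun hfe (pq d)
      exact sub_eq_zero.2 this
    have e6 := (hHom ((D - D₁ : OS av) : K) (D - D₁).2).add (dd w (pq d)) ((dd w (pq d))⁻¹ * d)
    rw [mul_inv_cancel_left, e4, e5, add_zero] at e6
    exact e6
  -- the numbers
  have hXX : ∀ w, (X w ×ˢ (Set.univ : Set (Gal(M/K) → ZMod p))).Finite := fun w =>
    (hXf w).prod Set.finite_univ
  obtain ⟨N, hN⟩ : ∃ N : ℕ, N =
      ∑ w, (X w ×ˢ (Set.univ : Set (Gal(M/K) → ZMod p))).ncard := ⟨_, rfl⟩
  obtain ⟨e₀, he₀⟩ := h4 p K hK J av hT.hs.pls 1 (ε / (N + 1)) (by positivity)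
  refine ⟨e₀, fun 𝒟 h𝒟 hle => ?_⟩
  have h8 := he₀ 𝒟 h𝒟 hle
  set P : Set (OS av) := {D : OS av | D ∈ 𝒟 ∧ ∃ j, ∃ y : (av j).Completion,
          ‖algebraMap K (av j).Completion (D : K) - (y ^ p - y)‖ < 1} with hP
  have hPf : P.Finite := h𝒟.subset fun D hD => hD.1
  set Ew : J' → Set (OS av) := fun w => {D : OS av | D ∈ 𝒟 ∧ ∃ y : (av' w).Completion,
      ‖algebraMap M (av' w).Completion (D₀ + algebraMap K M (D : K)) - (y ^ p - y)‖ < B} with hEw
  have hEf : ∀ w, (Ew w).Finite := fun w => h𝒟.subset fun D hD => hD.1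
  have h9 : ∀ w, (Ew w).ncard ≤ P.ncard * (X w ×ˢ (Set.univ : Set (Gal(M/K) → ZMod p))).ncard := by
    intro w
    refine dpm_cnt (Ew w) P (hEf w) hPf (fun D => (s w D, ff w D)) _ (hXX w) (fun D hD => ?_)
      fun D hD D₁ hD₁ he => ?_
    · exact ⟨(hs w D hD.2).1, Set.mem_univ _⟩
    · rw [Prod.mk.injEq] at he
      obtain ⟨y, hy⟩ := hkey w D D₁ hD.2 hD₁.2 he.1 he.2
      refine ⟨𝒟.sub_mem hD.1 hD₁.1, κ w, y, ?_⟩
      rw [hy, sub_self, norm_zero]
      exact zero_lt_one
  have h10 : {D : OS av | D ∈ 𝒟 ∧ ∃ w, ∃ y : (av' w).Completion,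
        ‖algebraMap M (av' w).Completion (D₀ + algebraMap K M (D : K)) - (y ^ p - y)‖ < B} =
      ⋃ w, Ew w := by
    ext D
    simp only [Set.mem_setOf_eq, Set.mem_iUnion, hEw]
    constructor
    · rintro ⟨a1, w, a2⟩
      exact ⟨w, a1, a2⟩
    · rintro ⟨w, a1, a2⟩
      exact ⟨a1, w, a2⟩
  have h11 : (⋃ w, Ew w).ncard ≤ ∑ w, (Ew w).ncard := by
    have e : (⋃ w, Ew w) = ((Finset.univ.biUnion fun w => (hEf w).toFinset : Finset (OS av)) :
        Set (OS av)) := by
      ext D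
      simp
    rw [e, Set.ncard_coe_finset]
    refine Finset.card_biUnion_le.trans (Finset.sum_le_sum fun w _ => ?_)
    rw [Set.ncard_eq_toFinset_card _ (hEf w)]
  have h12 : (⋃ w, Ew w).ncard ≤ P.ncard * N := by
    refine h11.trans ((Finset.sum_le_sum fun w _ => h9 w).trans ?_)
    rw [← Finset.mul_sum, ← hN]
  rw [h10]
  have hN0 : (0 : ℝ) < (N : ℝ) + 1 := by positivity
  have hc0 : (0 : ℝ) ≤ (Nat.card 𝒟 : ℝ) := Nat.cast_nonneg _
  calc ((⋃ w, Ew w).ncard : ℝ) ≤ ((P.ncard * N : ℕ) : ℝ) := by exact_mod_cast h12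
    _ = (P.ncard : ℝ) * N := by push_cast; ring
    _ ≤ (ε / (N + 1) * Nat.card 𝒟) * N := mul_le_mul_of_nonneg_right h8 (Nat.cast_nonneg _)
    _ = ε * Nat.card 𝒟 * (N / (N + 1)) := by ring
    _ ≤ ε * Nat.card 𝒟 * 1 := by
        apply mul_le_mul_of_nonneg_left _ (by positivity)
        rw [div_le_one hN0]
        linarith
    _ = ε * Nat.card 𝒟 := mul_one _

end Pool.Agent.MP72G
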