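import Pool.Agent.Lib.MP_72e2e6_nt.P4.T.Spec

/-! The normal forms over `M` and for the Frobenius twists. -/

namespace Pool.Agent.MP72G

open Finset Pool.Agent.MP72P IntermediateField
open WeierstrassCurve
open Pool.Agent.MP72W (pmap)
open Pool.Agent.MP72V

open scoped Classical

private theorem nf_map {R S : Type} [CommRing R] [CommRing S] (φ : R →+* S)
    (W : WeierstrassCurve R) (hW : IsNf W) : IsNf (W.map φ) where
  a1 := by rw [WeierstrassCurve.map_a₁, hW.a1, map_zero]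
  a3 := by rw [WeierstrassCurve.map_a₃, hW.a3, map_zero]
  dis := by
    rw [WeierstrassCurve.map_Δ]
    exact hW.dis.map φ

private theorem n2_map {R S : Type} [CommRing R] [CommRing S] (φ : R →+* S)
    (W : WeierstrassCurve R) (hW : IsN2 W) : IsN2 (W.map φ) where
  a1 := by rw [WeierstrassCurve.map_a₁, hW.a1, map_one]
  a3 := by rw [WeierstrassCurve.map_a₃, hW.a3, map_zero]
  a4 := by rw [WeierstrassCurve.map_a₄, hW.a4, map_zero]
  a6 := by
    rw [WeierstrassCurve.map_a₆]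
    exact hW.a6.map φ

theorem tGcM (h1 : MP72V.S_Bas) (h2 : MP72V.S_Or) (h3 : S_BasT) : S_GcM := by
  intro p _ K M _ _ _ _ W
  refine ⟨?_, ?_, ?_⟩
  · intro k
    ext <;> simp [fr]
  · rintro (⟨hp, hnf, hod⟩ | ⟨hp, hn2⟩)
    · exact Or.inl ⟨hp, nf_map _ W hnf, ((h2 p hp K W hnf).2.2 M).mpr hod⟩
    · exact Or.inr ⟨hp, n2_map _ W hn2⟩
  · rintro (⟨hp, hnf, hod⟩ | ⟨hp, hn2⟩) k
    · exact Or.inl ⟨hp, ((h1.2 K p W hnf).1 k).1, ((h2 p hp K W hnf).2.1 k).mpr hod⟩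
    · exact Or.inr ⟨hp, ((h3.2 K p W hn2).1 k).1⟩

end Pool.Agent.MP72G
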