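import Pool.Agent.Lib.MP_72e2e6_nt.P4.T.Spec

/-!
# MP_72e2e6_nt, theorem T4, part T: `S_HsM`

Simple properties of the places above `av`.
-/

namespace Pool.Agent.MP72G

open Finset Pool.Agent.MP72P IntermediateField
open WeierstrassCurve
open Pool.Agent.MP72V

open scoped Classical

private theorem rsa_equiv {K M : Type} [Field K] [Field M] [Algebra K M]
    {v w : AbsoluteValue M ℝ} (h : v.IsEquiv w) : (rsa K v).IsEquiv (rsa K w) :=
  fun x y => h (algebraMap K M x) (algebraMap K M y)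

theorem tHsM (h1 : S_Na) (h2 : S_Ntr) (h3 : S_Exn) : S_HsM := by
  intro p _ K M _ _ _ _ _ j hj J J' av av' κ hA hP
  have e1 : ∀ v : AbsoluteValue M ℝ, v.IsNontrivial → ((∀ w, ¬ v.IsEquiv (av' w)) ↔
      ∀ i, ¬ (rsa K v).IsEquiv (av i)) := by
    intro v hv
    constructor
    · intro hw i hi
      obtain ⟨w, hw'⟩ := hA.cpl v ⟨i, hi⟩
      exact hw w hw'
    · intro hi w hw
      apply hi (κ w)
      rw [← hA.res w]
      exact rsa_equiv hw
  have e4 : ∀ i, ∃ w, κ w = i := by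
    intro i
    obtain ⟨⟨v, hv⟩, -⟩ := h3 p K M (av i) (hP.ntr i)
    have hvi : (rsa K v).IsEquiv (av i) := by
      rw [hv]
      exact fun x y => Iff.rfl
    obtain ⟨w, hw⟩ := hA.cpl v ⟨i, hvi⟩
    refine ⟨w, ?_⟩
    by_contra hne
    apply hP.inq (κ w) i hne
    rw [← hA.res w]
    exact (rsa_equiv hw).symm.trans hvi
  refine ⟨e1, ?_, ?_, e4⟩
  · intro D hD v hv hna hw
    have : CharP M p := charP_of_injective_algebraMap (algebraMap K M).injective p
    exact hD (rsa K v) (h2 p K M v hv) (h1 p K (rsa K v)) ((e1 v hv).1 hw)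
  · intro α h hS
    refine ⟨hA.fin, ?_, hA.pls, ?_, ?_, ?_⟩
    · obtain ⟨i⟩ := hS.nem
      obtain ⟨w, -⟩ := e4 i
      exact ⟨w⟩
    · rw [← map_pow, hS.al, hj]
    · exact fun h0 => hS.h0 ((map_eq_zero (algebraMap K M)).1 h0)
    · intro v hv hw
      exact hS.hu (rsa K v) (h2 p K M v hv) ((e1 v hv).1 hw)

end Pool.Agent.MP72G
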