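import Pool.Agent.Lib.MP_72e2e6_nt.P4.T.Spec

/-!
# MP_72e2e6_nt, theorem T4, T/Ial: algebraic elements are integral over `OS av` if `av` is large
-/

set_option autoImplicit false

namespace Pool.Agent.MP72G

open Finset Pool.Agent.MP72P IntermediateField

/-- Algebraic elements are integral over `OS av` if `av` is large. -/
theorem tIal (h1 : S_Alm) : S_Ial := by
  classical
  intro p hp K _ _ hG L _ _ _ x
  have hint : IsIntegral K x := (Algebra.IsAlgebraic.isAlgebraic x).isIntegral
  have hne : ∀ a : {a : K // a ∈ (minpoly K x).coeffs}, (a : K) ≠ 0 := by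
    intro a
    obtain ⟨n, hn, ha⟩ := Polynomial.mem_coeffs_iff.1 a.2
    rw [ha]
    exact Polynomial.mem_support_iff.1 hn
  choose m av hav using fun a : {a : K // a ∈ (minpoly K x).coeffs} => h1 p K hG a (hne a)
  obtain ⟨F, hF⟩ : ∃ F : (Σ a : {a : K // a ∈ (minpoly K x).coeffs}, Fin (m a)) →
      AbsoluteValue K ℝ, F = fun y => av y.1 y.2 := ⟨_, rfl⟩
  let e := Fintype.equivFin (Σ a : {a : K // a ∈ (minpoly K x).coeffs}, Fin (m a))
  refine ⟨Fintype.card (Σ a : {a : K // a ∈ (minpoly K x).coeffs}, Fin (m a)),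
    fun i => F (e.symm i), ?_, ?_⟩
  · intro i
    rw [hF]
    exact (hav (e.symm i).1).1.ntr (e.symm i).2
  · intro J av' h
    have hmem : (↑(minpoly K x).coeffs : Set K) ⊆ (OS av' : Set K) := by
      intro a ha v hv _ hvj
      refine le_of_eq ((hav ⟨a, ha⟩).2 v hv fun k hk => ?_)
      obtain ⟨j, hj⟩ := h (e ⟨⟨a, ha⟩, k⟩)
      have h3 : F (e.symm (e ⟨⟨a, ha⟩, k⟩)) = av ⟨a, ha⟩ k := by
        rw [Equiv.symm_apply_apply, hF]
      rw [← h3] at hk
      exact hvj j (hk.trans hj.symm)
    refine ⟨(minpoly K x).toSubring (OS av') hmem,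
      (Polynomial.monic_toSubring _ _ _).2 (minpoly.monic hint), ?_⟩
    have h2 : algebraMap (OS av') L = (algebraMap K L).comp (OS av').subtype := rfl
    rw [h2, ← Polynomial.eval₂_map, Polynomial.map_toSubring]
    exact minpoly.aeval K x

end Pool.Agent.MP72G
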