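import Pool.Agent.Lib.MP_72e2e6_nt.P4.T.Spec

/-!
# MP_72e2e6_nt, theorem T4, part T, module IsO
-/

namespace Pool.Agent.MP72G

open Finset Pool.Agent.MP72P IntermediateField
open WeierstrassCurve
open Pool.Agent.MP72W (pmap)
open Pool.Agent.MP72V

open scoped Classical

private theorem iso_abs {A B : Type} [AddCommGroup A] [AddCommGroup B] (p k : ℕ)
    [Fact p.Prime] (V : A → B) (F : B → A) (hF : ∀ x y, F (x + y) = F x + F y)
    (hi : ∀ x y, F x = F y → x = y) (hFV : ∀ x, F (V x) = p ^ k • x) :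
    (∀ Q : A, (V Q ≠ 0 ∧ p • V Q = 0) ↔ addOrderOf Q = p ^ (k + 1)) ∧
    ∀ R : A, (V R = 0 ∧ ∀ n < k, p ^ n • R ≠ 0) ↔ addOrderOf R = p ^ k := by
  have hp : p.Prime := Fact.out
  have hp1 : 1 < p := hp.one_lt
  let f : B →+ A := AddMonoidHom.mk' F hF
  have hf : ∀ x, f x = F x := fun _ => rfl
  have hf0 : ∀ x, F x = 0 ↔ x = 0 := by
    intro x
    constructor
    · intro h
      apply hi
      rw [h, ← hf, map_zero]
    · rintro rfl
      rw [← hf, map_zero]
  have hV : ∀ x, V x = 0 ↔ p ^ k • x = 0 := by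
    intro x
    rw [← hf0, hFV]
  have hpV : ∀ x, p • V x = 0 ↔ p ^ (k + 1) • x = 0 := by
    intro x
    rw [← hf0, ← hf, map_nsmul, hf, hFV, smul_smul, pow_succ']
  have hlt : ∀ (x : A) (n m : ℕ), n < m → addOrderOf x = p ^ m → p ^ n • x ≠ 0 := by
    intro x n m hnm hx h
    have h1 := addOrderOf_dvd_of_nsmul_eq_zero h
    rw [hx, Nat.pow_dvd_pow_iff_le_right hp1] at h1
    omega
  refine ⟨fun Q => ?_, fun R => ?_⟩
  · rw [ne_eq, hV, hpV]
    constructor
    · rintro ⟨h1, h2⟩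
      exact addOrderOf_eq_prime_pow h1 h2
    · intro h
      exact ⟨hlt Q k (k + 1) (Nat.lt_succ_self k) h, by rw [← h]; exact addOrderOf_nsmul_eq_zero Q⟩
  · rw [hV]
    constructor
    · rintro ⟨h1, h2⟩
      cases k with
      | zero =>
        rw [pow_zero, one_smul] at h1
        rw [h1, addOrderOf_zero, pow_zero]
      | succ j => exact addOrderOf_eq_prime_pow (h2 j (Nat.lt_succ_self j)) h1
    · intro h
      exact ⟨by rw [← h]; exact addOrderOf_nsmul_eq_zero R, fun n hn => hlt R n k hn h⟩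

theorem tIsO (h1 : MP72V.S_It) (h2 : S_ItT) : S_IsO := by
  intro p _ K _ _ W hG L _ _ k
  rcases hG with ⟨hp, hnf, -⟩ | ⟨hp, hn2⟩
  · obtain ⟨a1, -, -, a4, a5, -⟩ := h1 p hp K W hnf L
    exact iso_abs p k (Vn p W k) (Fn p W k) (a1 k) (a5 k) (a4 k)
  · obtain ⟨a1, -, -, a4, a5, -⟩ := h2 p hp K W hn2 L
    exact iso_abs p k (Vn p W k) (Fn p W k) (a1 k) (a5 k) (a4 k)

end Pool.Agent.MP72G
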