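import Pool.Agent.Lib.MP_72e2e6_nt.P4.T.Spec

/-!
# MP_72e2e6_nt, theorem T4, part T: the isomorphism `j` exists (task 17637)
-/

namespace Pool.Agent.MP72G

open Pool.Agent.MP72P

open scoped Classical

theorem tJex : S_Jex := by
  intro K M _ _ _ _ _
  let iA : Algebra K (Kgs M) := ((algebraMap M (Kgs M)).comp (algebraMap K M)).toAlgebra
  have iT : IsScalarTower K M (Kgs M) := IsScalarTower.of_algebraMap_eq fun _ => rfl
  have iS : Algebra.IsSeparable K (Kgs M) := Algebra.IsSeparable.trans K M (Kgs M)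
  have iC : IsSepClosure K (Kgs M) := ⟨inferInstance, iS⟩
  refine ⟨(IsSepClosure.equiv K (Kgs K) (Kgs M)).toRingEquiv, ?_⟩
  intro x
  exact (IsSepClosure.equiv K (Kgs K) (Kgs M)).commutes x

end Pool.Agent.MP72G
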