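import Pool.Agent.Lib.MP_72e2e6_nt.P4.T.Spec

/-!
# MP_72e2e6_nt, theorem T4, part T: the Galois groups (`S_Jgl`)
-/

set_option autoImplicit false

namespace Pool.Agent.MP72G

open Finset Pool.Agent.MP72P IntermediateField
open Pool.Agent.MP72V

open scoped Classical

private theorem op_inj {p : ℕ} [Fact p.Prime] {L : Type} [Field L] [CharP L p] {c d : ZMod p}
    (h : op L c = op L d) : c = d := by
  unfold op at h
  rw [CharP.natCast_eq_natCast L p] at h
  apply ZMod.val_injective p
  have h1 := ZMod.val_lt c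
  have h2 := ZMod.val_lt d
  exact Nat.ModEq.eq_of_lt_of_lt h h1 h2

private theorem j_op {p : ℕ} {L L' : Type} [Field L] [Field L'] (j : L ≃+* L') (c : ZMod p) :
    j (op L c) = op L' c := by
  unfold op
  rw [map_natCast]

theorem tJgl (h1 : S_Has) : S_Jgl := by
  intro p _ K M _ _ _ _ j hj
  refine ⟨fun σ' => ?_, fun σ hσ => ?_, fun σ τ σ' h2 h3 => ?_, fun σ τ σ' τ' h2 h3 => ⟨?_, ?_⟩,
    fun α h hα hh σ σ' h2 => ?_⟩
  · refine ⟨AlgEquiv.ofRingEquiv (f := j.trans (σ'.toRingEquiv.trans j.symm)) fun r => ?_,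
      fun x => ?_⟩
    · show j.symm (σ' (j (algebraMap K (Kgs K) r))) = algebraMap K (Kgs K) r
      rw [hj, AlgEquiv.commutes, ← hj, RingEquiv.symm_apply_apply]
    · show j (j.symm (σ' (j x))) = σ' (j x)
      rw [RingEquiv.apply_symm_apply]
  · refine ⟨AlgEquiv.ofRingEquiv (f := j.symm.trans (σ.toRingEquiv.trans j)) fun r => ?_,
      fun x => ?_⟩
    · show j (σ (j.symm (algebraMap M (Kgs M) r))) = algebraMap M (Kgs M) r
      rw [hσ, RingEquiv.apply_symm_apply]
    · show j (σ x) = j (σ (j.symm (j x)))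
      rw [RingEquiv.symm_apply_apply]
  · refine AlgEquiv.ext fun x => j.injective ?_
    rw [h2 x, h3 x]
  · intro x
    show j (σ (τ x)) = σ' (τ' (j x))
    rw [h2, h3]
  · intro x
    apply σ'.injective
    have e1 : σ' (σ'⁻¹ (j x)) = j x := σ'.apply_symm_apply (j x)
    have e2 : σ (σ⁻¹ x) = x := σ.apply_symm_apply x
    rw [e1, ← h2, e2]
  · have hM : CharP M p := charP_of_injective_algebraMap (algebraMap K M).injective p
    have hL : CharP (Kgs M) p := charP_of_injective_algebraMap (algebraMap M (Kgs M)).injective p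
    have hα' : j α ≠ 0 := fun h0 => hα (j.injective (by rw [h0, map_zero]))
    have hh' : (j α) ^ (p - 1) = algebraMap M (Kgs M) (algebraMap K M h) := by
      rw [← map_pow, hh, hj]
    have e1 := (h1 p K (Kgs K) α h hα hh).1.2 σ
    have e2 := (h1 p M (Kgs M) (j α) (algebraMap K M h) hα' hh').1.2 σ'
    have e3 := h2 α
    rw [e1, e2, map_mul, j_op] at e3
    exact (op_inj (mul_right_cancel₀ hα' e3)).symm

end Pool.Agent.MP72G
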