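import Pool.Agent.Lib.MP_72e2e6_nt.P4.T.Spec

/-!
# MP_72e2e6_nt, theorem T4, part T: `j` maps `OmS` to `OmS`
-/

set_option autoImplicit false

namespace Pool.Agent.MP72G

open Finset Pool.Agent.MP72P IntermediateField
open WeierstrassCurve
open Pool.Agent.MP72W (pmap)
open Pool.Agent.MP72V

open scoped Classical

private theorem na_omm (p : ℕ) [Fact p.Prime] (K : Type) [Field K] [CharP K p]
    (v : AbsoluteValue K ℝ) : IsNonarchimedean v := by
  have hp : 1 < p := (Fact.out : p.Prime).one_lt
  have hn : ∀ n : ℕ, v (n : K) ≤ 1 := by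
    intro n
    have h1 : ((n : ZMod p)) ^ p = n := ZMod.pow_card _
    have h2 : ((n : K)) ^ p = n := by
      have h3 := congrArg (ZMod.castHom dvd_rfl K) h1
      rw [map_pow, map_natCast] at h3
      exact h3
    have h4 : v (n : K) ^ p = v (n : K) := by rw [← map_pow, h2]
    by_contra hc
    push Not at hc
    have h5 : v (n : K) ^ 1 < v (n : K) ^ p := pow_lt_pow_right₀ hc hp
    rw [pow_one, h4] at h5
    exact lt_irrefl _ h5
  have h : IsUltrametricDist (WithAbs v) :=
    IsUltrametricDist.isUltrametricDist_of_forall_norm_natCast_le_one fun n => hn n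
  intro x y
  exact IsUltrametricDist.norm_add_le_max (WithAbs.toAbs v x) (WithAbs.toAbs v y)

/-- the preimage under `j` of an intermediate field -/
private def pbF {K M : Type} [Field K] [Field M] [Algebra K M] (j : Kgs K ≃+* Kgs M) (hj : Jok j)
    (T : IntermediateField M (Kgs M)) : IntermediateField K (Kgs K) where
  carrier := {x | j x ∈ T}
  mul_mem' := fun {a b} ha hb => by
    have h : j (a * b) = j a * j b := map_mul j a b
    change j (a * b) ∈ T
    rw [h]
    exact mul_mem ha hb
  add_mem' := fun {a b} ha hb => by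
    have h : j (a + b) = j a + j b := map_add j a b
    change j (a + b) ∈ T
    rw [h]
    exact add_mem ha hb
  algebraMap_mem' := fun x => by
    change j (algebraMap K (Kgs K) x) ∈ T
    rw [hj x]
    exact T.algebraMap_mem _
  inv_mem' := fun a ha => by
    have h : j a⁻¹ = (j a)⁻¹ := map_inv₀ j a
    change j a⁻¹ ∈ T
    rw [h]
    exact inv_mem ha

private theorem mem_pbF {K M : Type} [Field K] [Field M] [Algebra K M] (j : Kgs K ≃+* Kgs M)
    (hj : Jok j) (T : IntermediateField M (Kgs M)) (x : Kgs K) : x ∈ pbF j hj T ↔ j x ∈ T :=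
  Iff.rfl

/-- the image under `j` of an intermediate field which contains the preimage of `M` -/
private def pfF {K M : Type} [Field K] [Field M] (j : Kgs K ≃+* Kgs M)
    (S : IntermediateField K (Kgs K)) (hS : ∀ m : M, j.symm (algebraMap M (Kgs M) m) ∈ S) :
    IntermediateField M (Kgs M) where
  carrier := {y | j.symm y ∈ S}
  mul_mem' := fun {a b} ha hb => by
    have h : j.symm (a * b) = j.symm a * j.symm b := map_mul j.symm a b
    change j.symm (a * b) ∈ S
    rw [h]
    exact mul_mem ha hb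
  add_mem' := fun {a b} ha hb => by
    have h : j.symm (a + b) = j.symm a + j.symm b := map_add j.symm a b
    change j.symm (a + b) ∈ S
    rw [h]
    exact add_mem ha hb
  algebraMap_mem' := hS
  inv_mem' := fun a ha => by
    have h : j.symm a⁻¹ = (j.symm a)⁻¹ := map_inv₀ j.symm a
    change j.symm a⁻¹ ∈ S
    rw [h]
    exact inv_mem ha

private theorem mem_pfF {K M : Type} [Field K] [Field M] (j : Kgs K ≃+* Kgs M)
    (S : IntermediateField K (Kgs K)) (hS : ∀ m : M, j.symm (algebraMap M (Kgs M) m) ∈ S)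
    (y : Kgs M) : y ∈ pfF j S hS ↔ j.symm y ∈ S := Iff.rfl

/-- towers are mapped into towers -/
private theorem twr_up {p : ℕ} {K M : Type} [Field K] [Field M] [Algebra K M]
    (j : Kgs K ≃+* Kgs M) (hj : Jok j) {J J' : Type} (av : J → AbsoluteValue K ℝ)
    (av' : J' → AbsoluteValue M ℝ) (h2 : ∀ D ∈ OS av, algebraMap K M D ∈ OS av') (α : Kgs K)
    (T : IntermediateField K (Kgs K)) (hT : Twr p (OS av) K (Kgs K) α T) :
    ∃ T' : IntermediateField M (Kgs M), Twr p (OS av') M (Kgs M) (j α) T' ∧
      T ≤ pbF j hj T' := by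
  induction hT with
  | bot =>
    refine ⟨M⟮j α⟯, Twr.bot, ?_⟩
    rw [adjoin_simple_le_iff, mem_pbF]
    exact mem_adjoin_simple_self M (j α)
  | step T θ hT hint hmem ih =>
    obtain ⟨T', hT', hle⟩ := ih
    refine ⟨T' ⊔ M⟮j θ⟯, Twr.step T' (j θ) hT' ?_ ?_, ?_⟩
    · let r : OS av →+* OS av' :=
        ((algebraMap K M).comp (OS av).subtype).codRestrict (OS av') (fun x => h2 x x.2)
      have hc : (algebraMap (OS av') (Kgs M)).comp r =
          (j : Kgs K →+* Kgs M).comp (algebraMap (OS av) (Kgs K)) := by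
        ext x
        have h1 : (j : Kgs K →+* Kgs M) (algebraMap (OS av) (Kgs K) x) =
            j (algebraMap K (Kgs K) (x : K)) := rfl
        rw [RingHom.comp_apply, RingHom.comp_apply, h1, hj]
        rfl
      have h := IsIntegral.map_of_comp_eq r (j : Kgs K →+* Kgs M) hc hint
      have h3 : (j : Kgs K →+* Kgs M) (θ ^ p - θ) = (j θ) ^ p - j θ := by
        rw [map_sub, map_pow]
        rfl
      rw [h3] at h
      exact h
    · have h := hle hmem
      rw [mem_pbF, map_sub, map_pow] at h
      exact h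
    · refine sup_le (fun x hx => ?_) ?_
      · rw [mem_pbF]
        exact (le_sup_left : T' ≤ T' ⊔ M⟮j θ⟯) (hle hx)
      · rw [adjoin_simple_le_iff, mem_pbF]
        exact (le_sup_right : M⟮j θ⟯ ≤ T' ⊔ M⟮j θ⟯) (mem_adjoin_simple_self M (j θ))

/-- towers come from `OmS` -/
private theorem twr_down {p : ℕ} [Fact p.Prime] {K M : Type} [Field K] [Field M] [Algebra K M]
    (j : Kgs K ≃+* Kgs M) (hj : Jok j) {J J' : Type} (av : J → AbsoluteValue K ℝ)
    (av' : J' → AbsoluteValue M ℝ) (hI : ∀ f ∈ OS av', IsIntegral (OS av) f) (α : Kgs K)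
    (hm : ∀ m : M, j.symm (algebraMap M (Kgs M) m) ∈ OmS p av α) (hα : α ∈ OmS p av α)
    (h6 : ∀ θ : Kgs K, θ ^ p - θ ∈ OmS p av α → IsIntegral (OS av) (θ ^ p - θ) →
      θ ∈ OmS p av α)
    (T : IntermediateField M (Kgs M)) (hT : Twr p (OS av') M (Kgs M) (j α) T) :
    T ≤ pfF j (OmS p av α) hm := by
  have hI' : ∀ f ∈ OS av', j.symm (algebraMap M (Kgs M) f) ∈
      integralClosure (OS av) (Kgs K) := by
    intro f hf
    have h1 := hI f hf
    have hc : (algebraMap (OS av) (Kgs K)).comp (RingHom.id (OS av)) =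
        ((j.symm : Kgs M →+* Kgs K).comp (algebraMap M (Kgs M))).comp
          (algebraMap (OS av) M) := by
      refine RingHom.ext fun x => ?_
      rw [RingHom.comp_apply, RingHom.comp_apply, RingHom.comp_apply, RingHom.id_apply]
      have h2 : algebraMap (OS av) M x = algebraMap K M (x : K) := rfl
      have h3 : algebraMap (OS av) (Kgs K) x = algebraMap K (Kgs K) (x : K) := rfl
      rw [h2, h3, ← hj]
      exact (j.symm_apply_apply _).symm
    exact IsIntegral.map_of_comp_eq (RingHom.id (OS av))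
      ((j.symm : Kgs M →+* Kgs K).comp (algebraMap M (Kgs M))) hc h1
  induction hT with
  | bot =>
    rw [adjoin_simple_le_iff, mem_pfF, j.symm_apply_apply]
    exact hα
  | step T θ hT hint hmem ih =>
    refine sup_le ih ?_
    rw [adjoin_simple_le_iff, mem_pfF]
    have h1 := ih hmem
    rw [mem_pfF, map_sub, map_pow] at h1
    refine h6 _ h1 ?_
    let r : OS av' →+* integralClosure (OS av) (Kgs K) :=
      (((j.symm : Kgs M →+* Kgs K).comp (algebraMap M (Kgs M))).comp
        (OS av').subtype).codRestrict (integralClosure (OS av) (Kgs K)) (fun x => hI' x x.2)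
    have hc : (algebraMap (integralClosure (OS av) (Kgs K)) (Kgs K)).comp r =
        (j.symm : Kgs M →+* Kgs K).comp (algebraMap (OS av') (Kgs M)) := by
      ext x
      rfl
    have h := IsIntegral.map_of_comp_eq r (j.symm : Kgs M →+* Kgs K) hc hint
    have h3 : (j.symm : Kgs M →+* Kgs K) (θ ^ p - θ) = (j.symm θ) ^ p - j.symm θ := by
      rw [map_sub, map_pow]
      rfl
    rw [h3] at h
    exact isIntegral_trans (R := OS av) (A := integralClosure (OS av) (Kgs K)) _ h

theorem tOmM (h1 : S_Twb) (h2 : S_Itg) (h3 : S_HsM) : S_OmM := by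
  intro p _ K M _ _ _ _ _ _ hG j hj J J' av av' κ hA α h hS hm x
  have hM : CharP M p := charP_of_injective_algebraMap (algebraMap K M).injective p
  obtain ⟨a1, a2, a3, -⟩ := h3 p K M j hj J J' av av' κ hA hS.pls
  have hS' := a3 α h hS
  have hp1 : p - 1 ≠ 0 := by
    have := (Fact.out : p.Prime).one_lt
    omega
  have hα0 : α ≠ 0 := by
    intro h0
    have h4 := hS.al
    rw [h0, zero_pow hp1] at h4
    exact hS.h0 ((map_eq_zero (algebraMap K (Kgs K))).1 h4.symm)
  have hα0' : j α ≠ 0 := fun h0 => hα0 ((map_eq_zero_iff j j.injective).1 h0)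
  obtain ⟨-, b2, -, -, -, b6, b7⟩ := h1 p (OS av) K (Kgs K) α h hα0 hS.al
  obtain ⟨-, c2, -, -, -, -, -⟩ := h1 p (OS av') M (Kgs M) (j α) (algebraMap K M h) hα0' hS'.al
  constructor
  · intro hx
    obtain ⟨T, hT, hxT⟩ := (b2 x).1 hx
    obtain ⟨T', hT', hle⟩ := twr_up j hj av av' a2 α T hT
    exact (c2 (j x)).2 ⟨T', hT', hle hxT⟩
  · intro hx
    obtain ⟨T, hT, hxT⟩ := (c2 (j x)).1 hx
    have hI : ∀ f ∈ OS av', IsIntegral (OS av) f := by
      intro f hf
      refine h2 p K M J av f fun w hw hwj => ?_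
      exact hf w hw (na_omm p M w) ((a1 w hw).2 hwj)
    have h5 := twr_down j hj av av' hI α hm b7 b6 T hT hxT
    rw [mem_pfF, j.symm_apply_apply] at h5
    exact h5

end Pool.Agent.MP72G
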