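import Pool.Agent.Lib.MP_72e2e6_nt.P4.T.Spec

/-!
# P4/T/PiM: the homomorphisms `θ` and `pq`
-/

set_option autoImplicit false

namespace Pool.Agent.MP72G

open Finset Pool.Agent.MP72P IntermediateField
open Pool.Agent.MP72V

open scoped Classical

section

variable {K M : Type} [Field K] [Field M] [Algebra K M] (j : Kgs K ≃+* Kgs M)
  (O : IntermediateField K (Kgs K)) (O' : IntermediateField M (Kgs M))

/-- the isomorphism of the fields `O`, `O'` given by `j` -/
private noncomputable def phi (hm : ∀ x : Kgs K, x ∈ O ↔ j x ∈ O') : O ≃+* O' where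
  toFun x := ⟨j x, (hm x).1 x.2⟩
  invFun y := ⟨j.symm y, (hm _).2 (by rw [j.apply_symm_apply]; exact y.2)⟩
  left_inv x := Subtype.ext (j.symm_apply_apply _)
  right_inv y := Subtype.ext (j.apply_symm_apply _)
  map_mul' x y := Subtype.ext (map_mul j _ _)
  map_add' x y := Subtype.ext (map_add j _ _)

variable {O O'} (hm : ∀ x : Kgs K, x ∈ O ↔ j x ∈ O')

omit [Algebra K M] in
private theorem phi_coe (x : O) : ((phi j O O' hm x : O') : Kgs M) = j x := rfl

omit [Algebra K M] in
private theorem phi_symm_coe (y : O') : (((phi j O O' hm).symm y : O) : Kgs K) = j.symm y := rfl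

private theorem phi_alg (hj : Jok j) (x : K) :
    phi j O O' hm (algebraMap K O x) = algebraMap M O' (algebraMap K M x) := Subtype.ext (hj x)

/-- the automorphism of `O` which corresponds to the automorphism `g` of `O'` -/
private noncomputable def tht (hj : Jok j) (g : Gal(O'/M)) : Gal(O/K) :=
  AlgEquiv.ofRingEquiv (f := ((phi j O O' hm).trans g.toRingEquiv).trans (phi j O O' hm).symm)
    (fun x => by
      show (phi j O O' hm).symm (g (phi j O O' hm (algebraMap K O x))) = algebraMap K O x
      rw [phi_alg j hm hj, AlgEquiv.commutes, ← phi_alg j hm hj, RingEquiv.symm_apply_apply])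

private theorem tht_apply (hj : Jok j) (g : Gal(O'/M)) (x : O) :
    tht j hm hj g x = (phi j O O' hm).symm (g (phi j O O' hm x)) := rfl

private theorem phi_tht (hj : Jok j) (g : Gal(O'/M)) (x : O) :
    phi j O O' hm (tht j hm hj g x) = g (phi j O O' hm x) := by
  rw [tht_apply, RingEquiv.apply_symm_apply]

/-- the homomorphism `θ` -/
private noncomputable def Tht (hj : Jok j) : Gal(O'/M) →* Gal(O/K) where
  toFun := tht j hm hj
  map_one' := AlgEquiv.ext fun x => by
    rw [tht_apply, AlgEquiv.one_apply, AlgEquiv.one_apply, RingEquiv.symm_apply_apply]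
  map_mul' g g' := AlgEquiv.ext fun x => by
    rw [AlgEquiv.mul_apply, tht_apply, tht_apply j hm hj g, phi_tht, AlgEquiv.mul_apply]

private theorem Tht_apply (hj : Jok j) (g : Gal(O'/M)) (x : O) :
    Tht j hm hj g x = (phi j O O' hm).symm (g (phi j O O' hm x)) := rfl

private theorem phi_Tht (hj : Jok j) (g : Gal(O'/M)) (x : O) :
    phi j O O' hm (Tht j hm hj g x) = g (phi j O O' hm x) := phi_tht j hm hj g x

private theorem Tht_inj (hj : Jok j) : Function.Injective (Tht j hm hj) := by
  intro g g' h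
  apply AlgEquiv.ext
  intro y
  have h1 := congrArg (phi j O O' hm) (AlgEquiv.congr_fun h ((phi j O O' hm).symm y))
  rw [phi_Tht, phi_Tht, RingEquiv.apply_symm_apply] at h1
  exact h1

private theorem Tht_cont (hj : Jok j) : Continuous (Tht j hm hj) := by
  apply continuous_of_continuousAt_one
  intro s hs
  rw [map_one] at hs
  rw [krullTopology_mem_nhds_one_iff] at hs
  obtain ⟨E, hE, hEs⟩ := hs
  let b := Module.finBasis K E
  have hopen : ∀ i, (MulAction.stabilizer Gal(O'/M) (phi j O O' hm (b i : O)) :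
      Set Gal(O'/M)) ∈ nhds (1 : Gal(O'/M)) := fun i =>
    (stabilizer_isOpen_of_isIntegral (K := M) (phi j O O' hm (b i : O))).mem_nhds
      (one_mem (MulAction.stabilizer Gal(O'/M) (phi j O O' hm (b i : O))))
  have hint := (Filter.iInter_mem.mpr hopen)
  rw [Filter.mem_map]
  refine Filter.mem_of_superset hint fun g hg => hEs ?_
  rw [Set.mem_iInter] at hg
  show Tht j hm hj g ∈ E.fixingSubgroup
  rw [IntermediateField.mem_fixingSubgroup_iff]
  intro x hx
  have hb : ∀ i, Tht j hm hj g (b i : O) = (b i : O) := by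
    intro i
    apply (phi j O O' hm).injective
    rw [phi_Tht]
    exact hg i
  have h1 : x = ∑ i, b.repr ⟨x, hx⟩ i • (b i : O) := by
    have h2 : ((∑ i, b.repr ⟨x, hx⟩ i • b i : E) : O) = x :=
      congrArg (fun z : E => (z : O)) (b.sum_repr ⟨x, hx⟩)
    refine h2.symm.trans ?_
    rw [← IntermediateField.coe_val, map_sum]
    rfl
  rw [h1, map_sum]
  refine Finset.sum_congr rfl fun i _ => ?_
  rw [map_smul, hb i]

/-- the embedding of `M` into `O` -/
private noncomputable def psi (hj : Jok j)
    (hin : ∀ m : M, j.symm (algebraMap M (Kgs M) m) ∈ O) : M →ₐ[K] O where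
  toFun m := ⟨j.symm (algebraMap M (Kgs M) m), hin m⟩
  map_one' := Subtype.ext (by
    show j.symm (algebraMap M (Kgs M) 1) = 1
    rw [map_one, map_one])
  map_zero' := Subtype.ext (by
    show j.symm (algebraMap M (Kgs M) 0) = 0
    rw [map_zero, map_zero])
  map_mul' x y := Subtype.ext (by
    show j.symm (algebraMap M (Kgs M) (x * y)) = j.symm (algebraMap M (Kgs M) x) *
      j.symm (algebraMap M (Kgs M) y)
    rw [map_mul, map_mul])
  map_add' x y := Subtype.ext (by
    show j.symm (algebraMap M (Kgs M) (x + y)) = j.symm (algebraMap M (Kgs M) x) +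
      j.symm (algebraMap M (Kgs M) y)
    rw [map_add, map_add])
  commutes' x := Subtype.ext (by
    show j.symm (algebraMap M (Kgs M) (algebraMap K M x)) = algebraMap K (Kgs K) x
    rw [← hj x, j.symm_apply_apply])

private theorem psi_coe (hj : Jok j) (hin : ∀ m : M, j.symm (algebraMap M (Kgs M) m) ∈ O) (m : M) :
    ((psi j hj hin m : O) : Kgs K) = j.symm (algebraMap M (Kgs M) m) := rfl

private theorem phi_psi (hj : Jok j) (hin : ∀ m : M, j.symm (algebraMap M (Kgs M) m) ∈ O) (m : M) :
    phi j O O' hm (psi j hj hin m) = algebraMap M O' m := Subtype.ext (by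
  rw [phi_coe, psi_coe, j.apply_symm_apply]
  rfl)

/-- the range of `θ` -/
private theorem Tht_range (hj : Jok j) (hin : ∀ m : M, j.symm (algebraMap M (Kgs M) m) ∈ O)
    (g : Gal(O/K)) : g ∈ (Tht j hm hj).range ↔ ∀ m, g (psi j hj hin m) = psi j hj hin m := by
  constructor
  · rintro ⟨g', rfl⟩ m
    apply (phi j O O' hm).injective
    rw [phi_Tht, phi_psi, AlgEquiv.commutes]
  · intro h
    have hc : ∀ m : M, phi j O O' hm (g ((phi j O O' hm).symm (algebraMap M O' m))) =
        algebraMap M O' m := by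
      intro m
      rw [← phi_psi j hm hj hin m, RingEquiv.symm_apply_apply, h m]
    refine ⟨AlgEquiv.ofRingEquiv
      (f := ((phi j O O' hm).symm.trans g.toRingEquiv).trans (phi j O O' hm)) hc, ?_⟩
    apply AlgEquiv.ext
    intro x
    rw [Tht_apply]
    show (phi j O O' hm).symm (phi j O O' hm (g ((phi j O O' hm).symm (phi j O O' hm x)))) = g x
    rw [RingEquiv.symm_apply_apply, RingEquiv.symm_apply_apply]

private theorem Tht_range_open [FiniteDimensional K M] (hj : Jok j)
    (hin : ∀ m : M, j.symm (algebraMap M (Kgs M) m) ∈ O) :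
    IsOpen (Set.range (Tht j hm hj)) := by
  let E : IntermediateField K O := (psi j hj hin).fieldRange
  have hE : FiniteDimensional K E :=
    Module.Finite.equiv (AlgEquiv.ofInjectiveField (psi j hj hin)).toLinearEquiv
  have h1 : Set.range (Tht j hm hj) = (E.fixingSubgroup : Set Gal(O/K)) := by
    ext g
    have h2 := Tht_range j hm hj hin g
    rw [MonoidHom.mem_range] at h2
    rw [Set.mem_range, h2, SetLike.mem_coe, IntermediateField.mem_fixingSubgroup_iff]
    constructor
    · rintro h _ ⟨m, rfl⟩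
      exact h m
    · intro h m
      exact h _ ⟨m, rfl⟩
  rw [h1]
  exact E.fixingSubgroup_isOpen

private theorem Tht_emb [FiniteDimensional K M] (hO' : IsGalois M O') (hj : Jok j)
    (hin : ∀ m : M, j.symm (algebraMap M (Kgs M) m) ∈ O) :
    Topology.IsOpenEmbedding (Tht j hm hj) := by
  have h1 : Topology.IsClosedEmbedding (Tht j hm hj) :=
    (Tht_cont j hm hj).isClosedEmbedding (Tht_inj j hm hj)
  exact ⟨h1.isEmbedding, Tht_range_open j hm hj hin⟩

/-- the homomorphism `pq` -/
private theorem pq_ex [FiniteDimensional K M] [IsGalois K M] (hO : IsGalois K O) (hj : Jok j)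
    (hin : ∀ m : M, j.symm (algebraMap M (Kgs M) m) ∈ O) :
    ∃ pq : Gal(O/K) →* Gal(M/K), Function.Surjective pq ∧
      ∀ (g : Gal(O/K)) (m : M), psi j hj hin (pq g m) = g (psi j hj hin m) := by
  let _ : Algebra M O := (psi j hj hin).toRingHom.toAlgebra
  have _ : IsScalarTower K M O := IsScalarTower.of_algebraMap_eq fun x =>
    ((psi j hj hin).commutes x).symm
  refine ⟨AlgEquiv.restrictNormalHom M, AlgEquiv.restrictNormalHom_surjective O, fun g m => ?_⟩
  exact AlgEquiv.restrictNormal_commutes g M m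

private theorem op_inj {p : ℕ} [Fact p.Prime] (L : Type) [Field L] [CharP L p] {c c' : ZMod p}
    (h : op L c = op L c') : c = c' := by
  have h1 : c.val = c'.val :=
    CharP.natCast_injOn_Iio L p (ZMod.val_lt c) (ZMod.val_lt c') h
  exact ZMod.val_injective p h1

private theorem map_op {p : ℕ} {L L' : Type} [Field L] [Field L'] {F : Type*} [FunLike F L L']
    [RingHomClass F L L'] (f : F) (c : ZMod p) : f (op L c) = op L' c := map_natCast f _

end

theorem tPiM (h1 : S_Has) (h2 : S_GfM) (h3 : S_HsM) (h4 : S_OmM) (h5 : S_Hst) (h6 : S_Rgo) :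
    S_PiM := by
  intro p _ K M _ _ _ _ _ _ hK j hj J J' av av' κ hA α h hHS hin
  have hM : GFld p M := h2 p K M hK
  have hcM : CharP M p := charP_of_injective_algebraMap (algebraMap K M).injective p
  have hm : ∀ x : Kgs K, x ∈ OmS p av α ↔ j x ∈ OmS p av' (j α) :=
    h4 p K M hK j hj J J' av av' κ hA α h hHS hin
  obtain ⟨-, hOS, hHS', -⟩ := h3 p K M j hj J J' av av' κ hA hHS.pls
  have hH' : HS p av' (j α) (algebraMap K M h) := hHS' α h hHS
  obtain ⟨-, -, hG, ha0, halo, halp, -, -, -, -, hroot, -⟩ := h5 p K hK J av α h hHS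
  obtain ⟨-, -, hG', ha0', halo', halp', -⟩ := h5 p M hM J' av' (j α) _ hH'
  have hcO : CharP (OmS p av α) p :=
    charP_of_injective_algebraMap (algebraMap K (OmS p av α)).injective p
  have hcO' : CharP (OmS p av' (j α)) p :=
    charP_of_injective_algebraMap (algebraMap M (OmS p av' (j α))).injective p
  obtain ⟨pq, hpqs, hpq⟩ := pq_ex (O := OmS p av α) j hG hj hin
  have hker : pq.ker = (Tht j hm hj).range := by
    ext g
    rw [MonoidHom.mem_ker, Tht_range j hm hj hin g]
    constructor
    · intro hg m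
      rw [← hpq g m, hg, AlgEquiv.one_apply]
    · intro hg
      apply AlgEquiv.ext
      intro m
      have h7 : psi j hj hin (pq g m) = psi j hj hin m := (hpq g m).trans (hg m)
      exact (psi j hj hin).injective h7
  have hop : IsOpen (pq.ker : Set (GS p av α)) := by
    rw [hker]
    exact Tht_range_open j hm hj hin
  refine ⟨Tht j hm hj, pq, ?_⟩
  refine
    { jok := hj
      abo := hA
      hs := hHS
      hs' := hH'
      inM := hin
      mem := hm
      th := ?_
      emb := Tht_emb j hm hG' hj hin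
      pqs := hpqs
      pql := ?_
      pqk := hker
      pqa := ?_
      om := ?_
      os := ?_
      rg := ?_ }
  · intro g x y hy
    have hxy : y = phi j _ _ hm x := Subtype.ext hy
    rw [hxy, ← phi_Tht j hm hj g x, phi_coe]
  · rw [IsLocallyConstant.iff_isOpen_fiber]
    intro q
    obtain ⟨g, rfl⟩ := hpqs q
    have h7 : (pq ⁻¹' {pq g}) = (fun x => g⁻¹ * x) ⁻¹' (pq.ker : Set (GS p av α)) := by
      ext x
      rw [Set.mem_preimage, Set.mem_singleton_iff, Set.mem_preimage, SetLike.mem_coe,
        MonoidHom.mem_ker, map_mul, map_inv, inv_mul_eq_one]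
      exact eq_comm
    rw [h7]
    exact hop.preimage (continuous_const_mul g⁻¹)
  · intro g m x hx
    have h7 : x = psi j hj hin m := Subtype.ext hx
    rw [h7, ← hpq g m, psi_coe]
  · intro g
    obtain ⟨⟨-, h7⟩, -⟩ := h1 p K (OmS p av α) (alo p av α) h
      (fun h0 => ha0 (by rw [← halo, h0]; rfl)) halp
    obtain ⟨⟨-, h8⟩, -⟩ := h1 p M (OmS p av' (j α)) (alo p av' (j α)) (algebraMap K M h)
      (fun h0 => ha0' (by rw [← halo', h0]; rfl)) halp'
    have h9 : phi j _ _ hm (alo p av α) = alo p av' (j α) := Subtype.ext (by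
      rw [phi_coe, halo, halo'])
    have h10 := phi_Tht j hm hj g (alo p av α)
    rw [h7, map_mul, map_op, h9, h8] at h10
    have h11 : alo p av' (j α) ≠ 0 := fun h0 => ha0' (by rw [← halo', h0]; rfl)
    exact (op_inj (OmS p av' (j α)) (mul_right_cancel₀ h11 h10)).symm
  · intro D hD
    refine ⟨hOS D hD, fun g => ?_⟩
    obtain ⟨x, hx⟩ := hroot D hD
    have hx' : Ph p (algebraMap K (OmS p av α) 1) x = algebraMap K (OmS p av α) D := by
      rw [map_one]
      exact hx
    obtain ⟨-, -, h7, -⟩ := h1 p K (OmS p av α) 1 1 one_ne_zero (by rw [one_pow, map_one])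
    obtain ⟨-, z, hz, hz'⟩ := h7 D ⟨x, hx'⟩
    obtain ⟨-, h8, -, -, -, h9⟩ := h1 p M (OmS p av' (j α)) 1 1 one_ne_zero
      (by rw [one_pow, map_one])
    have hw : Ph p (algebraMap M (OmS p av' (j α)) 1) (phi j _ _ hm z) =
        algebraMap M (OmS p av' (j α)) (algebraMap K M D) := by
      rw [← phi_alg j hm hj D, ← hz]
      simp only [Ph, map_sub, map_pow, map_mul, map_one]
    obtain ⟨c, hc⟩ := h8 (algebraMap K M D) (phi j _ _ hm z) hw
    have h10 := hc g
    rw [← phi_Tht j hm hj g z, hz' (Tht j hm hj g), h9 g, one_mul, sub_self, add_zero, mul_one,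
      mul_one, map_add, map_op] at h10
    exact (op_inj (OmS p av' (j α)) (add_left_cancel h10)).symm
  · intro σ σ' hσ
    obtain ⟨-, -, h7, -⟩ := h6 p K hK J av α h hHS
    obtain ⟨-, -, h8, -⟩ := h6 p M hM J' av' (j α) _ hH'
    apply AlgEquiv.ext
    intro x
    apply Subtype.ext
    rw [← h7 σ x, Tht_apply, phi_symm_coe, ← h8 σ' (phi j _ _ hm x), phi_coe, ← hσ,
      j.symm_apply_apply]

end Pool.Agent.MP72G
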