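import Pool.Agent.Lib.MP_72e2e6_nt.P4.T.Spec

/-!
# MP_72e2e6_nt, theorem T4, part T: the places of `M` above the places `av` (`S_Plm`)
-/

set_option autoImplicit false

namespace Pool.Agent.MP72G

open Finset Pool.Agent.MP72P IntermediateField
open Pool.Agent.MP72V

open scoped Classical

/-- A power of a nonarchimedean absolute value. -/
private noncomputable def pwv {M : Type} [Field M] (v : AbsoluteValue M ℝ)
    (hv : IsNonarchimedean v) (c : ℝ) (hc : 0 < c) : AbsoluteValue M ℝ where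
  toFun x := v x ^ c
  map_mul' x y := by rw [map_mul, Real.mul_rpow (v.nonneg _) (v.nonneg _)]
  nonneg' x := Real.rpow_nonneg (v.nonneg _) _
  eq_zero' x := by
    rw [Real.rpow_eq_zero (v.nonneg _) hc.ne', AbsoluteValue.eq_zero]
  add_le' x y := by
    have h1 : v (x + y) ≤ max (v x) (v y) := hv x y
    have h2 : v (x + y) ^ c ≤ (max (v x) (v y)) ^ c :=
      Real.rpow_le_rpow (v.nonneg _) h1 hc.le
    refine h2.trans ?_
    have h3 : 0 ≤ v x ^ c := Real.rpow_nonneg (v.nonneg _) _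
    have h4 : 0 ≤ v y ^ c := Real.rpow_nonneg (v.nonneg _) _
    rcases max_choice (v x) (v y) with h | h
    · rw [h]; linarith
    · rw [h]; linarith

private theorem pwv_equiv {M : Type} [Field M] (v : AbsoluteValue M ℝ)
    (hv : IsNonarchimedean v) (c : ℝ) (hc : 0 < c) : v.IsEquiv (pwv v hv c hc) :=
  AbsoluteValue.isEquiv_iff_exists_rpow_eq.2 ⟨c, hc, rfl⟩

theorem tPlm (h1 : S_Na) (h2 : S_Abv) : S_Plm := by
  intro p _ K M _ _ _ _ _ J _ av hav
  have hM : CharP M p := charP_of_injective_algebraMap (algebraMap K M).injective p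
  obtain ⟨m, w, hw, hex, hall⟩ := h2 p K M J av hav.ntr
  choose κ hκ using hex
  have hc : ∀ l, ∃ c : ℝ, 0 < c ∧ ∀ x, (w l (algebraMap K M x)) ^ c = av (κ l) x := by
    intro l
    obtain ⟨c, hc0, hc⟩ := AbsoluteValue.isEquiv_iff_exists_rpow_eq.1 (hκ l)
    exact ⟨c, hc0, fun x => congrFun hc x⟩
  choose c hc0 hc using hc
  have hE : ∀ l, (w l).IsEquiv (pwv (w l) (h1 p M (w l)) (c l) (hc0 l)) := fun l =>
    pwv_equiv _ _ _ _
  refine ⟨m, fun l => pwv (w l) (h1 p M (w l)) (c l) (hc0 l), κ, ?_⟩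
  refine ⟨inferInstance, ⟨fun l => ?_, fun l l' hll h => ?_⟩, fun l => ?_, fun v hv => ?_⟩
  · exact (hE l).isNontrivial_congr.1 (hw.ntr l)
  · exact hw.inq l l' hll (((hE l).trans h).trans (hE l').symm)
  · ext x
    exact hc l x
  · obtain ⟨l, hl⟩ := hall v hv
    exact ⟨l, hl.trans (hE l)⟩

end Pool.Agent.MP72G
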