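import Pool.Agent.Lib.MP_72e2e6_nt.P4.T.Spec

/-! The points over `M`. -/

namespace Pool.Agent.MP72G

open Finset Pool.Agent.MP72P IntermediateField
open WeierstrassCurve
open Pool.Agent.MP72W (pmap)
open Pool.Agent.MP72V

open scoped Classical

private theorem ex_tr (h5 : S_TrM) (h7 : S_GcM) (p : ℕ) [Fact p.Prime] (K M : Type) [Field K]
    [Field M] [Algebra K M] [CharP K p] (W : WeierstrassCurve K) (j : Kgs K ≃+* Kgs M)
    (hj : Jok j) (k : ℕ) :
    ∃ tr : Pt p W k (Kgs K) →+ Pt p (W.map (algebraMap K M)) k (Kgs M),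
      TrP (fr p W k) (fr p (W.map (algebraMap K M)) k) j tr := by
  have hY : ∀ Y : WeierstrassCurve M, Y = (fr p W k).map (algebraMap K M) →
      ∃ tr : ((fr p W k)⁄(Kgs K)).toAffine.Point →+ (Y⁄(Kgs M)).toAffine.Point,
        TrP (fr p W k) Y j tr := by
    intro Y hY
    subst hY
    exact h5 K M j hj (fr p W k)
  exact hY _ ((h7 p K M W).1 k)

private theorem ord_dec {L : Type} [Field L] (X : WeierstrassCurve.Affine L)
    (d1 d2 : DecidableEq L) (P : X.Point) :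
    @addOrderOf X.Point (@SubNegMonoid.toAddMonoid _ (@AddGroup.toSubNegMonoid _
      (@AddCommGroup.toAddGroup _ (@Affine.Point.instAddCommGroup L _ X d1)))) P =
    @addOrderOf X.Point (@SubNegMonoid.toAddMonoid _ (@AddGroup.toSubNegMonoid _
      (@AddCommGroup.toAddGroup _ (@Affine.Point.instAddCommGroup L _ X d2)))) P := by
  have h : d1 = d2 := Subsingleton.elim _ _
  subst h
  rfl

theorem tQPm (_ : S_Has) (_ : S_Hst) (_ : S_Rgo) (h4 : S_Jgl) (h5 : S_TrM) (h6 : S_IsO)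
    (h7 : S_GcM) : S_QPm := by
  intro p _ K M _ _ _ _ _ W hW
  have hW' : Gc p (W.map (algebraMap K M)) := (h7 p K M W).2.1 hW
  refine ⟨?_, ?_⟩
  · intro j J J' av av' κ α h θ pq hT k Q ψ hQ
    obtain ⟨tr, htr⟩ := ex_tr h5 h7 p K M W j hT.jok k
    obtain ⟨j1, -, -, -, -⟩ := h4 p K M j hT.jok
    refine ⟨tr Q, ?_⟩
    constructor
    · exact ((h6 p M (W.map (algebraMap K M)) hW' (Kgs M) k).1 (tr Q)).mpr
        ((ord_dec _ _ _ _).trans ((addOrderOf_injective tr htr.inj Q).trans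
          ((ord_dec _ _ _ _).trans (((h6 p K W hW (Kgs K) k).1 Q).mp hQ.q))))
    · exact hQ.loc.comp_continuous hT.emb.continuous
    · rw [map_one, hQ.one]
    · intro a b
      rw [map_mul, hQ.mul]
    · intro a
      rw [hT.om a]
      exact hQ.red (θ a)
    · intro σ'
      obtain ⟨σ, hσ⟩ := j1 σ'
      rw [htr.gal σ σ' hσ Q, hQ.gal σ, hT.rg σ σ' hσ, map_nsmul]
  · intro j hj α h hα hh k R hR hg
    obtain ⟨tr, htr⟩ := ex_tr h5 h7 p K M W j hj k
    obtain ⟨j1, -, -, -, j5⟩ := h4 p K M j hj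
    refine ⟨tr R, ?_, ?_⟩
    · exact ((h6 p M (W.map (algebraMap K M)) hW' (Kgs M) k).2 (tr R)).mpr
        ((ord_dec _ _ _ _).trans ((addOrderOf_injective tr htr.inj R).trans
          ((ord_dec _ _ _ _).trans (((h6 p K W hW (Kgs K) k).2 R).mp hR))))
    · intro σ'
      obtain ⟨σ, hσ⟩ := j1 σ'
      rw [htr.gal σ σ' hσ R, hg σ, j5 α h hα hh σ σ' hσ, map_nsmul]

end Pool.Agent.MP72G
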