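import Pool.Agent.Lib.MP_72e2e6_nt.P4.T.Spec

/-!
# MP_72e2e6_nt, theorem T4, part T: `S_ShA` (Shapiro's lemma for the kernels, abstract)
-/

set_option autoImplicit false

namespace Pool.Agent.MP72G

open Finset Pool.Agent.MP72P IntermediateField
open Pool.Agent.MP72V

open scoped Classical

private theorem shA_zt0 {p : ℕ} {Λ : Type} [CommRing Λ] (π : Λ) :
    zt π (0 : ZMod p) = 1 := by
  unfold zt
  rw [ZMod.val_zero, pow_zero]

private theorem shA_zta {p : ℕ} [Fact p.Prime] {Λ : Type} [CommRing Λ] {π : Λ}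
    (hπ : (1 - π) ^ p = 1) (a b : ZMod p) : zt π (a + b) = zt π a * zt π b := by
  unfold zt
  rw [ZMod.val_add, ← pow_eq_pow_mod _ hπ, pow_add]

private theorem shA_home {p : ℕ} {G : Type} [Group G] [TopologicalSpace G] {h : G → ZMod p}
    (hh : HomP p h) : h 1 = 0 := by
  have h1 := hh.add 1 1
  rw [mul_one] at h1
  exact left_eq_add.mp h1

theorem tShA (h1 : S_ShF) : S_ShA := by
  intro p _ G H Q J J' Λ _ _ _ _ _ _ _ _ _ _ θ pq s hθ hpq hker hs hs1 D D' κ x hD π hπ Ψ hΨl hΨ1
    hΨm χ₀ hd hχ₀ hhd β hβ hfin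
  have zt0 : zt π (0 : ZMod p) = 1 := shA_zt0 π
  have zta : ∀ a b : ZMod p, zt π (a + b) = zt π a * zt π b := shA_zta hπ
  have hχ1 : χ₀ 1 = 0 := shA_home hχ₀
  have hhd1 : hd 1 = 0 := shA_home hhd
  -- the character `U`
  obtain ⟨U, hU⟩ : ∃ U : G → Λ, ∀ g, U g = Ψ g * zt π (hd g) := ⟨_, fun _ => rfl⟩
  have hU1 : U 1 = 1 := by rw [hU, hΨ1, hhd1, zt0, mul_one]
  have hUm : ∀ a b, U (a * b) = U a * U b := by
    intro a b
    rw [hU, hU, hU, hΨm, hhd.add, zta]
    ring
  have hUi : ∀ a, U a⁻¹ * U a = 1 := by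
    intro a
    rw [← hUm, inv_mul_cancel, hU1]
  have hUl : IsLocallyConstant U := by
    rw [IsLocallyConstant.iff_eventually_eq]
    intro g
    filter_upwards [(IsLocallyConstant.iff_eventually_eq _).mp hΨl g,
      (IsLocallyConstant.iff_eventually_eq _).mp hhd.loc g] with g' h2 h3
    rw [hU, hU, h2, h3]
  -- the operators for `G`
  have hρ : ∀ g (f : Q → Λ) q, twz (1 - π) (ind π Ψ pq β) hd g f q =
      U g * zt π (β g q) * f (q * pq g) := by
    intro g f q
    show (1 - π) ^ (hd g).val * (Ψ g * zt π (β g q) * f (q * pq g)) = _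
    rw [hU]
    unfold zt
    ring
  -- the character for `H`
  obtain ⟨χ, hχ⟩ : ∃ χ : H → Λ, χ = tw π (fun h => Ψ (θ h)) fun h => χ₀ h + hd (θ h) := ⟨_, rfl⟩
  have hχe : ∀ h, χ h = U (θ h) * zt π (χ₀ h) := by
    intro h
    rw [hχ]
    show Ψ (θ h) * zt π (χ₀ h + hd (θ h)) = _
    rw [zta, hU]
    ring
  have hχ1' : χ 1 = 1 := by rw [hχe, map_one, hU1, hχ1, zt0, mul_one]
  have hχm : ∀ a b, χ (a * b) = χ a * χ b := by
    intro a b
    rw [hχe, hχe, hχe, map_mul, hUm, hχ₀.add, zta]
    ring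
  rw [← hχ]
  -- the elements `lg g`
  have hpθ : ∀ h, pq (θ h) = 1 := by
    intro h
    have h2 : θ h ∈ pq.ker := by
      rw [hker]
      exact ⟨h, rfl⟩
    exact h2
  have hlgE : ∀ g, ∃ h, θ h = g * (s (pq g))⁻¹ := by
    intro g
    have h2 : g * (s (pq g))⁻¹ ∈ pq.ker := by
      rw [MonoidHom.mem_ker, map_mul, map_inv, hs, mul_inv_cancel]
    rw [hker] at h2
    exact h2
  choose lg hlg using hlgE
  have hinj : Function.Injective θ := hθ.injective
  have hlgm : ∀ h g, lg (θ h * g) = h * lg g := by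
    intro h g
    apply hinj
    rw [hlg, map_mul pq, map_mul θ, hpθ, one_mul, hlg, mul_assoc]
  have hlgs : ∀ q, lg (s q) = 1 := by
    intro q
    apply hinj
    rw [hlg, hs, mul_inv_cancel, map_one]
  have hlgc : Continuous lg := by
    rw [hθ.isInducing.continuous_iff]
    have h2 : (θ ∘ lg) = fun g => g * (s (pq g))⁻¹ := funext hlg
    rw [h2]
    have h3 : IsLocallyConstant fun g => (s (pq g))⁻¹ := by
      rw [IsLocallyConstant.iff_eventually_eq]
      intro g
      filter_upwards [(IsLocallyConstant.iff_eventually_eq _).mp hpq g] with g' h4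
      rw [h4]
    exact continuous_id.mul h3.continuous
  have hloc : ∀ {Y : Type} (f : H → Y), IsLocallyConstant f → ∀ q : Q,
      IsLocallyConstant fun g => f (lg (s q * g)) := by
    intro Y f hf q
    exact hf.comp_continuous (hlgc.comp (continuous_const.mul continuous_id))
  -- the decomposition
  have hdec : ∀ g q, s q * g = θ (lg (s q * g)) * s (q * pq g) := by
    intro g q
    rw [hlg, map_mul, hs]
    group
  have hβe : ∀ g q, β g q = χ₀ (lg (s q * g)) := by
    intro g q
    apply hβ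
    rw [hlg, map_mul, hs]
  have hχg : ∀ g q, U (s q)⁻¹ * χ (lg (s q * g)) = U g * zt π (β g q) * U (s (q * pq g))⁻¹ := by
    intro g q
    rw [hχe, hlg, map_mul, hs, ← hβe, hUm, hUm]
    have h2 := hUi (s q)
    calc U (s q)⁻¹ * (U (s q) * U g * U (s (q * pq g))⁻¹ * zt π (β g q))
        = (U (s q)⁻¹ * U (s q)) * (U g * zt π (β g q) * U (s (q * pq g))⁻¹) := by ring
      _ = _ := by rw [h2, one_mul]
  -- the operators are multiplicative
  have hβm : ∀ g g' q, β (g * g') q = β g q + β g' (q * pq g) := by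
    intro g g' q
    rw [hβe, hβe g, hβe g', ← hχ₀.add]
    congr 1
    rw [← hlgm, ← mul_assoc (θ (lg (s q * g))), ← hdec, mul_assoc]
  have hρm : ∀ g g' (f : Q → Λ), twz (1 - π) (ind π Ψ pq β) hd (g * g') f =
      twz (1 - π) (ind π Ψ pq β) hd g (twz (1 - π) (ind π Ψ pq β) hd g' f) := by
    intro g g' f
    funext q
    rw [hρ, hρ, hρ, hUm, hβm, zta, map_mul, mul_assoc q]
    ring
  have hρa : ∀ g (f f' : Q → Λ), twz (1 - π) (ind π Ψ pq β) hd g (f + f') =
      twz (1 - π) (ind π Ψ pq β) hd g f + twz (1 - π) (ind π Ψ pq β) hd g f' := by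
    intro g f f'
    funext q
    rw [Pi.add_apply, hρ, hρ, hρ, Pi.add_apply]
    ring
  have hρs : ∀ g (f f' : Q → Λ), twz (1 - π) (ind π Ψ pq β) hd g (f - f') =
      twz (1 - π) (ind π Ψ pq β) hd g f - twz (1 - π) (ind π Ψ pq β) hd g f' := by
    intro g f f'
    funext q
    rw [Pi.sub_apply, hρ, hρ, hρ, Pi.sub_apply]
    ring
  have hβl : ∀ q, IsLocallyConstant fun g => β g q := by
    intro q
    have h2 : (fun g => β g q) = fun g => χ₀ (lg (s q * g)) := funext fun g => hβe g q
    rw [h2]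
    exact hloc χ₀ hχ₀.loc q
  have hρl : ∀ f : Q → Λ, IsLocallyConstant fun g => twz (1 - π) (ind π Ψ pq β) hd g f := by
    intro f
    rw [IsLocallyConstant.iff_eventually_eq]
    intro g
    have h2 : ∀ᶠ g' in nhds g, ∀ q, β g' q = β g q :=
      Filter.eventually_all.mpr fun q => (IsLocallyConstant.iff_eventually_eq _).mp (hβl q) g
    filter_upwards [h2, (IsLocallyConstant.iff_eventually_eq _).mp hUl g,
      (IsLocallyConstant.iff_eventually_eq _).mp hpq g] with g' h3 h4 h5
    funext q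
    rw [hρ, hρ, h3, h4, h5]
  -- elements of the kernel for `H`
  have hcoc : ∀ z : (Ker (rL χ) D' : Set ((H → Λ) × (J' → Λ))), ∀ a b,
      z.1.1 (a * b) = z.1.1 a + χ a * z.1.1 b := fun z a b => z.2.1.mul a b
  have hz1 : ∀ z : (Ker (rL χ) D' : Set ((H → Λ) × (J' → Λ))), z.1.1 1 = 0 := by
    intro z
    have h2 := hcoc z 1 1
    rw [mul_one, hχ1', one_mul] at h2
    exact left_eq_add.mp h2
  have hFex := fun z : (Ker (rL χ) D' : Set ((H → Λ) × (J' → Λ))) =>
    h1 G H J J' Λ θ D D' κ x hD χ z.1.1 z.1.2 hχ1' hχm (hcoc z) (fun w h hh => by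
      have h2 := z.2.2 w h hh
      exact sub_eq_zero.mp h2)
  choose F hF1 hF2 hF3 using hFex
  -- values on cosets
  have hct : ∀ (z : (Ker (rL χ) D' : Set ((H → Λ) × (J' → Λ)))) h g,
      z.1.1 (lg (θ h * g)) = z.1.1 h + χ h * z.1.1 (lg g) := by
    intro z h g
    rw [hlgm, hcoc]
  have hct2 : ∀ (z : (Ker (rL χ) D' : Set ((H → Λ) × (J' → Λ)))) h q,
      z.1.1 (lg (θ h * s q)) = z.1.1 h := by
    intro z h q
    rw [hct, hlgs, hz1, mul_zero, add_zero]
  -- the map
  let CC : (Ker (rL χ) D' : Set ((H → Λ) × (J' → Λ))) → G → Q → Λ := fun z g q =>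
    U (s q)⁻¹ * z.1.1 (lg (s q * g))
  let AA : (Ker (rL χ) D' : Set ((H → Λ) × (J' → Λ))) → J → Q → Λ := fun z i q =>
    U (s q)⁻¹ * F z i (s q)
  have hCC : ∀ z g q, CC z g q = U (s q)⁻¹ * z.1.1 (lg (s q * g)) := fun _ _ _ => rfl
  have hAA : ∀ z i q, AA z i q = U (s q)⁻¹ * F z i (s q) := fun _ _ _ => rfl
  have hCm : ∀ z g g', CC z (g * g') = CC z g + twz (1 - π) (ind π Ψ pq β) hd g (CC z g') := by
    intro z g g'
    funext q
    rw [Pi.add_apply, hρ, hCC, hCC, hCC, ← mul_assoc (s q), hdec g q, mul_assoc, hct, hct2]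
    have h2 := hχg g q
    rw [← mul_assoc (U g * zt π (β g q)), ← h2]
    ring
  have hCl : ∀ z, IsLocallyConstant (CC z) := by
    intro z
    rw [IsLocallyConstant.iff_eventually_eq]
    intro g
    have h2 : ∀ᶠ g' in nhds g, ∀ q, z.1.1 (lg (s q * g')) = z.1.1 (lg (s q * g)) :=
      Filter.eventually_all.mpr fun q =>
        (IsLocallyConstant.iff_eventually_eq _).mp (hloc z.1.1 z.2.1.loc q) g
    filter_upwards [h2] with g' h3
    funext q
    rw [hCC, hCC, h3]
  have hCA : ∀ z i, ∀ g ∈ D i, CC z g = AA z i - twz (1 - π) (ind π Ψ pq β) hd g (AA z i) := by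
    intro z i g hg
    funext q
    rw [Pi.sub_apply, hρ, hCC, hAA, hAA, ← hF1 z i (s q) g hg, hdec g q, hF2, hct2]
    have h2 := hχg g q
    rw [← mul_assoc (U g * zt π (β g q)), ← h2]
    ring
  let Φ : (Ker (rL χ) D' : Set ((H → Λ) × (J' → Λ))) × (Q → Λ) →
      (Ker (twz (1 - π) (ind π Ψ pq β) hd) D : Set ((G → Q → Λ) × (J → Q → Λ))) × Λ := fun y =>
    (⟨(fun g => CC y.1 g + (Function.update y.2 1 0 -
        twz (1 - π) (ind π Ψ pq β) hd g (Function.update y.2 1 0)),
      fun i => AA y.1 i + Function.update y.2 1 0), by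
      refine ⟨⟨?_, ?_⟩, ?_⟩
      · rw [IsLocallyConstant.iff_eventually_eq]
        intro g
        filter_upwards [(IsLocallyConstant.iff_eventually_eq _).mp (hCl y.1) g,
          (IsLocallyConstant.iff_eventually_eq _).mp (hρl (Function.update y.2 1 0)) g] with g' h2 h3
        rw [h2, h3]
      · intro g g'
        show CC y.1 (g * g') + (Function.update y.2 1 0 -
          twz (1 - π) (ind π Ψ pq β) hd (g * g') (Function.update y.2 1 0)) =
          (CC y.1 g + (Function.update y.2 1 0 -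
          twz (1 - π) (ind π Ψ pq β) hd g (Function.update y.2 1 0))) +
          twz (1 - π) (ind π Ψ pq β) hd g (CC y.1 g' + (Function.update y.2 1 0 -
          twz (1 - π) (ind π Ψ pq β) hd g' (Function.update y.2 1 0)))
        rw [hCm, hρm, hρa, hρs]
        abel
      · intro i g hg
        show (CC y.1 g + (Function.update y.2 1 0 -
          twz (1 - π) (ind π Ψ pq β) hd g (Function.update y.2 1 0))) -
          ((AA y.1 i + Function.update y.2 1 0) -
          twz (1 - π) (ind π Ψ pq β) hd g (AA y.1 i + Function.update y.2 1 0)) = 0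
        rw [hρa, hCA y.1 i g hg]
        abel⟩, y.2 1)
  have hΦ : Function.Injective Φ := by
    rintro ⟨z, B⟩ ⟨z', B'⟩ he
    have h2 : B 1 = B' 1 := congrArg Prod.snd he
    have h3 := congrArg (fun t => (t.1 : (G → Q → Λ) × (J → Q → Λ))) he
    have h4 : ∀ g q, CC z g q + (Function.update B 1 0 q -
        twz (1 - π) (ind π Ψ pq β) hd g (Function.update B 1 0) q) =
        CC z' g q + (Function.update B' 1 0 q -
        twz (1 - π) (ind π Ψ pq β) hd g (Function.update B' 1 0) q) := by
      intro g q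
      have h5 := congrFun (congrFun (congrArg Prod.fst h3) g) q
      exact h5
    have h5 : ∀ i q, AA z i q + Function.update B 1 0 q = AA z' i q + Function.update B' 1 0 q := by
      intro i q
      have h5 := congrFun (congrFun (congrArg Prod.snd h3) i) q
      exact h5
    have hC1 : ∀ y : (Ker (rL χ) D' : Set ((H → Λ) × (J' → Λ))), ∀ g, CC y g 1 = y.1.1 (lg g) := by
      intro y g
      rw [hCC, hs1, inv_one, hU1, one_mul, one_mul]
    have hc : ∀ h, z.1.1 h = z'.1.1 h := by
      intro h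
      have h6 := h4 (θ h) 1
      rw [hC1, hC1, hρ, hρ, hpθ, one_mul, Function.update_self, Function.update_self] at h6
      have h7 : lg (θ h) = h := by
        have h8 := hlgm h 1
        rw [mul_one] at h8
        rw [h8]
        have h9 := hlgs 1
        rw [hs1] at h9
        rw [h9, mul_one]
      rw [h7] at h6
      simpa using h6
    have hB : ∀ q, Function.update B 1 0 q = Function.update B' 1 0 q := by
      intro q
      have h6 := h4 (s q) 1
      rw [hC1, hC1, hρ, hρ, hs, one_mul, Function.update_self, Function.update_self, hlgs, hz1, hz1,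
        hβe, hs1, one_mul, hlgs, hχ1, zt0, mul_one, zero_add, zero_add, zero_sub, zero_sub,
        neg_inj] at h6
      have h7 := congrArg (fun t => U (s q)⁻¹ * t) h6
      simp only [← mul_assoc, hUi, one_mul] at h7
      exact h7
    have hFs : ∀ i q, F z i (s q) = F z' i (s q) := by
      intro i q
      have h6 := h5 i q
      rw [hB q] at h6
      have h7 : AA z i q = AA z' i q := add_right_cancel h6
      rw [hAA, hAA] at h7
      have h8 := congrArg (fun t => U (s q) * t) h7
      have h9 : U (s q) * U (s q)⁻¹ = 1 := by rw [mul_comm, hUi]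
      simp only [← mul_assoc, h9, one_mul] at h8
      exact h8
    have ha : ∀ w, z.1.2 w = z'.1.2 w := by
      intro w
      have h6 : x w = θ (lg (x w)) * s (pq (x w)) := by
        rw [hlg]
        group
      rw [← hF3 z w, ← hF3 z' w, h6, hF2, hF2, hFs, hc]
    have hzz : z = z' := by
      apply Subtype.ext
      exact Prod.ext (funext hc) (funext ha)
    have hBB : B = B' := by
      funext q
      by_cases hq : q = 1
      · rw [hq, h2]
      · have h6 := hB q
        rwa [Function.update_of_ne hq, Function.update_of_ne hq] at h6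
    rw [hzz, hBB]
  have hfinG : Finite (Ker (twz (1 - π) (ind π Ψ pq β) hd) D : Set ((G → Q → Λ) × (J → Q → Λ))) := hfin
  have hfinH : Finite (Ker (rL χ) D' : Set ((H → Λ) × (J' → Λ))) := by
    refine Finite.of_injective (fun z => Φ (z, 0)) ?_
    intro z z' he
    exact congrArg Prod.fst (hΦ he)
  refine ⟨hfinH, ?_⟩
  have h2 := Nat.card_le_card_of_injective Φ hΦ
  rw [Nat.card_prod, Nat.card_prod, Nat.card_coe_set_eq, Nat.card_coe_set_eq] at h2
  exact h2

end Pool.Agent.MP72G
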