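import Pool.Agent.Lib.MP_72e2e6_nt.P4.T.Spec

/-!
# MP_72e2e6_nt, theorem T4, part T: `S_ShF` (the local part of Shapiro's lemma, abstract)
-/

set_option autoImplicit false

namespace Pool.Agent.MP72G

open Finset Pool.Agent.MP72P IntermediateField
open Pool.Agent.MP72V

open scoped Classical

private theorem shF_wd {G H J J' Λ : Type} [Group G] [Group H] [CommRing Λ] {θ : H →* G}
    {D : J → Subgroup G} {D' : J' → Subgroup H} {κ : J' → J} {x : J' → G}
    (hD : Dcs θ D D' κ x) {χ c : H → Λ} {a : J' → Λ}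
    (hm : ∀ h h', χ (h * h') = χ h * χ h') (hc : ∀ h h', c (h * h') = c h + χ h * c h')
    (ha : ∀ w, ∀ h ∈ D' w, c h = a w - χ h * a w) (w w' : J') (h h' : H) (d d' : G)
    (hκ : κ w = κ w') (hd : d ∈ D (κ w)) (hd' : d' ∈ D (κ w))
    (he : θ h * x w * d = θ h' * x w' * d') : c h + χ h * a w = c h' + χ h' * a w' := by
  have h1 : θ (h'⁻¹ * h) * x w * (d * d'⁻¹) = x w' := by
    have h2 : θ (h'⁻¹ * h) * x w * (d * d'⁻¹) = (θ h')⁻¹ * (θ h * x w * d) * d'⁻¹ := by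
      rw [map_mul, map_inv]
      group
    rw [h2, he]
    group
  have h3 : w = w' := hD.inj w w' _ _ ((D (κ w)).mul_mem hd ((D (κ w)).inv_mem hd')) hκ h1
  subst h3
  have h4 : (x w)⁻¹ * θ (h'⁻¹ * h) * x w ∈ D (κ w) := by
    have h5 : (x w)⁻¹ * θ (h'⁻¹ * h) * x w = (x w)⁻¹ * (θ (h'⁻¹ * h) * x w * (d * d'⁻¹)) * (d' * d⁻¹) := by
      group
    rw [h5, h1]
    have h6 : (x w)⁻¹ * x w * (d' * d⁻¹) = d' * d⁻¹ := by group
    rw [h6]
    exact (D (κ w)).mul_mem hd' ((D (κ w)).inv_mem hd)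
  have h5 := ha w _ ((hD.mem w _).mpr h4)
  have h6 : h = h' * (h'⁻¹ * h) := by group
  have h7 : c h = c h' + χ h' * c (h'⁻¹ * h) := by
    conv_lhs => rw [h6]
    exact hc _ _
  have h8 : χ h = χ h' * χ (h'⁻¹ * h) := by
    conv_lhs => rw [h6]
    exact hm _ _
  rw [h7, h8, h5]
  ring

theorem tShF : S_ShF := by
  intro G H J J' Λ _ _ _ θ D D' κ x hD χ c a h1 hm hc ha
  have hc1 : c 1 = 0 := by
    have h2 := hc 1 1
    rw [mul_one, h1, one_mul] at h2
    exact left_eq_add.mp h2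
  choose W Hh E hE hκ hg using fun i g => hD.ex i g
  have key : ∀ i g w h d, κ w = i → d ∈ D i → g = θ h * x w * d →
      c (Hh i g) + χ (Hh i g) * a (W i g) = c h + χ h * a w := by
    intro i g w h d hw hd he
    refine shF_wd hD hm hc ha _ _ _ _ (E i g) d ?_ ?_ ?_ ?_
    · rw [hκ i g, hw]
    · rw [hκ i g]; exact hE i g
    · rw [hκ i g]; exact hd
    · rw [← hg i g, ← he]
  refine ⟨fun i g => c (Hh i g) + χ (Hh i g) * a (W i g), ?_, ?_, ?_⟩
  · intro i g d hd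
    refine key i (g * d) (W i g) (Hh i g) (E i g * d) (hκ i g) ((D i).mul_mem (hE i g) hd) ?_
    conv_lhs => rw [hg i g]
    group
  · intro i g h
    show c (Hh i (θ h * g)) + χ (Hh i (θ h * g)) * a (W i (θ h * g)) =
      c h + χ h * (c (Hh i g) + χ (Hh i g) * a (W i g))
    rw [key i (θ h * g) (W i g) (h * Hh i g) (E i g) (hκ i g) (hE i g) ?_, hc, hm]
    · ring
    · conv_lhs => rw [hg i g]
      rw [map_mul]
      group
  · intro w
    show c (Hh (κ w) (x w)) + χ (Hh (κ w) (x w)) * a (W (κ w) (x w)) = a w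
    rw [key (κ w) (x w) w 1 1 rfl (D (κ w)).one_mem (by rw [map_one]; group), hc1, h1]
    ring

end Pool.Agent.MP72G
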