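import Pool.Agent.Lib.MP_72e2e6_nt.P4.T.Spec

/-!
# MP_72e2e6_nt, theorem T4, part T: `S_StD` (the groups `DS` as stabilizers of absolute values)
-/

set_option autoImplicit false

namespace Pool.Agent.MP72G

open Finset Pool.Agent.MP72P IntermediateField
open Pool.Agent.MP72V

open scoped Classical

theorem tStD (h1 : S_Dsc) (h2 : S_Lc1) (h3 : S_Lc2) (h4 : S_Rgo) (h5 : S_Stb) : S_StD := by
  intro p _ K _ _ hK J av α h hS ι i
  obtain ⟨Q, ϖ, R, hLF⟩ := h1 p K hK (av i) (hS.pls.ntr i)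
  obtain ⟨l1, -⟩ := h2 p K (av i) Q ϖ R hLF
  obtain ⟨m1, m2, m3, m4, m5, -⟩ := h3 p K (av i) Q ϖ R hLF
  obtain ⟨-, -, -, -, -, -, r7⟩ := h4 p K hK J av α h hS
  obtain ⟨-, r8, -⟩ := r7 (av i) (ι i)
  have h6 := h5 p K (av i) Q ϖ R hLF (ι i)
  let u : AbsoluteValue (Kgs K) ℝ :=
    { toFun := fun x => nm (av i) (ι i x)
      map_mul' := fun x y => by
        show nm (av i) (ι i (x * y)) = _
        rw [map_mul, m3]
      nonneg' := fun x => m1 _
      eq_zero' := fun x => by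
        show nm (av i) (ι i x) = 0 ↔ x = 0
        rw [m2, map_eq_zero]
      add_le' := fun x y => by
        show nm (av i) (ι i (x + y)) ≤ nm (av i) (ι i x) + nm (av i) (ι i y)
        rw [map_add]
        refine (m4 _ _).trans ?_
        exact max_le (le_add_of_nonneg_right (m1 _)) (le_add_of_nonneg_left (m1 _)) }
  have hu : ∀ x, u x = nm (av i) (ι i x) := fun _ => rfl
  refine ⟨u, ?_, ?_⟩
  · ext x
    show u (algebraMap K (Kgs K) x) = av i x
    rw [hu, (ι i).commutes, IsScalarTower.algebraMap_apply K (av i).Completion (Kvs (av i)), m5, l1]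
  · intro g
    constructor
    · rintro ⟨g', rfl⟩
      refine ⟨rsH (M := (av i).Completion) (ι i) g', (r8 g').symm, ?_⟩
      exact (h6 _).mp ⟨g', rfl⟩
    · rintro ⟨σ, rfl, hσ⟩
      obtain ⟨g', hg'⟩ := (h6 σ).mpr hσ
      refine ⟨g', ?_⟩
      rw [r8, hg']

end Pool.Agent.MP72G
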