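import Pool.Agent.Lib.MP_72e2e6_nt.P4.T.Spec

/-!
# MP_72e2e6_nt, theorem T4, T/Stb: the image of the local Galois group is the stabilizer of the
absolute value
-/

set_option autoImplicit false

namespace Pool.Agent.MP72G

open Polynomial Pool.Agent.MP72P IntermediateField

open scoped Classical

section
variable {k L : Type} [Field k] [Field L] [Algebra k L] [Algebra.IsAlgebraic k L]

open Pointwise in
private theorem stb_closed (x y : L) : IsClosed {g : Gal(L/k) | g x = y} := by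
  rcases Set.eq_empty_or_nonempty {g : Gal(L/k) | g x = y} with h | ⟨g₀, hg₀⟩
  · rw [h]; exact isClosed_empty
  · have h1 : IsClosed (MulAction.stabilizer Gal(L/k) x : Set Gal(L/k)) :=
      Subgroup.isClosed_of_isOpen _ (stabilizer_isOpen_of_isIntegral x)
    have h2 : {g : Gal(L/k) | g x = y} =
        g₀ • (MulAction.stabilizer Gal(L/k) x : Set Gal(L/k)) := by
      ext g
      rw [mem_leftCoset_iff]
      show g x = y ↔ g₀⁻¹ * g ∈ MulAction.stabilizer Gal(L/k) x
      rw [MulAction.mem_stabilizer_iff]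
      have h3 : (g₀⁻¹ * g) • x = g₀⁻¹ (g x) := rfl
      rw [h3]
      have h4 : g₀ x = y := hg₀
      constructor
      · intro h
        rw [h, ← h4]
        exact g₀.symm_apply_apply x
      · intro h
        rw [← h4, ← congrArg g₀ h]
        exact (g₀.apply_symm_apply (g x)).symm
    rw [h2]
    exact h1.leftCoset g₀

end

/-- Two algebra homomorphisms which agree at a primitive element agree. -/
private theorem stb_prim {K Ω L : Type} [Field K] [Field Ω] [Field L] [Algebra K Ω] [Algebra K L]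
    [Algebra.IsSeparable K Ω] (y₁ y₂ : Ω) : ∃ y : Ω, ∀ φ ψ : Ω →ₐ[K] L, φ y = ψ y →
      φ y₁ = ψ y₁ ∧ φ y₂ = ψ y₂ := by
  have hint : ∀ x : Ω, IsIntegral K x := fun x => Algebra.IsIntegral.isIntegral x
  have hfin : FiniteDimensional K (adjoin K {y₁, y₂}) :=
    IntermediateField.finiteDimensional_adjoin fun x _ => hint x
  obtain ⟨y, hy⟩ := Field.exists_primitive_element K (adjoin K {y₁, y₂})
  refine ⟨y, fun φ ψ hφ => ?_⟩
  have h1 : adjoin K {y₁, y₂} = K⟮(y : Ω)⟯ := by
    have h2 := congrArg (IntermediateField.map (adjoin K {y₁, y₂}).val) hy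
    rw [IntermediateField.adjoin_map, Set.image_singleton] at h2
    have h3 : IntermediateField.map (adjoin K {y₁, y₂}).val ⊤ = adjoin K {y₁, y₂} := by
      rw [← AlgHom.fieldRange_eq_map, IntermediateField.fieldRange_val]
    rw [h3] at h2
    exact h2.symm
  have h4 : ∀ z ∈ adjoin K {y₁, y₂}, φ z = ψ z := by
    intro z hz
    rw [h1] at hz
    induction hz using IntermediateField.adjoin_induction with
    | mem x hx =>
      rw [Set.mem_singleton_iff] at hx
      rw [hx, hφ]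
    | algebraMap x => rw [φ.commutes, ψ.commutes]
    | add x y _ _ hx hy => rw [map_add, map_add, hx, hy]
    | inv x _ hx => rw [map_inv₀, map_inv₀, hx]
    | mul x y _ _ hx hy => rw [map_mul, map_mul, hx, hy]
  exact ⟨h4 y₁ (IntermediateField.subset_adjoin K _ (Set.mem_insert _ _)),
    h4 y₂ (IntermediateField.subset_adjoin K _ (Set.mem_insert_of_mem _ rfl))⟩

section
variable {p : ℕ} [Fact p.Prime] {K : Type} [Field K] [CharP K p] {v : AbsoluteValue K ℝ} {Q : ℕ}
  {ϖ : K} {R : Finset K}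

private theorem stb_neg (hLF : LF v p Q ϖ R) (h2 : S_Lc2) (x : Kvs v) : nm v (-x) = nm v x := by
  obtain ⟨-, -, hmul, -, hnorm, -⟩ := h2 p K v Q ϖ R hLF
  have h3 : -x = algebraMap v.Completion (Kvs v) (-1) * x := by
    rw [map_neg, map_one, neg_one_mul]
  rw [h3, hmul, hnorm, norm_neg, norm_one, one_mul]

private theorem stb_sum (hLF : LF v p Q ϖ R) (h2 : S_Lc2) {B : ℝ} (hB : 0 ≤ B)
    (s : Finset ℕ) (f : ℕ → Kvs v) (hf : ∀ i ∈ s, nm v (f i) ≤ B) : nm v (∑ i ∈ s, f i) ≤ B := by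
  obtain ⟨-, h0, -, hadd, -⟩ := h2 p K v Q ϖ R hLF
  induction s using Finset.induction_on with
  | empty =>
    rw [Finset.sum_empty, (h0 0).2 rfl]
    exact hB
  | insert a s ha ih =>
    rw [Finset.sum_insert ha]
    exact (hadd _ _).trans (max_le (hf a (Finset.mem_insert_self a s))
      (ih fun i hi => hf i (Finset.mem_insert_of_mem hi)))

/-- A root of a polynomial over the completion is mapped to a root. -/
private theorem stb_root (hLF : LF v p Q ϖ R) (h1 : S_Lc1) (h2 : S_Lc2) (ι : Kgs K →ₐ[K] Kvs v)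
    (σ : Gal(Kgs K/K)) (hσ : ∀ x, nm v (ι (σ x)) = nm v (ι x)) (y : Kgs K)
    (f : v.Completion[X]) (hf : aeval (ι y) f = 0) : aeval (ι (σ y)) f = 0 := by
  obtain ⟨hnn, h0, hmul, hadd, hnorm, -⟩ := h2 p K v Q ϖ R hLF
  obtain ⟨-, hden, -⟩ := h1 p K v Q ϖ R hLF
  have hsub : ∀ a b : Kvs v, nm v (a - b) ≤ max (nm v a) (nm v b) := by
    intro a b
    rw [sub_eq_add_neg, ← stb_neg hLF h2 b]
    exact hadd a (-b)
  obtain ⟨C, hC⟩ : ∃ C : ℝ, C = max 1 (nm v (ι y)) := ⟨_, rfl⟩
  have hC1 : 1 ≤ C := hC ▸ le_max_left _ _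
  have hCy : nm v (ι y) ≤ C := hC ▸ le_max_right _ _
  obtain ⟨d, hd⟩ : ∃ d : ℕ, d = f.natDegree := ⟨_, rfl⟩
  have hone : nm v 1 = 1 := by
    have := hnorm 1
    rwa [map_one, norm_one] at this
  have hpow : ∀ z : Kvs v, nm v z ≤ C → ∀ i ≤ d, nm v (z ^ i) ≤ C ^ d := by
    intro z hz i hi
    have h3 : ∀ j : ℕ, nm v (z ^ j) ≤ C ^ j := by
      intro j
      induction j with
      | zero => rw [pow_zero, pow_zero, hone]
      | succ j ih =>
        rw [pow_succ, pow_succ, hmul]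
        exact mul_le_mul ih hz (hnn z) (by positivity)
    exact (h3 i).trans (pow_le_pow_right₀ hC1 hi)
  have key : ∀ ε : ℝ, 0 < ε → nm v (aeval (ι (σ y)) f) ≤ ε * C ^ d := by
    intro ε hε
    have hCd : 0 ≤ ε * C ^ d := by positivity
    choose b hb using fun i : ℕ => hden (f.coeff i) ε hε
    obtain ⟨f₁, hf₁⟩ : ∃ f₁ : K[X], f₁ = ∑ i ∈ Finset.range (d + 1), Polynomial.C (b i) * X ^ i :=
      ⟨_, rfl⟩
    have hev : ∀ x : Kgs K, ι (aeval x f₁) = ∑ i ∈ Finset.range (d + 1),
        algebraMap v.Completion (Kvs v) (algebraMap K v.Completion (b i)) * (ι x) ^ i := by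
      intro x
      rw [hf₁, map_sum, map_sum]
      refine Finset.sum_congr rfl fun i _ => ?_
      rw [map_mul, map_pow, aeval_C, aeval_X, map_mul, map_pow, ι.commutes,
        ← IsScalarTower.algebraMap_apply]
    have hdiff : ∀ x : Kgs K, nm v (ι x) ≤ C →
        nm v (aeval (ι x) f - ι (aeval x f₁)) ≤ ε * C ^ d := by
      intro x hx
      rw [hev, aeval_eq_sum_range, ← hd, ← Finset.sum_sub_distrib]
      refine stb_sum hLF h2 hCd _ _ fun i hi => ?_
      rw [Algebra.smul_def, ← sub_mul, ← map_sub, hmul, hnorm]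
      exact mul_le_mul (hb i).le (hpow _ hx i (by simpa [Nat.lt_succ_iff] using hi)) (hnn _) hε.le
    have h3 : nm v (ι (aeval y f₁)) ≤ ε * C ^ d := by
      have h4 := hdiff y hCy
      rwa [hf, zero_sub, stb_neg hLF h2] at h4
    have h5 : nm v (ι (aeval (σ y) f₁)) ≤ ε * C ^ d := by
      have h6 : aeval (σ y) f₁ = σ (aeval y f₁) := by
        have := Polynomial.aeval_algHom_apply (σ : Kgs K →ₐ[K] Kgs K) y f₁
        exact this
      rw [h6, hσ]
      exact h3
    have h7 := hdiff (σ y) ((hσ y).le.trans hCy)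
    have h8 : aeval (ι (σ y)) f =
        (aeval (ι (σ y)) f - ι (aeval (σ y) f₁)) + ι (aeval (σ y) f₁) := by ring
    rw [h8]
    exact (hadd _ _).trans (max_le h7 h5)
  refine (h0 _).1 (le_antisymm ?_ (hnn _))
  have hCd : 0 < C ^ d := by positivity
  by_contra hcon
  rw [not_le] at hcon
  have h9 := key (nm v (aeval (ι (σ y)) f) / 2 / C ^ d) (by positivity)
  rw [div_mul_cancel₀ _ hCd.ne'] at h9
  linarith

end

theorem tStb (h1 : S_Lc1) (h2 : S_Lc2) (h3 : S_Res) : S_Stb := by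
  intro p _ K _ _ v Q ϖ R hLF ι σ
  obtain ⟨-, hres2, hres3, -⟩ := h3 p K (Kgs K) v.Completion (Kvs v) ι
  constructor
  · rintro ⟨g, rfl⟩ x
    rw [← hres2 g x]
    exact (h2 p K v Q ϖ R hLF).2.2.2.2.2.1 g (ι x)
  · intro hσ
    have hne : ∀ y : Kgs K, {g : Gal(Kvs v/v.Completion) | g (ι y) = ι (σ y)}.Nonempty := by
      intro y
      have h4 := stb_root hLF h1 h2 ι σ hσ y (minpoly v.Completion (ι y))
        (minpoly.aeval v.Completion (ι y))
      obtain ⟨g, hg⟩ := minpoly.exists_algEquiv_of_root' (K := v.Completion) (L := Kvs v)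
        (Algebra.IsAlgebraic.isAlgebraic (ι y)) h4
      exact ⟨g, hg⟩
    have hcl : ∀ y : Kgs K, IsClosed {g : Gal(Kvs v/v.Completion) | g (ι y) = ι (σ y)} :=
      fun y => stb_closed _ _
    have hall : (⋂ y : Kgs K, {g : Gal(Kvs v/v.Completion) | g (ι y) = ι (σ y)}).Nonempty := by
      refine IsCompact.nonempty_iInter_of_directed_nonempty_isCompact_isClosed _ ?_ hne
        (fun y => (hcl y).isCompact) hcl
      intro y₁ y₂
      obtain ⟨y, hy⟩ := stb_prim (K := K) (L := Kvs v) y₁ y₂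
      have h5 : ∀ g : Gal(Kvs v/v.Completion), g (ι y) = ι (σ y) →
          g (ι y₁) = ι (σ y₁) ∧ g (ι y₂) = ι (σ y₂) := by
        intro g hg
        exact hy ((((g : Kvs v →ₐ[v.Completion] Kvs v).restrictScalars K).comp ι))
          (ι.comp (σ : Kgs K →ₐ[K] Kgs K)) hg
      exact ⟨y, fun g hg => (h5 g hg).1, fun g hg => (h5 g hg).2⟩
    obtain ⟨g, hg⟩ := hall
    refine ⟨g, (hres3 g σ fun x => ?_).symm⟩
    exact Set.mem_iInter.1 hg x

end Pool.Agent.MP72G
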