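import Pool.Agent.Lib.MP_72e2e6_nt.P4.T.Spec

/-!
# MP_72e2e6_nt, theorem T4, T/Tow: Galois extensions of `p`-power degree and towers of Artin-Schreier
extensions
-/

set_option autoImplicit false

namespace Pool.Agent.MP72G

open Finset Pool.Agent.MP72P IntermediateField

/-- An automorphism of order `p` in characteristic `p` has an element `θ` with `σ θ = θ + 1`. -/
private theorem tow_as {p : ℕ} [hp : Fact p.Prime] {K M : Type} [Field K] [Field M] [Algebra K M]
    [CharP M p] (σ : Gal(M/K)) (hσ : orderOf σ = p) : ∃ θ : M, σ θ = θ + 1 := by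
  have hp0 : 0 < p := hp.out.pos
  have hex : ∃ b : M, ∑ i ∈ range p, (σ ^ i) b ≠ 0 := by
    by_contra hcon
    push Not at hcon
    let f : Fin p → (M →* M) := fun i => (((σ ^ (i : ℕ) : Gal(M/K)) : M →ₐ[K] M) : M →* M)
    have hf : Function.Injective f := by
      intro i j hij
      have h1 : (σ ^ (i : ℕ) : Gal(M/K)) = σ ^ (j : ℕ) := by
        ext x
        exact DFunLike.congr_fun hij x
      have h2 := pow_inj_mod.1 h1
      rw [hσ, Nat.mod_eq_of_lt i.2, Nat.mod_eq_of_lt j.2] at h2
      exact Fin.ext h2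
    have h3 := (linearIndependent_monoidHom M M).comp f hf
    rw [Fintype.linearIndependent_iff] at h3
    have h4 := h3 (fun _ => 1) (by
      funext x
      simp only [Function.comp, one_smul, Finset.sum_apply, Pi.zero_apply]
      rw [← hcon x, Finset.sum_range]
      rfl) ⟨0, hp0⟩
    exact one_ne_zero h4
  obtain ⟨b₀, hb₀⟩ := hex
  obtain ⟨t, ht⟩ : ∃ t, t = ∑ i ∈ range p, (σ ^ i) b₀ := ⟨_, rfl⟩
  rw [← ht] at hb₀
  have hσp : σ ^ p = 1 := by rw [← hσ]; exact pow_orderOf_eq_one σ
  have hstep : ∀ (x : M) (i : ℕ), σ ((σ ^ i) x) = (σ ^ (i + 1)) x := by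
    intro x i
    rw [pow_succ', AlgEquiv.mul_apply]
  -- the trace is fixed
  have htr : ∀ x : M, ∑ i ∈ range p, (σ ^ (i + 1)) x = ∑ i ∈ range p, (σ ^ i) x := by
    intro x
    have h1 := Finset.sum_range_succ' (fun i => (σ ^ i) x) p
    have h2 := Finset.sum_range_succ (fun i => (σ ^ i) x) p
    rw [h2, hσp, pow_zero] at h1
    exact (add_right_cancel h1).symm
  have hσt : σ t = t := by
    rw [ht, map_sum]
    simp only [hstep]
    exact htr b₀
  have hpt : ∀ i : ℕ, (σ ^ i) t = t := by
    intro i
    induction i with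
    | zero => rfl
    | succ i ih => rw [← hstep, ih, hσt]
  obtain ⟨b, hb⟩ : ∃ b, b = b₀ / t := ⟨_, rfl⟩
  have hb1 : ∑ i ∈ range p, (σ ^ i) b = 1 := by
    have h1 : ∀ i, (σ ^ i) b = (σ ^ i) b₀ / t := by
      intro i
      rw [hb, map_div₀, hpt]
    simp only [h1]
    rw [← Finset.sum_div, ← ht, div_self hb₀]
  refine ⟨-∑ i ∈ range p, (i : M) * (σ ^ i) b, ?_⟩
  have h1 : σ (∑ i ∈ range p, (i : M) * (σ ^ i) b) = ∑ i ∈ range p, (i : M) * (σ ^ (i + 1)) b := by
    rw [map_sum]
    refine Finset.sum_congr rfl fun i _ => ?_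
    rw [map_mul, map_natCast, hstep]
  have h2 : ∑ i ∈ range p, ((i + 1 : ℕ) : M) * (σ ^ (i + 1)) b =
      ∑ i ∈ range p, (i : M) * (σ ^ i) b := by
    have h3 := Finset.sum_range_succ' (fun i => (i : M) * (σ ^ i) b) p
    have h4 := Finset.sum_range_succ (fun i => (i : M) * (σ ^ i) b) p
    rw [h4] at h3
    rw [CharP.cast_eq_zero M p, zero_mul, add_zero, Nat.cast_zero, zero_mul, add_zero] at h3
    exact h3.symm
  have h5 : ∑ i ∈ range p, ((i + 1 : ℕ) : M) * (σ ^ (i + 1)) b =
      ∑ i ∈ range p, (i : M) * (σ ^ (i + 1)) b + 1 := by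
    rw [← hb1, ← htr b, ← Finset.sum_add_distrib]
    refine Finset.sum_congr rfl fun i _ => ?_
    push_cast
    ring
  rw [map_neg, h1]
  rw [h2] at h5
  rw [h5]
  ring

/-- Galois extensions of `p`-power degree are contained in towers of Artin-Schreier extensions. -/
theorem tTow : S_Tow := by
  classical
  intro p hp K L _ _ _ _ n
  induction n with
  | zero =>
    intro M _ _ hM
    refine ⟨Fin.elim0, fun i => i.elim0, ?_⟩
    rw [pow_zero] at hM
    rw [IntermediateField.finrank_eq_one_iff.1 hM]
    exact bot_le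
  | succ n ih =>
    intro M hG hF hM
    have hchM : CharP M p := charP_of_injective_algebraMap (algebraMap K M).injective p
    have hcard : Nat.card Gal(M/K) = p ^ (n + 1) := by
      rw [IsGalois.card_aut_eq_finrank, hM]
    have hpg : IsPGroup p Gal(M/K) := IsPGroup.of_card hcard
    have hnt : Nontrivial Gal(M/K) := by
      rw [← Finite.one_lt_card_iff_nontrivial, hcard]
      exact Nat.one_lt_pow (by omega) hp.out.one_lt
    have hcn : Nontrivial (Subgroup.center Gal(M/K)) := hpg.center_nontrivial
    -- an element of order `p` in the center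
    have hz : ∃ σ : Gal(M/K), σ ∈ Subgroup.center Gal(M/K) ∧ orderOf σ = p := by
      have h1 : IsPGroup p (Subgroup.center Gal(M/K)) := hpg.to_subgroup _
      obtain ⟨m, hm⟩ := IsPGroup.iff_card.1 h1
      have h2 : p ∣ Nat.card (Subgroup.center Gal(M/K)) := by
        have h3 : 1 < Nat.card (Subgroup.center Gal(M/K)) := Finite.one_lt_card
        rw [hm] at h3 ⊢
        refine dvd_pow_self p ?_
        rintro rfl
        simp at h3
      obtain ⟨z, hz⟩ := exists_prime_orderOf_dvd_card' p h2
      exact ⟨z, z.2, by rw [← hz]; exact Subgroup.orderOf_coe z⟩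
    obtain ⟨σ, hσc, hσ⟩ := hz
    have hnorm : (Subgroup.zpowers σ).Normal := by
      refine ⟨fun g hg h => ?_⟩
      have h1 : g ∈ Subgroup.center Gal(M/K) := by
        rw [Subgroup.mem_zpowers_iff] at hg
        obtain ⟨k, rfl⟩ := hg
        exact Subgroup.zpow_mem _ hσc k
      have h2 : h * g * h⁻¹ = g := by
        rw [Subgroup.mem_center_iff.1 h1 h, mul_inv_cancel_right]
      rw [h2]
      exact hg
    -- the fixed field
    obtain ⟨N, hN⟩ : ∃ N : IntermediateField K M, N = fixedField (Subgroup.zpowers σ) := ⟨_, rfl⟩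
    have hNG : IsGalois K N := by
      rw [hN]
      infer_instance
    have hNf : Module.finrank K N = p ^ n := by
      have h1 := finrank_fixedField_eq_card (F := K) (E := M) (Subgroup.zpowers σ)
      rw [← hN, Nat.card_zpowers, hσ] at h1
      have h2 := Module.finrank_mul_finrank K N M
      rw [h1, hM, pow_succ] at h2
      exact Nat.eq_of_mul_eq_mul_right hp.out.pos h2
    have hLG : IsGalois K (lift N) := IsGalois.of_algEquiv (liftAlgEquiv N)
    have hLF : FiniteDimensional K (lift N) :=
      LinearEquiv.finiteDimensional (liftAlgEquiv N).toLinearEquiv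
    have hLf : Module.finrank K (lift N) = p ^ n := by
      rw [← hNf]
      exact (LinearEquiv.finrank_eq (liftAlgEquiv N).toLinearEquiv).symm
    obtain ⟨θ', hθ', hle⟩ := ih (lift N) hLG hLF hLf
    obtain ⟨τ, hτ⟩ := tow_as σ hσ
    -- `τ ^ p - τ` is in the fixed field
    have hτN : τ ^ p - τ ∈ N := by
      rw [hN, mem_fixedField_iff]
      have h1 : Subgroup.zpowers σ ≤ MulAction.stabilizer Gal(M/K) (τ ^ p - τ) := by
        rw [Subgroup.zpowers_le, MulAction.mem_stabilizer_iff]
        change σ (τ ^ p - τ) = τ ^ p - τ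
        rw [map_sub, map_pow, hτ, add_pow_char, one_pow]
        ring
      intro g hg
      exact h1 hg
    have hτL : (τ : L) ^ p - τ ∈ lift N := by
      have h1 : ((τ ^ p - τ : M) : L) = (τ : L) ^ p - τ := by
        push_cast
        rfl
      rw [← h1, mem_lift]
      exact hτN
    refine ⟨Fin.snoc θ' (τ : L), ?_, ?_⟩
    · intro i
      refine Fin.lastCases ?_ (fun i => ?_) i
      · rw [Fin.snoc_last]
        refine (hle.trans (adjoin.mono K _ _ ?_)) hτL
        rintro _ ⟨k, rfl⟩
        exact ⟨Fin.castSucc k, Fin.castSucc_lt_last k, by rw [Fin.snoc_castSucc]⟩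
      · rw [Fin.snoc_castSucc]
        refine adjoin.mono K _ _ ?_ (hθ' i)
        rintro _ ⟨k, hk, rfl⟩
        exact ⟨Fin.castSucc k, Fin.castSucc_lt_castSucc_iff.2 hk, by rw [Fin.snoc_castSucc]⟩
    · obtain ⟨E, hE⟩ : ∃ E, E = adjoin K (Set.range (Fin.snoc θ' (τ : L) : Fin (n + 1) → L)) :=
        ⟨_, rfl⟩
      rw [← hE]
      have hNE : lift N ≤ E := by
        rw [hE]
        refine hle.trans (adjoin.mono K _ _ ?_)
        rintro _ ⟨k, rfl⟩
        exact ⟨Fin.castSucc k, by rw [Fin.snoc_castSucc]⟩
      have hτE : (τ : L) ∈ E := by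
        rw [hE]
        refine subset_adjoin K _ ⟨Fin.last n, ?_⟩
        rw [Fin.snoc_last]
      -- the part of `E` in `M`
      obtain ⟨F, hF'⟩ : ∃ F : IntermediateField K M, F = E.comap M.val := ⟨_, rfl⟩
      have hmemF : ∀ x : M, x ∈ F ↔ (x : L) ∈ E := by
        intro x
        rw [hF']
        rfl
      have hNF : N ≤ F := by
        intro x hx
        rw [hmemF]
        exact hNE (mem_lift x |>.2 hx)
      have hfix : fixingSubgroup F = ⊥ := by
        rw [eq_bot_iff]
        intro g hg
        have h1 : g ∈ Subgroup.zpowers σ := by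
          have h2 := fixingSubgroup_le hNF hg
          rw [hN, fixingSubgroup_fixedField] at h2
          exact h2
        have h3 : g τ = τ := (mem_fixingSubgroup_iff F g).1 hg τ ((hmemF τ).2 hτE)
        rw [mem_zpowers_iff_mem_range_orderOf, Finset.mem_image] at h1
        obtain ⟨k, hk, rfl⟩ := h1
        rw [Finset.mem_range, hσ] at hk
        have h4 : ∀ i : ℕ, (σ ^ i) τ = τ + i := by
          intro i
          induction i with
          | zero => simp
          | succ i ihh =>
            rw [pow_succ', AlgEquiv.mul_apply, ihh, map_add, map_natCast, hτ]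
            push_cast
            ring
        rw [h4] at h3
        have h5 : (k : M) = 0 := by
          have := add_left_cancel (a := τ) (b := (k : M)) (c := 0) (by rw [h3, add_zero])
          exact this
        rw [CharP.cast_eq_zero_iff M p] at h5
        have h6 : k = 0 := Nat.eq_zero_of_dvd_of_lt h5 hk
        rw [h6, pow_zero]
        exact Subgroup.mem_bot.2 rfl
      have hFtop : F = ⊤ := by
        rw [← IsGalois.fixedField_fixingSubgroup F, hfix, fixedField_bot]
      intro x hx
      have h1 : (⟨x, hx⟩ : M) ∈ F := by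
        rw [hFtop]
        exact mem_top
      exact (hmemF _).1 h1

end Pool.Agent.MP72G
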