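import Pool.Agent.Lib.MP_72e2e6_nt.P4.T.Spec

/-!
# MP_72e2e6_nt, theorem T4, part T: the transport of points
-/

set_option autoImplicit false

namespace Pool.Agent.MP72G

open Pool.Agent.MP72P
open WeierstrassCurve
open Pool.Agent.MP72W (pmap)
open Pool.Agent.MP72V

private theorem trm_ex {K F : Type} [Field K] [Field F] [Algebra K F] (X : WeierstrassCurve K)
    {L : Type} [Field L] [Algebra K L] [DecidableEq F] [DecidableEq L] (f : F →ₐ[K] L) (Z : WeierstrassCurve L)
    (hZ : X⁄L = Z) : ∃ tr : (X⁄F).toAffine.Point →+ Z.toAffine.Point,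
      Function.Injective tr ∧ ∀ P x y, XY P x y → XY (tr P) (f x) (f y) := by
  subst hZ
  refine ⟨Affine.Point.map f, Affine.Point.map_injective (f := f), ?_⟩
  intro P x y h
  obtain ⟨a, rfl⟩ := h
  exact ⟨((X.toAffine).baseChange_nonsingular f.injective ..).mpr a, rfl⟩

open scoped Classical

private theorem trm_uniq {L : Type} [Field L] {W : WeierstrassCurve.Affine L} {P Q : W.Point}
    {x y : L} (h1 : XY P x y) (h2 : XY Q x y) : P = Q := by
  obtain ⟨a, rfl⟩ := h1
  obtain ⟨b, rfl⟩ := h2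
  rfl

private theorem trm_pm {K : Type} [Field K] (W : WeierstrassCurve K) {L : Type} [Field L]
    [Algebra K L] (f : L →ₐ[K] L) (P : (W⁄L).toAffine.Point) (x y : L) (h : XY P x y) :
    XY (pmap W f P) (f x) (f y) := by
  obtain ⟨a, rfl⟩ := h
  exact ⟨((W.toAffine).baseChange_nonsingular f.injective ..).mpr a, rfl⟩

theorem tTrM : S_TrM := by
  intro K M _ _ _ j hj X
  obtain ⟨f, hf⟩ : ∃ f : Kgs K →ₐ[K] Kgs M, ∀ x, f x = j x :=
    ⟨{ (j : Kgs K →+* Kgs M) with
        commutes' := fun x => (hj x).trans (IsScalarTower.algebraMap_apply K M (Kgs M) x).symm },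
      fun _ => rfl⟩
  have hZ : X⁄(Kgs M) = (X.map (algebraMap K M))⁄(Kgs M) := by
    have e := WeierstrassCurve.map_map X (algebraMap K M) (algebraMap M (Kgs M))
    rw [← IsScalarTower.algebraMap_eq] at e
    exact e.symm
  obtain ⟨tr, hinj, hcrd⟩ := trm_ex X f _ hZ
  refine ⟨tr, hinj, fun P x y h => ?_, ?_⟩
  · rw [← hf, ← hf]
    exact hcrd P x y h
  · intro σ σ' hσ P
    rcases P with _ | ⟨x, y, h⟩
    · have e : (Affine.Point.zero : (X⁄(Kgs K)).toAffine.Point) = 0 := rfl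
      rw [e, map_zero, map_zero, map_zero, map_zero]
    · have h1 : XY (W := (X⁄(Kgs K)).toAffine) (Affine.Point.some x y h) x y := ⟨h, rfl⟩
      have h2 := hcrd _ _ _ h1
      have h3 := trm_pm (X.map (algebraMap K M)) (σ' : Kgs M →ₐ[M] Kgs M) _ _ _ h2
      have h4 := hcrd _ _ _ (trm_pm X (σ : Kgs K →ₐ[K] Kgs K) _ _ _ h1)
      refine trm_uniq h3 ?_
      have e1 : (σ' : Kgs M →ₐ[M] Kgs M) (f x) = f ((σ : Kgs K →ₐ[K] Kgs K) x) := by
        rw [hf, hf]
        exact (hσ x).symm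
      have e2 : (σ' : Kgs M →ₐ[M] Kgs M) (f y) = f ((σ : Kgs K →ₐ[K] Kgs K) y) := by
        rw [hf, hf]
        exact (hσ y).symm
      rw [e1, e2]
      exact h4

end Pool.Agent.MP72G
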