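import Pool.Agent.Lib.MP_72e2e6_nt.P4.T.Spec

/-! # MP_72e2e6_nt, theorem T4, part T: conjugate absolute values -/

namespace Pool.Agent.MP72G

open Finset Pool.Agent.MP72P IntermediateField

open scoped Classical

/-- Equivalent absolute values with the same nontrivial restriction are equal. -/
private theorem trnEq {K E : Type} [Field K] [Field E] [Algebra K E] {v : AbsoluteValue K ℝ}
    (hv : v.IsNontrivial) {w w' : AbsoluteValue E ℝ} (h : rsa K w = v) (h' : rsa K w' = v)
    (he : w.IsEquiv w') : w = w' := by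
  obtain ⟨c, -, hcw⟩ := AbsoluteValue.isEquiv_iff_exists_rpow_eq.1 he
  obtain ⟨x, hx⟩ := hv.exists_abv_gt_one
  have e1 : w (algebraMap K E x) = v x := by rw [← h]; rfl
  have e2 : w' (algebraMap K E x) = v x := by rw [← h']; rfl
  have e3 : (w (algebraMap K E x)) ^ c = w' (algebraMap K E x) := congrFun hcw _
  rw [e1, e2] at e3
  have hl : 0 < Real.log (v x) := Real.log_pos hx
  have e4 := congrArg Real.log e3
  rw [Real.log_rpow (by linarith)] at e4
  have hc : c = 1 := by
    have : (c - 1) * Real.log (v x) = 0 := by linarith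
    rcases mul_eq_zero.1 this with h | h
    · linarith
    · exact absurd h hl.ne'
  ext y
  have e5 : (w y) ^ c = w' y := congrFun hcw y
  rw [hc, Real.rpow_one] at e5
  exact e5

/-- The absolute value `w ∘ τ`. -/
private def trnCm {K E : Type} [Field K] [Field E] [Algebra K E] (w : AbsoluteValue E ℝ)
    (τ : Gal(E/K)) : AbsoluteValue E ℝ := w.comp (f := (τ : E →+* E)) τ.injective

private theorem trnCm_apply {K E : Type} [Field K] [Field E] [Algebra K E]
    (w : AbsoluteValue E ℝ) (τ : Gal(E/K)) (x : E) : trnCm w τ x = w (τ x) := rfl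

private theorem trnCm_rsa {K E : Type} [Field K] [Field E] [Algebra K E] {v : AbsoluteValue K ℝ}
    {w : AbsoluteValue E ℝ} (h : rsa K w = v) (τ : Gal(E/K)) : rsa K (trnCm w τ) = v := by
  ext x
  change w (τ (algebraMap K E x)) = v x
  rw [AlgEquiv.commutes, ← h]
  rfl

/-- The finite level. -/
private theorem trnFin (h1 : S_Na) (p : ℕ) [Fact p.Prime] {K E : Type} [Field K] [Field E]
    [Algebra K E] [CharP K p] [FiniteDimensional K E] [IsGalois K E] {v : AbsoluteValue K ℝ}
    (hv : v.IsNontrivial) {w₁ w₂ : AbsoluteValue E ℝ} (hw₁ : rsa K w₁ = v) (hw₂ : rsa K w₂ = v) :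
    ∃ τ : Gal(E/K), ∀ x, w₂ x = w₁ (τ x) := by
  by_contra hcon
  push Not at hcon
  have hcp : CharP E p := charP_of_injective_algebraMap (algebraMap K E).injective p
  let S : Set (AbsoluteValue E ℝ) :=
    Set.range (trnCm (K := K) w₁) ∪ Set.range (trnCm (K := K) w₂)
  have hSfin : Finite S := ((Set.finite_range _).union (Set.finite_range _)).to_subtype
  have hSr : ∀ u ∈ S, rsa K u = v := by
    rintro u (⟨τ, rfl⟩ | ⟨τ, rfl⟩)
    · exact trnCm_rsa hw₁ τ
    · exact trnCm_rsa hw₂ τ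
  have hnt : ∀ u : S, (u : AbsoluteValue E ℝ).IsNontrivial := by
    intro u
    obtain ⟨x, hx0, hx⟩ := hv
    refine ⟨algebraMap K E x, fun h => hx0 ((map_eq_zero _).1 h), ?_⟩
    have : (u : AbsoluteValue E ℝ) (algebraMap K E x) = v x := by rw [← hSr u u.2]; rfl
    rw [this]
    exact hx
  have hne : Pairwise fun (a b : S) => ¬ (a : AbsoluteValue E ℝ).IsEquiv b := by
    intro a b hab he
    exact hab (Subtype.ext (trnEq hv (hSr a a.2) (hSr b b.2) he))
  have hd := AbsoluteValue.denseRange_algebraMap_pi hnt hne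
  obtain ⟨a, ha⟩ := Metric.denseRange_iff.1 hd
    (fun u => WithAbs.toAbs (u : AbsoluteValue E ℝ)
      (if (u : AbsoluteValue E ℝ) ∈ Set.range (trnCm (K := K) w₁) then 0 else 1)) 1 one_pos
  have hco : ∀ u : S, (u : AbsoluteValue E ℝ) (a - if (u : AbsoluteValue E ℝ) ∈
      Set.range (trnCm (K := K) w₁) then 0 else 1) < 1 := by
    intro u
    have h3 := (dist_pi_lt_iff one_pos).1 ha u
    rw [dist_comm, dist_eq_norm] at h3
    exact h3
  have ha1 : ∀ τ : Gal(E/K), w₁ (τ a) < 1 := by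
    intro τ
    have h3 := hco ⟨trnCm w₁ τ, Or.inl ⟨τ, rfl⟩⟩
    rw [if_pos (by exact ⟨τ, rfl⟩), sub_zero] at h3
    exact h3
  have ha2 : ∀ τ : Gal(E/K), w₂ (τ a) = 1 := by
    intro τ
    have hnot : trnCm w₂ τ ∉ Set.range (trnCm (K := K) w₁) := by
      rintro ⟨σ, hσ⟩
      obtain ⟨x, hx⟩ := hcon (σ * τ⁻¹)
      apply hx
      have h5 : w₁ (σ (τ⁻¹ x)) = w₂ (τ (τ⁻¹ x)) := DFunLike.congr_fun hσ (τ⁻¹ x)
      have h6 : τ (τ⁻¹ x) = x := AlgEquiv.apply_symm_apply τ x
      rw [h6] at h5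
      exact h5.symm
    have h3 := hco ⟨trnCm w₂ τ, Or.inr ⟨τ, rfl⟩⟩
    rw [if_neg (by exact hnot)] at h3
    have h4 : w₂ (τ (a - 1)) < 1 := h3
    rw [map_sub, map_one] at h4
    have h2 : w₂ (τ a) = w₂ ((τ a - 1) + 1) := by rw [sub_add_cancel]
    rw [h2, (h1 p E w₂).add_eq_right_of_lt (by rw [map_one]; exact h4), map_one]
  have hn := Algebra.norm_eq_prod_automorphisms K a
  have hv1 : v (Algebra.norm K a) < 1 := by
    have e : v (Algebra.norm K a) = w₁ (algebraMap K E (Algebra.norm K a)) := by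
      rw [← hw₁]; rfl
    rw [e, hn, map_prod]
    rw [← Finset.mul_prod_erase _ _ (Finset.mem_univ (1 : Gal(E/K)))]
    calc _ ≤ w₁ ((1 : Gal(E/K)) a) * 1 := by
            refine mul_le_mul_of_nonneg_left ?_ (w₁.nonneg _)
            exact Finset.prod_le_one (fun i _ => w₁.nonneg _) fun i _ => (ha1 i).le
      _ < 1 := by rw [mul_one]; exact ha1 1
  have hv2 : v (Algebra.norm K a) = 1 := by
    have e : v (Algebra.norm K a) = w₂ (algebraMap K E (Algebra.norm K a)) := by
      rw [← hw₂]; rfl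
    rw [e, hn, map_prod]
    exact Finset.prod_eq_one fun i _ => ha2 i
  exact absurd hv2 hv1.ne

theorem tTrn (h1 : S_Na) : S_Trn := by
  intro p _ K _ _ v hv u₁ u₂ h₁ h₂
  let C : FiniteGaloisIntermediateField K (Kgs K) → Set Gal(Kgs K/K) :=
    fun E => {σ | ∀ x ∈ E.toIntermediateField, u₂ x = u₁ (σ x)}
  have hdir : Directed (· ⊇ ·) C := by
    intro E F
    refine ⟨E ⊔ F, ?_, ?_⟩
    · intro σ hσ x hx
      exact hσ x ((FiniteGaloisIntermediateField.le_iff _ _).1 (le_sup_left : E ≤ E ⊔ F) hx)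
    · intro σ hσ x hx
      exact hσ x ((FiniteGaloisIntermediateField.le_iff _ _).1 (le_sup_right : F ≤ E ⊔ F) hx)
  have hnon : ∀ E, (C E).Nonempty := by
    intro E
    let w₁ : AbsoluteValue E.toIntermediateField ℝ := rsa _ u₁
    let w₂ : AbsoluteValue E.toIntermediateField ℝ := rsa _ u₂
    have e₁ : rsa K w₁ = v := by rw [← h₁]; rfl
    have e₂ : rsa K w₂ = v := by rw [← h₂]; rfl
    obtain ⟨τ, hτ⟩ := trnFin h1 p hv e₁ e₂
    refine ⟨τ.liftNormal (Kgs K), fun x hx => ?_⟩
    have h3 := hτ ⟨x, hx⟩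
    have h4 := AlgEquiv.liftNormal_commutes τ (Kgs K) ⟨x, hx⟩
    have h5 : (τ.liftNormal (Kgs K)) x = (τ ⟨x, hx⟩ : E.toIntermediateField) := h4
    rw [h5]
    exact h3
  have hcl : ∀ E, IsClosed (C E) := by
    intro E
    have : C E = ⋂ x ∈ E.toIntermediateField, {σ | u₂ x = u₁ (σ x)} := by
      ext σ
      simp only [C, Set.mem_ofPred_eq, Set.mem_iInter]
    rw [this]
    refine isClosed_iInter fun x => isClosed_iInter fun _ => ?_
    rw [← isOpen_compl_iff, isOpen_iff_mem_nhds]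
    intro σ hσ
    have ho : IsOpen ((fun g => σ * g) '' (MulAction.stabilizer Gal(Kgs K/K) x : Set _)) := by
      exact (stabilizer_isOpen_of_isIntegral x).leftCoset σ
    refine Filter.mem_of_superset (ho.mem_nhds ⟨1, one_mem _, mul_one σ⟩) ?_
    rintro _ ⟨g, hg, rfl⟩ h
    apply hσ
    have hg' : g x = x := hg
    change u₂ x = u₁ ((σ * g) x) at h
    rw [AlgEquiv.mul_apply, hg'] at h
    exact h
  obtain ⟨σ, hσ⟩ := IsCompact.nonempty_iInter_of_directed_nonempty_isCompact_isClosed C hdir hnon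
    (fun E => (hcl E).isCompact) hcl
  refine ⟨σ, fun x => ?_⟩
  exact Set.mem_iInter.1 hσ (FiniteGaloisIntermediateField.adjoin K {x}) x
    (FiniteGaloisIntermediateField.subset_adjoin K {x} rfl)

end Pool.Agent.MP72G
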