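import Pool.Agent.Lib.MP_72e2e6_nt.P4.T.Defs

/-!
# MP_72e2e6_nt, theorem T4, part T (from `K` to the Galois extension `M`)

The proofs are complete in the docstrings; every module is independent (used statements are
hypotheses): file `P4/T/<Name>.lean` (import this file only) with `theorem t<Name> : S_<Name>` or
`theorem t<Name> (h1 : S_X) (h2 : S_Y) .. : S_<Name>` (in the order of the docstring), namespace
`Pool.Agent.MP72G` (`open Pool.Agent.MP72P`, `open Pool.Agent.MP72V`), other declarations `private`,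
`open scoped Classical`. All types are in `Type`. Statements of `P3` (namespace `Pool.Agent.MP72P`) may be used: they are in
`P3/B/Spec.lean` (`S_Has`, `S_Twb`, `S_Res`), `P3/C/Spec.lean` (`S_Lc1`, `S_Lc2`), `P3/N/Spec.lean` (`S_Na`, `S_Ntr`, `S_Exn`, `S_Abv`,
`S_Dsc`, `S_Alm`, `S_Itg`), `P3/G/Spec.lean` (`S_Hst`, `S_Rgo`, `S_Dep`), `WP/El/Spec.lean` (`MP72V.S_Bas`, `S_Or`, `S_It`) and
`P3/E2/Spec.lean` (`S_BasT`, `S_ItT`).

`M/K` is a finite separable (or Galois) extension, `j : Kgs K ≃+* Kgs M` is compatible with `K → M` (`Jok`). We write `m` also for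
the element `algebraMap M (Kgs M) m`. `℘(y) = y ^ p - y`. Corresponding automorphisms `σ`, `σ'` of `Kgs K` and `Kgs M`
satisfy `σ' = j σ j⁻¹` (`Jrl`). An absolute value of `Kgs K` is over `v` if its restriction to `K` is `v`.
-/

namespace Pool.Agent.MP72G

open Finset Pool.Agent.MP72P IntermediateField
open WeierstrassCurve
open Pool.Agent.MP72W (pmap)
open Pool.Agent.MP72V

open scoped Classical

/-! ### 1. The field `M` and its places -/

/-- **GfM** (60 lines). Finite separable extensions of global function fields.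

Proof. `M` is an algebra over `RatFunc F` via `K`; `FiniteDimensional.trans`, `Algebra.IsSeparable.trans`. -/
def S_GfM : Prop :=
  ∀ (p : ℕ) [Fact p.Prime] (K M : Type) [Field K] [Field M] [Algebra K M] [FiniteDimensional K M]
    [Algebra.IsSeparable K M], GFld p K → GFld p M

/-- **Jex** (80 lines). The isomorphism `j` exists.

Proof. `Kgs M` is an algebra over `K` (via `M`), separable over `K` (transitivity) and separably closed, so it is a separable
closure of `K`; `IsSepClosure.equiv`. -/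
def S_Jex : Prop :=
  ∀ (K M : Type) [Field K] [Field M] [Algebra K M] [FiniteDimensional K M]
    [Algebra.IsSeparable K M], ∃ j : Kgs K ≃+* Kgs M, Jok j

/-- **Jgl** (120 lines, uses `S_Has`). The Galois groups.

Proof. (1) `σ = j⁻¹ σ' j` fixes `K` as `j` maps `K` to `K ⊆ M`. (2) `j σ j⁻¹` fixes `M`. (3) clear. (4) clear. (5) `σ α = op c * α` and
`σ' (j α) = j (σ α) = op c * j α`; uniqueness of `c` (`op` is injective, `j α ≠ 0`; `S_Has` (1) for `Kgs K / K` and `Kgs M / M`, the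
element `j α` satisfies `(j α) ^ (p - 1) = h`). -/
def S_Jgl : Prop :=
  ∀ (p : ℕ) [Fact p.Prime] (K M : Type) [Field K] [Field M] [Algebra K M] [CharP K p]
    (j : Kgs K ≃+* Kgs M), Jok j →
    (∀ σ' : Gal(Kgs M/M), ∃ σ : Gal(Kgs K/K), Jrl j σ σ') ∧
    (∀ σ : Gal(Kgs K/K), (∀ m : M, σ (j.symm (algebraMap M (Kgs M) m)) =
      j.symm (algebraMap M (Kgs M) m)) → ∃ σ' : Gal(Kgs M/M), Jrl j σ σ') ∧
    (∀ (σ τ : Gal(Kgs K/K)) (σ' : Gal(Kgs M/M)), Jrl j σ σ' → Jrl j τ σ' → σ = τ) ∧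
    (∀ (σ τ : Gal(Kgs K/K)) (σ' τ' : Gal(Kgs M/M)), Jrl j σ σ' → Jrl j τ τ' →
      Jrl j (σ * τ) (σ' * τ') ∧ Jrl j σ⁻¹ σ'⁻¹) ∧
    ∀ (α : Kgs K) (h : K), α ≠ 0 → α ^ (p - 1) = algebraMap K (Kgs K) h →
      ∀ (σ : Gal(Kgs K/K)) (σ' : Gal(Kgs M/M)), Jrl j σ σ' → omc p (j α) σ' = omc p α σ

/-- **Plm** (150 lines, uses `S_Na`, `S_Abv`). The places of `M` above the places `av`.

Proof. Let `w : Fin m → AbsoluteValue M ℝ` be as in `S_Abv` for the family `av`, and `κ l` the (unique) index with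
`rsa K (w l)` equivalent to `av (κ l)`. There is a real `c_l > 0` with `(w l x) ^ c_l = av (κ l) x` for all `x ∈ K`
(`AbsoluteValue.isEquiv_iff_exists_rpow_eq`). `av' l x = (w l x) ^ c_l` is an absolute value of `M` (nonarchimedean as `w l` is, `S_Na`; the
powers `x ↦ x ^ c` are monotone and multiplicative on `x ≥ 0`), equivalent to `w l`, and its restriction is `av (κ l)`. `Pls` and
`cpl` are invariant under equivalence. -/
def S_Plm : Prop :=
  ∀ (p : ℕ) [Fact p.Prime] (K M : Type) [Field K] [Field M] [Algebra K M]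
    [FiniteDimensional K M] [CharP K p] (J : Type) [Finite J] (av : J → AbsoluteValue K ℝ), Pls av →
    ∃ (m : ℕ) (av' : Fin m → AbsoluteValue M ℝ) (κ : Fin m → J), Abo av av' κ

/-- **HsM** (120 lines, uses `S_Na`, `S_Ntr`, `S_Exn`). Simple properties of the places above `av`.

Proof. (1) Let `w`, `i`: if `av' w` is equivalent to `v`, then `rsa K v` is equivalent to `av (κ w)`. So if `v` is a nontrivial absolute
value of `M` which is not equivalent to an `av' w` then `rsa K v` is nontrivial (`S_Ntr`) and not equivalent to an `av i` (`cpl`); and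
conversely, if `rsa K v` is not equivalent to an `av i` then `v` is not equivalent to an `av' w`. (2) `D ∈ OS av`: `v D = rsa K v D ≤ 1`. (3)
`HS`: `J'` is not empty: for `i ∈ J` there is `v` above `av i` (`S_Exn`), so `cpl` gives `w`; `(j α) ^ (p - 1) = j (h) = h`;
`hu` by (1). (4) `S_Exn` and `cpl`: `av' w` is equivalent to some `v` with `rsa K v = av i`, so `av (κ w) = rsa K (av' w)` is equivalent to
`av i`, so `κ w = i` (`Pls.inq`). -/
def S_HsM : Prop :=
  ∀ (p : ℕ) [Fact p.Prime] (K M : Type) [Field K] [Field M] [Algebra K M]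
    [FiniteDimensional K M] [CharP K p] (j : Kgs K ≃+* Kgs M), Jok j →
    ∀ (J J' : Type) (av : J → AbsoluteValue K ℝ) (av' : J' → AbsoluteValue M ℝ) (κ : J' → J),
      Abo av av' κ → Pls av →
    (∀ v : AbsoluteValue M ℝ, v.IsNontrivial → ((∀ w, ¬ v.IsEquiv (av' w)) ↔
      ∀ i, ¬ (rsa K v).IsEquiv (av i))) ∧
    (∀ D ∈ OS av, algebraMap K M D ∈ OS av') ∧
    (∀ (α : Kgs K) (h : K), HS p av α h → HS p av' (j α) (algebraMap K M h)) ∧
    Function.Surjective κ

/-! ### 2. `M` is contained in the towers -/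

/-- **Tow** (250 lines). Galois extensions of `p`-power degree are contained in towers of Artin-Schreier extensions.

Proof. Induction on `n`, for all `M`. `n = 0`: `M = ⊥`. `n ≥ 1`: `Gal(M/K)` is a `p`-group `≠ 1`, so its center contains a subgroup `Z` of order
`p` (`IsPGroup.center_nontrivial`, Cauchy), which is normal. Let `N` be the fixed field of `Z`, as an intermediate field of `L / K` contained in
`M`; `N / K` is Galois of degree `p ^ (n - 1)` (`IsGalois.of_fixedField_normal_subgroup` or similar), `M / N` is Galois with the group `Z`. By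
induction there are `θ_0, .., θ_(n - 2)` for `N`. Let `σ` be a generator of `Z` and `b ∈ M` with `∑_{i < p} σ ^ i b = 1` (the trace is not
zero: linear independence of the `σ ^ i`, or `Algebra.trace_surjective` for `M / N`). `θ = - ∑_{i < p} i σ ^ i b` satisfies
`σ θ = - ∑_{i < p} i σ ^ (i + 1) b = - ∑_{i ≤ p, i ≥ 1} (i - 1) σ ^ i b = θ + 1` (`σ ^ p b = b`, `p = 0`), so `θ ^ p - θ` is fixed by `σ`,
hence in `N ≤ adjoin K (θ_k, k < n - 1)`, and `θ ∉ N`; `M / N` has the prime degree `p`, so `M = N⟮θ⟯`. Let `θ_(n - 1) = θ` (`Fin.snoc`). -/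
def S_Tow : Prop :=
  ∀ (p : ℕ) [Fact p.Prime] (K L : Type) [Field K] [Field L] [Algebra K L] [CharP K p]
    (n : ℕ) (M : IntermediateField K L), IsGalois K M → FiniteDimensional K M →
    Module.finrank K M = p ^ n → ∃ θ : Fin n → L,
      (∀ i, θ i ^ p - θ i ∈ adjoin K (θ '' {k | k < i})) ∧ M ≤ adjoin K (Set.range θ)

/-- **Ial** (80 lines, uses `S_Alm`). Algebraic elements are integral over `OS av` if `av` is large.

Proof. Let `P = X ^ n + ∑ a_i X ^ i` be the minimal polynomial of `x` over `K`. For every `a_i ≠ 0` let `u_i` be the family of `S_Alm`; `av₀` is the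
family of all these absolute values (a finite family, nontrivial; not necessarily pairwise inequivalent; reindex it by `Fin m`). If
every member is equivalent to an `av j`, and `v` is nontrivial and not equivalent to an `av j`, then it is not equivalent to a member,
so `v (a_i) = 1` for `a_i ≠ 0`. So `a_i ∈ OS av` for all `i`. -/
def S_Ial : Prop :=
  ∀ (p : ℕ) [Fact p.Prime] (K : Type) [Field K] [CharP K p], GFld p K →
    ∀ (L : Type) [Field L] [Algebra K L] [Algebra.IsAlgebraic K L] (x : L),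
    ∃ (m : ℕ) (av₀ : Fin m → AbsoluteValue K ℝ), (∀ i, (av₀ i).IsNontrivial) ∧
      ∀ (J : Type) (av : J → AbsoluteValue K ℝ), (∀ i, ∃ j, (av j).IsEquiv (av₀ i)) →
        IsIntegral (OS av) x

/-- **Twm** (250 lines, uses `S_Ntr`, `S_Alm`, `S_GfM`, `S_Tow`, `S_Ial`). `M ⊆ OmS` and `D₀ ∈ OS av'` if `av` is large.

Proof. (a) Let `M₁ ⊆ Kgs K` be the image of `M` under `m ↦ j⁻¹ m` (the range of a `K`-algebra homomorphism, as `j` is compatible with
`K → M`), an intermediate field isomorphic to `M`, so Galois of degree `p ^ n`. Let `θ i` be as in `S_Tow` and `c_i = θ i ^ p - θ i`. Let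
`av₁` be the union of the families of `S_Ial` for the `c_i ∈ Kgs K`. If `av` is large then all `c_i` are integral over `OS av`, and
by induction on `i ≤ n` there is a tower `T_i` (`Twr p (OS av) K (Kgs K) α T_i`) containing `θ k` for `k < i`: `T_0 = K⟮α⟯`,
`T_(i + 1) = T_i ⊔ K⟮θ i⟯`. So `M₁ ≤ adjoin K (range θ) ≤ T_n ≤ OmS`. (b) Let `D₀ ≠ 0` (`D₀ = 0` is clear), `u : Fin m → AbsoluteValue M ℝ` the family of
`S_Alm` for `D₀` and the field `M` (`S_GfM`), `av₂ l = rsa K (u l)`, nontrivial (`S_Ntr`). Let `av` be large, `v` a nontrivial absolute value of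
`M` which is not equivalent to an `av' w`. If `v` were equivalent to `u l`, then `rsa K v` is equivalent to `av₂ l`, so to some `av j`,
and by `cpl` `v` is equivalent to an `av' w`, a contradiction. So `v D₀ = 1`. `av₀` is the union of `av₁` and `av₂`. -/
def S_Twm : Prop :=
  ∀ (p : ℕ) [Fact p.Prime] (K M : Type) [Field K] [Field M] [Algebra K M]
    [FiniteDimensional K M] [IsGalois K M] [CharP K p], GFld p K → ∀ n : ℕ,
    Module.finrank K M = p ^ n → ∀ (j : Kgs K ≃+* Kgs M), Jok j → ∀ D₀ : M,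
    ∃ (m : ℕ) (av₀ : Fin m → AbsoluteValue K ℝ), (∀ i, (av₀ i).IsNontrivial) ∧
      ∀ (J : Type) (av : J → AbsoluteValue K ℝ), (∀ i, ∃ j, (av j).IsEquiv (av₀ i)) →
        (∀ (α : Kgs K) (m : M), j.symm (algebraMap M (Kgs M) m) ∈ OmS p av α) ∧
        ∀ (J' : Type) (av' : J' → AbsoluteValue M ℝ) (κ : J' → J), Abo av av' κ → D₀ ∈ OS av'

/-! ### 3. The Galois groups `GS` -/

/-- **OmM** (250 lines, uses `S_Twb`, `S_Itg`, `S_HsM`). `j` maps `OmS` to `OmS`.

Proof. `α ≠ 0` (as `h ≠ 0`), `(j α) ^ (p - 1) = h`. (a) Let `T` be a tower over `K` (`Twr p (OS av) K (Kgs K) α T`). By induction there is a tower `T'` over `M`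
(for `OS av'`, `j α`) with `j (T) ⊆ T'`: `K⟮α⟯`: `T' = M⟮j α⟯`, `j⁻¹ (T')` is a subfield which contains `K` and `α`. Step
`T ⊔ K⟮θ⟯`: `m = θ ^ p - θ ∈ T` is integral over `OS av`, so `j m = (j θ) ^ p - j θ ∈ T'` is integral over `OS av'` (apply `j` to the monic
equation; the coefficients are mapped to `OS av'`, `S_HsM` (2)); take `T' ⊔ M⟮j θ⟯`, `j⁻¹` of it contains `T` and `θ`. So `x ∈ OmS`
implies `j x ∈ OmS` (`S_Twb` (2) for `K`, `T' ≤ OmS`). (b) Let `T'` be a tower over `M`. By induction `j⁻¹ (T') ⊆ OmS p av α`: `M⟮j α⟯`: `j⁻¹ M` and `α` are in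
`OmS` (hypothesis, `S_Twb` (7)). Step `T' ⊔ M⟮θ'⟯`, `m' = θ' ^ p - θ'`: `m'` is integral over `OS av'`, and the elements of `OS av'` are
integral over `OS av` (`S_Itg`: if `v` is a nontrivial absolute value of `M` and `rsa K v` is not equivalent to an `av i` then `v` is not equivalent to
an `av' w`, `S_HsM` (1)), so `m'` is integral over (the image of) `OS av`, and `j⁻¹ m' ∈ OmS` is integral over `OS av`; `S_Twb` (6) gives
`j⁻¹ θ' ∈ OmS`. The intermediate field `T' ⊔ M⟮θ'⟯` is generated by `T'` and `θ'`, and the set `j (OmS)` is a subfield containing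
`M`. -/
def S_OmM : Prop :=
  ∀ (p : ℕ) [Fact p.Prime] (K M : Type) [Field K] [Field M] [Algebra K M]
    [FiniteDimensional K M] [Algebra.IsSeparable K M] [CharP K p], GFld p K →
    ∀ (j : Kgs K ≃+* Kgs M), Jok j →
    ∀ (J J' : Type) (av : J → AbsoluteValue K ℝ) (av' : J' → AbsoluteValue M ℝ) (κ : J' → J),
      Abo av av' κ → ∀ (α : Kgs K) (h : K), HS p av α h →
      (∀ m : M, j.symm (algebraMap M (Kgs M) m) ∈ OmS p av α) →
      ∀ x : Kgs K, x ∈ OmS p av α ↔ j x ∈ OmS p av' (j α)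

/-- **PiM** (350 lines, uses `S_Has`, `S_GfM`, `S_HsM`, `S_OmM`, `S_Hst`, `S_Rgo`). The homomorphisms `θ` and `pq`.

Proof. By `S_OmM` `j` restricts to an isomorphism `φ : OmS p av α ≃+* OmS p av' (j α)`; `θ g = φ⁻¹ g φ` is `K`-linear as `φ` maps `K` into
`M` (`Jok`). `hs'`, `os` (first part): `S_HsM`. `th`: clear. `emb`: `θ` is injective; continuous: the preimage of the subgroup fixing a finite
extension `K(x_1, .., x_r)` is the subgroup fixing `φ(x_1), .., φ(x_r)`; the range is the subgroup fixing `j⁻¹ M`, a finite extension of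
`K` in `OmS`, so it is open; `GS p av' (j α)` is compact and `GS p av α` is Hausdorff, so `θ` is a closed embedding
(`Continuous.isClosedEmbedding`) with open range, so an open embedding. `pq`: the map `m ↦ j⁻¹ m` is a `K`-homomorphism
`M → OmS p av α`, `M / K` is normal, so every `g` maps its image to itself: `AlgEquiv.restrictNormalHom` for `M`, with the algebra structure of
`OmS` over `M` given by this map. `pqs`: `OmS / K` is normal (`S_Hst`), `AlgEquiv.restrictNormalHom_surjective`. `pqa`: clear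
(`AlgEquiv.restrictNormal_commutes`). `pqk`: `pq g = 1` iff `g` fixes `j⁻¹ M` iff `φ g φ⁻¹` is `M`-linear. `pql`: the kernel is open. `om`: `omS` is the
`c` with `g α = op c * α` (`S_Has` (1), `S_Hst`: `alo` is `α`); `θ g α = φ⁻¹ (g (j α)) = op c * α`. `os` (second part): let `x ∈ OmS p av α` be a root
of `x ^ p - x = D` with `g x = x + op (hS D g)` for all `g` (`S_Has` (3) for `α = 1`; the root exists by `S_Hst`). Then `φ x` is a root of
`y ^ p - y = D` in `OmS p av' (j α)` and `g (φ x) = φ (θ g x) = φ x + op (hS D (θ g))`; by `S_Has` (2) (`α = 1`, `omc p 1 = 1`)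
`g (φ x) = φ x + op (hS' D g)`. `rg`: for `x ∈ OmS`: `θ (rG' σ') x = φ⁻¹ (σ' (j x)) = σ x` (`S_Rgo` (3)). -/
def S_PiM : Prop :=
  ∀ (p : ℕ) [Fact p.Prime] (K M : Type) [Field K] [Field M] [Algebra K M]
    [FiniteDimensional K M] [IsGalois K M] [CharP K p], GFld p K →
    ∀ (j : Kgs K ≃+* Kgs M), Jok j →
    ∀ (J J' : Type) (av : J → AbsoluteValue K ℝ) (av' : J' → AbsoluteValue M ℝ) (κ : J' → J),
      Abo av av' κ → ∀ (α : Kgs K) (h : K), HS p av α h →
      (∀ m : M, j.symm (algebraMap M (Kgs M) m) ∈ OmS p av α) →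
      ∃ (θ : GS p av' (j α) →* GS p av α) (pq : GS p av α →* Gal(M/K)),
        TrD p j av av' κ α h θ pq

/-! ### 4. Decomposition groups -/

/-- **Stb** (300 lines, uses `S_Lc1`, `S_Lc2`, `S_Res`). The image of the local Galois group is the stabilizer of the absolute value.

Proof. (1) `g (ι x) = ι (σ x)` (`S_Res` (2)) and `nm (g y) = nm y` (`S_Lc2` (6)). (2) Let `nm (ι (σ x)) = nm (ι x)` for all `x`. (a) For every `y ∈ Kgs K`
there is `g ∈ Gal(Kvs v/v.Completion)` with `g (ι y) = ι (σ y)`: let `f = ∑ a_i X ^ i` be the minimal polynomial of `ι y` over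
`v.Completion`, of degree `n`, `C = max 1 (nm (ι y)) = max 1 (nm (ι (σ y)))`. Let `ε > 0`, `b_i ∈ K` with `‖a_i - b_i‖ < ε` (`S_Lc1` (2)), `f₁ = ∑ b_i X ^ i`.
As `f (ι y) = 0`, `nm (f₁ (ι y)) ≤ ε C ^ n`. `f₁ (ι y) = ι (f₁ (y))` and `f₁ (ι (σ y)) = ι (σ (f₁ (y)))`, so
`nm (f₁ (ι (σ y))) = nm (f₁ (ι y)) ≤ ε C ^ n` and `nm (f (ι (σ y))) ≤ ε C ^ n`. So `f (ι (σ y)) = 0`. `Kvs v / v.Completion` is normal, so
two roots of the minimal polynomial are conjugate (`minpoly.exists_algEquiv_of_root` or similar). (b) The set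
`C_y = {g | g (ι y) = ι (σ y)}` is closed (the stabilizer of an element is open and closed) and not empty. For `y_1, .., y_r` let `y` be a primitive element of
`K(y_1, .., y_r)` (finite separable, `Field.exists_primitive_element`); then `C_y ⊆ C_(y_1) ∩ .. ∩ C_(y_r)`. By compactness there is `g` in all `C_y`
(`IsCompact.nonempty_sInter_of_directed_nonempty_isCompact_isClosed` or similar), `g ∘ ι = ι ∘ σ`, so `rsH ι g = σ` (`S_Res` (3)). -/
def S_Stb : Prop :=
  ∀ (p : ℕ) [Fact p.Prime] (K : Type) [Field K] [CharP K p] (v : AbsoluteValue K ℝ) (Q : ℕ)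
    (ϖ : K) (R : Finset K), LF v p Q ϖ R → ∀ (ι : Kgs K →ₐ[K] Kvs v) (σ : Gal(Kgs K/K)),
    (∃ g : Gal(Kvs v/v.Completion), rsH (M := v.Completion) ι g = σ) ↔
      ∀ x, nm v (ι (σ x)) = nm v (ι x)

/-- **Trn** (300 lines, uses `S_Na`). The absolute values of the separable closure over the same `v` are conjugate.

Proof. For a finite Galois extension `E ⊆ Kgs K` of `K` let `C_E = {σ ∈ Gal(Kgs K/K) | u₂ x = u₁ (σ x) for all x ∈ E}`; it is closed (it
depends only on the restriction of `σ` to `E`) and decreasing in `E`; the finite Galois extensions are directed and every `x ∈ Kgs K` is in one of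
them. By compactness it suffices that `C_E` is not empty. Let `w₁`, `w₂` be the restrictions of `u₁`, `u₂` to `E`, `Γ = Gal(E/K)`, and suppose that
`w₂ ≠ w₁ ∘ τ` for all `τ ∈ Γ`. All `w_i ∘ τ` have the restriction `v` to `K`, so they are nontrivial, and if two absolute values of
`E` over `v` are equivalent then they are equal (the exponent is `1` as `v x ≠ 0, 1` for some `x ∈ K`). So no `w₁ ∘ τ` is equivalent to a
`w₂ ∘ τ'`. By weak approximation (`AbsoluteValue.denseRange_algebraMap_pi`, for the finite set of the different ones among the `w₁ ∘ τ`, `w₂ ∘ τ`; or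
`exists_one_lt_lt_one_pi_of_not_isEquiv`) there is `a ∈ E` with `w₁ (τ a) < 1` and `w₂ (τ a - 1) < 1` for all `τ`, so `w₂ (τ a) = 1`
(`S_Na`). The norm `b = ∏_τ τ a ∈ K` satisfies `v b = ∏ w₁ (τ a) < 1` and `v b = ∏ w₂ (τ a) = 1`, a contradiction. An element of `Γ` extends to
`Kgs K`. -/
def S_Trn : Prop :=
  ∀ (p : ℕ) [Fact p.Prime] (K : Type) [Field K] [CharP K p] (v : AbsoluteValue K ℝ),
    v.IsNontrivial → ∀ u₁ u₂ : AbsoluteValue (Kgs K) ℝ, rsa K u₁ = v → rsa K u₂ = v →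
    ∃ σ : Gal(Kgs K/K), ∀ x, u₂ x = u₁ (σ x)

/-- **StD** (120 lines, uses `S_Dsc`, `S_Lc1`, `S_Lc2`, `S_Rgo`, `S_Stb`). The groups `DS` in terms of absolute values of the separable
closure.

Proof. `u x = nm v (ι x)`, `v = av i`, of the type `LF` (`S_Dsc`): an absolute value by `S_Lc2` (1)-(4) (nonarchimedean implies the triangle
inequality), with the restriction `v` (`S_Lc2` (5), `S_Lc1` (1)). `g ∈ DS i` iff `g = rOm (ι i) g' = rG (rsH (ι i) g')` for some `g'` (`S_Rgo`), iff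
`g = rG σ` for some `σ` which preserves `u` (`S_Stb`). -/
def S_StD : Prop :=
  ∀ (p : ℕ) [Fact p.Prime] (K : Type) [Field K] [CharP K p], GFld p K →
    ∀ (J : Type) (av : J → AbsoluteValue K ℝ) (α : Kgs K) (h : K), HS p av α h →
    ∀ (ι : ∀ i, Kgs K →ₐ[K] Kvs (av i)) (i : J), ∃ u : AbsoluteValue (Kgs K) ℝ,
      rsa K u = av i ∧ ∀ g : GS p av α, g ∈ DS p av α ι i ↔
        ∃ σ : Gal(Kgs K/K), rG p av α σ = g ∧ ∀ x, u (σ x) = u x

/-- **Dcg** (350 lines, uses `S_Rgo`, `S_GfM`, `S_Jgl`, `S_Trn`, `S_StD`). The double cosets.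

Proof. `S_StD` gives absolute values `u i` of `Kgs K` over `av i` and `u' w` of `Kgs M` over `av' w` (`S_GfM`). A pair `σ`, `σ'` with `Jrl` is given by
`S_Jgl`; `θ (rG' σ') = rG σ` (`TrD.rg`). The absolute value `u' w ∘ j` of `Kgs K` is over `rsa K (av' w) = av (κ w)`, so by `S_Trn` there is `τ_w`
with `u' w (j x) = u (κ w) (τ_w x)` for all `x`. Let `x w = rG (τ_w⁻¹)`. Elements of `ker rG` fix `OmS` and `ker rG` is normal (`OmS` is stable).
(mem), `→`: let `h = rG' σ'` with `u' w ∘ σ' = u' w`. Then `u (κ w) (τ_w σ x) = u' w (j (σ x)) = u' w (σ' (j x)) = u' w (j x) = u (κ w) (τ_w x)`, so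
`δ = τ_w σ τ_w⁻¹` preserves `u (κ w)` and `(x w)⁻¹ * θ h * x w = rG δ ∈ D (κ w)`. `←`: let `(x w)⁻¹ * θ h * x w = rG δ`, `δ` preserving
`u (κ w)`, and `h = rG' σ'₀` (`rG'` is surjective), `σ₀` corresponding to `σ'₀`. `τ_w σ₀ τ_w⁻¹ = δ n`, `n ∈ ker rG`, so `σ₀ = τ_w⁻¹ δ τ_w n'` with
`n' = τ_w⁻¹ n τ_w ∈ ker rG`. `n'` fixes `OmS ⊇ j⁻¹ M` (`inM`), so it corresponds to `n'' ∈ Gal(Kgs M/M)` (`S_Jgl` (2)) which fixes `OmS p av' (j α) = j (OmS)` (`mem`),
so `rG' n'' = 1`. Let `σ' = σ'₀ n''⁻¹`: `rG' σ' = h` and it corresponds to `τ_w⁻¹ δ τ_w`, so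
`u' w (σ' (j x)) = u (κ w) (τ_w τ_w⁻¹ δ τ_w x) = u (κ w) (τ_w x) = u' w (j x)`. So `h ∈ D' w`.
(ex): let `g = rG γ`. The absolute value `y ↦ u i (γ⁻¹ (j⁻¹ y))` of `Kgs M` restricts to an absolute value `v'` of `M` with
`rsa K v' = av i`, so by `cpl` `v'` is equivalent to some `av' w`, so `av i` is equivalent to `av (κ w)` and `κ w = i`; equivalent absolute values with the same nontrivial
restriction are equal, so `v' = av' w`. By `S_Trn` for `M` there is `σ'` with `u i (γ⁻¹ (j⁻¹ y)) = u' w (σ' y)`; with the corresponding `σ`: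
`u i (γ⁻¹ x) = u' w (j (σ x)) = u i (τ_w σ x)`. So `δ = τ_w σ γ` preserves `u i` and `γ = σ⁻¹ τ_w⁻¹ δ`, `g = θ (rG' σ'⁻¹) * x w * rG δ`.
(inj): let `h = rG' σ'`, `d = rG δ`, `i = κ w = κ w'`, `σ τ_w⁻¹ δ = τ_w'⁻¹ n` with `n ∈ ker rG`. For `m ∈ M` let `x = j⁻¹ m ∈ OmS`,
`z = τ_w' x ∈ OmS`, `n z = z`. Then `δ = τ_w σ⁻¹ τ_w'⁻¹ n` gives
`av' w' m = u' w' (j x) = u i (z) = u i (δ z) = u i (τ_w σ⁻¹ τ_w'⁻¹ z) = u i (τ_w σ⁻¹ x) = u' w (j (σ⁻¹ x)) = u' w (σ'⁻¹ m) = u' w m = av' w m`. So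
`av' w = av' w'` and `w = w'` (`Pls.inq`). -/
def S_Dcg : Prop :=
  ∀ (p : ℕ) [Fact p.Prime] (K M : Type) [Field K] [Field M] [Algebra K M]
    [FiniteDimensional K M] [IsGalois K M] [CharP K p], GFld p K →
    ∀ (j : Kgs K ≃+* Kgs M) (J J' : Type) (av : J → AbsoluteValue K ℝ)
      (av' : J' → AbsoluteValue M ℝ) (κ : J' → J) (α : Kgs K) (h : K)
      (θ : GS p av' (j α) →* GS p av α) (pq : GS p av α →* Gal(M/K)),
      TrD p j av av' κ α h θ pq →
    ∀ (ι : ∀ i, Kgs K →ₐ[K] Kvs (av i)) (ι' : ∀ w, Kgs M →ₐ[M] Kvs (av' w)),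
      ∃ x : J' → GS p av α, Dcs θ (DS p av α ι) (DS p av' (j α) ι') κ x

/-! ### 5. Shapiro's lemma for the kernels -/

/-- **ShF** (150 lines). The local part (abstract).

Proof. Let `i ∈ J`. By `Dcs.ex` every `g` is `θ h * x w * d` with `κ w = i`, `d ∈ D i`. Define `F i g = c h + χ h * a w`. It is well defined: let
`θ h * x w * d = θ h' * x w' * d'`. Then `θ (h'⁻¹ * h) * x w * (d * d'⁻¹) = x w'`, so `w = w'` (`Dcs.inj`), and `h₀ = h'⁻¹ * h` satisfies
`(x w)⁻¹ * θ h₀ * x w = d' * d⁻¹ ∈ D i`, so `h₀ ∈ D' w` (`Dcs.mem`) and `c h₀ = a w - χ h₀ * a w`. So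
`c h + χ h * a w = c (h' * h₀) + χ h' * χ h₀ * a w = c h' + χ h' * (c h₀ + χ h₀ * a w) = c h' + χ h' * a w`. (1) clear from the definition. (2)
`c (h₁ * h) + χ (h₁ * h) * a w = c h₁ + χ h₁ * (c h + χ h * a w)`. (3) `h = 1`, `d = 1`, `c 1 = 0` (`c (1 * 1) = c 1 + c 1`), `χ 1 = 1`. -/
def S_ShF : Prop :=
  ∀ (G H J J' Λ : Type) [Group G] [Group H] [CommRing Λ] (θ : H →* G) (D : J → Subgroup G)
    (D' : J' → Subgroup H) (κ : J' → J) (x : J' → G), Dcs θ D D' κ x →
    ∀ (χ c : H → Λ) (a : J' → Λ), χ 1 = 1 → (∀ h h', χ (h * h') = χ h * χ h') →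
      (∀ h h', c (h * h') = c h + χ h * c h') →
      (∀ w, ∀ h ∈ D' w, c h = a w - χ h * a w) →
      ∃ F : J → G → Λ, (∀ i g, ∀ d ∈ D i, F i (g * d) = F i g) ∧
        (∀ i g h, F i (θ h * g) = c h + χ h * F i g) ∧ ∀ w, F (κ w) (x w) = a w

/-- **ShA** (350 lines, uses `S_ShF`). Shapiro's lemma for the kernels (abstract).

Proof. `zt π` is additive (`(1 - π) ^ p = 1`) and its values are units; `Ψ g` is a unit (`Ψ g * Ψ g⁻¹ = 1`). Let `ρ g f q = U g * zt π (β g q) * f (q * pq g)`,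
`U g = Ψ g * zt π (hd g)`, be the twisted action `twz (1 - π) (ind π Ψ pq β) hd`; `U` is multiplicative. Let
`χ h = Ψ (θ h) * zt π (χ₀ h + hd (θ h)) = U (θ h) * zt π (χ₀ h)`, multiplicative, `rL (tw ..) h y = χ h * y`. For `g ∈ G` let `lg g ∈ H` be the element with
`θ (lg g) = g * (s (pq g))⁻¹` (in the kernel of `pq`): `lg (θ h * g) = h * lg g`, `lg (s q) = 1`, `lg (θ h) = h` (`s 1 = 1`); `lg` is continuous (`pq` is locally
constant and `θ` is an open embedding, so `θ⁻¹` is continuous on the range).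
Let `(c, a)` be in the kernel for `H`, `c̃ g = c (lg g)`; `c̃ (θ h * g) = c h + χ h * c̃ g`, `c̃ (s q) = 0`. Let `C g q = (U (s q))⁻¹ * c̃ (s q * g)` and
`A i q = (U (s q))⁻¹ * F i (s q)`, `F` as in `S_ShF`. Let `g`, `q` be given and `s q * g = θ h * s q'`, `q' = q * pq g`; so `β g q = χ₀ h` and
`χ h = U (s q) * U g * (U (s q'))⁻¹ * zt π (β g q)`. (a) `C` is a crossed homomorphism for `ρ`:
`C (g * g') q = (U (s q))⁻¹ * c̃ (θ h * s q' * g') = (U (s q))⁻¹ * (c h + χ h * c̃ (s q' * g'))`, `C g q = (U (s q))⁻¹ * c h`, and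
`(U (s q))⁻¹ * χ h * c̃ (s q' * g') = U g * zt π (β g q) * C g' q'`. Locally constant: `c`, `lg` (and `Q` is finite). (b) For `g ∈ D i`:
`F i (s q) = F i (s q * g) = F i (θ h * s q') = c h + χ h * F i (s q')`, so `A i q - ρ g (A i) q = (U (s q))⁻¹ * c h = C g q`. So `(C, A)` is in the kernel for
`G`. (c) For `B : Q → Λ` with `B 1 = 0` the pair `(g ↦ B - ρ g B, i ↦ B)` is in the kernel (locally constant as `Ψ`, `hd`, `pq`, `β` are: `β g q = χ₀ (lg (s q * g))`). The map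
`((c, a), B) ↦ (C, A) + (g ↦ B - ρ g B, B)` is injective: let `(C', A')` be the image. `C' (θ h) 1 = c h + B 1 - U (θ h) * zt π (χ₀ h) * B 1 = c h` (`s 1 = 1`, `U 1 = 1`).
`C' (s q) 1 = c̃ (s q) - U (s q) * zt π (β (s q) 1) * B q = - (unit) * B q`. So `c`, `B`, hence `C`, `A i q` are determined, so `F i (s q)`, so `F i`
(`F i (θ h * s q) = c h + χ h * F i (s q)`) and `a w = F (κ w) (x w)`. The number of the `B` with `B 1 = 0` times `#Λ` is the number of all functions `Q → Λ`. -/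
def S_ShA : Prop :=
  ∀ (p : ℕ) [Fact p.Prime] (G H Q J J' Λ : Type) [Group G] [TopologicalSpace G]
    [IsTopologicalGroup G] [Group H] [TopologicalSpace H] [IsTopologicalGroup H] [Group Q]
    [Finite Q] [CommRing Λ] [Finite Λ] (θ : H →* G) (pq : G →* Q) (s : Q → G),
    Topology.IsOpenEmbedding θ → IsLocallyConstant pq → pq.ker = θ.range →
    (∀ q, pq (s q) = q) → s 1 = 1 →
    ∀ (D : J → Subgroup G) (D' : J' → Subgroup H) (κ : J' → J) (x : J' → G), Dcs θ D D' κ x →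
    ∀ π : Λ, (1 - π) ^ p = 1 → ∀ Ψ : G → Λ, IsLocallyConstant Ψ → Ψ 1 = 1 →
    (∀ a b, Ψ (a * b) = Ψ a * Ψ b) → ∀ (χ₀ : H → ZMod p) (hd : G → ZMod p), HomP p χ₀ →
    HomP p hd → ∀ β : G → Q → ZMod p, Bet θ pq s χ₀ β →
    (Ker (twz (1 - π) (ind π Ψ pq β) hd) D).Finite →
    (Ker (rL (tw π (fun h => Ψ (θ h)) fun h => χ₀ h + hd (θ h))) D').Finite ∧
    (Ker (rL (tw π (fun h => Ψ (θ h)) fun h => χ₀ h + hd (θ h))) D').ncard *
      Nat.card (Q → Λ) ≤ (Ker (twz (1 - π) (ind π Ψ pq β) hd) D).ncard * Nat.card Λ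

/-! ### 6. Most `D₀ + D` are deep -/

/-- **Bfn** (80 lines, uses `S_Lc1`). Bounded elements modulo `℘` are finitely many.

Proof. Let `B ≤ v ϖ ^ (- n)`, `n : ℕ`. By induction on `n` there is a finite set `X ⊆ v.Completion` such that every `x` with `‖x‖ ≤ v ϖ ^ (- n)` has a
`s ∈ X` with `‖x - s‖ < 1`: `n = 0`: `S_Lc1` (5). `n + 1`: `‖ϖ ^ (n + 1) x‖ ≤ 1`, so there is `r ∈ R` with `‖ϖ ^ (n + 1) x - r‖ < 1`, so `≤ v ϖ`
(`S_Lc1` (4)), `‖x - ϖ ^ (- n - 1) r‖ ≤ v ϖ ^ (- n)`. By `S_Lc1` (8) `x - s = ℘(y)`. -/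
def S_Bfn : Prop :=
  ∀ (p : ℕ) [Fact p.Prime] (K : Type) [Field K] [CharP K p] (v : AbsoluteValue K ℝ) (Q : ℕ)
    (ϖ : K) (R : Finset K), LF v p Q ϖ R → ∀ B : ℝ, ∃ X : Set v.Completion, X.Finite ∧
      ∀ x : v.Completion, ‖x‖ < B → ∃ s ∈ X, ∃ y : v.Completion, x - s = y ^ p - y

/-- **PwM** (150 lines, uses `S_Has`, `S_Hst`, `S_Rgo`, `S_GfM`, `S_Dcg`). `D ∈ ℘(K_v)` and `D ∈ ℘(M_w)` in terms of `hS D`.

Proof. (1) Let `v = av i`. `∃ y ∈ K_v, ℘(y) = D` iff `hP p 1 D g = 0` for all `g ∈ Gal(Kvs v/K_v)` (`S_Has` (5) for `α = 1`, where `omc p 1 = 1`; the root in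
`Kvs v` exists: apply `ι i` to a root in `OmS`, `S_Hst`), and `hP p 1 D g = hS D (rOm (ι i) g)` (`S_Rgo`). (2) By (1) for `M`: `hS' D h = 0` for all
`h ∈ DS' w`, so `hS D (θ h) = 0` (`TrD.os`). Let `d ∈ DS (κ w)`, `pq d = 1`. The element `x w * d * (x w)⁻¹` (`x` as in `S_Dcg`) is in the kernel
of `pq`, so it is `θ h`, and `h ∈ DS' w` by `Dcs.mem`. `hS D d = hS D (θ h) = 0` (`hS D` is a homomorphism). -/
def S_PwM : Prop :=
  ∀ (p : ℕ) [Fact p.Prime] (K M : Type) [Field K] [Field M] [Algebra K M]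
    [FiniteDimensional K M] [IsGalois K M] [CharP K p], GFld p K →
    ∀ (j : Kgs K ≃+* Kgs M) (J J' : Type) (av : J → AbsoluteValue K ℝ)
      (av' : J' → AbsoluteValue M ℝ) (κ : J' → J) (α : Kgs K) (h : K)
      (θ : GS p av' (j α) →* GS p av α) (pq : GS p av α →* Gal(M/K)),
      TrD p j av av' κ α h θ pq →
    ∀ (ι : ∀ i, Kgs K →ₐ[K] Kvs (av i)) (_ : ∀ w, Kgs M →ₐ[M] Kvs (av' w)), ∀ D ∈ OS av,
      (∀ i, (∃ y : (av i).Completion, y ^ p - y = algebraMap K (av i).Completion D) ↔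
        ∀ g ∈ DS p av α ι i, hS p av α D g = 0) ∧
      ∀ w, (∃ y : (av' w).Completion, y ^ p - y =
        algebraMap M (av' w).Completion (algebraMap K M D)) →
        ∀ d ∈ DS p av α ι (κ w), pq d = 1 → hS p av α D d = 0

/-- **DpM** (250 lines, uses `S_Na`, `S_Dsc`, `S_Hst`, `S_Dep`, `S_GfM`, `S_Bfn`, `S_PwM`). Most `D₀ + D` are deep at all places above `av`.

Proof. Embeddings `ι`, `ι'` exist (`IsSepClosed.lift`). Let `w ∈ J'`, `v = κ w`, and `E_w` the set of the `D ∈ OS av` for which there is `y ∈ M_w` with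
`‖D₀ + D - ℘(y)‖ < B`. Let `X` be as in `S_Bfn` for `av' w` and `B` (`S_Dsc` for `M`, `S_GfM`). For `D ∈ E_w` let `s(D) ∈ X` with `D₀ + D - s(D) ∈ ℘(M_w)`. If
`s(D) = s(D')` then `D - D' ∈ ℘(M_w)`. For the `D' ∈ OS av` with `D' ∈ ℘(M_w)` let `f(D') : Gal(M/K) → ZMod p` be the function with
`f(D') (pq d) = hS D' d` for `d ∈ DS v` and `0` outside `pq (DS v)`; well defined by `S_PwM` (2) (`pq d = pq d'` implies
`hS D' (d⁻¹ d') = 0`), and additive in `D'`. If `f(D') = 0` then `hS D' = 0` on `DS v`, so `D' ∈ ℘(K_v)` (`S_PwM` (1)). Let `N = #X * p ^ #Gal(M/K)`.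
Claim: `#(E_w ∩ 𝒟) ≤ N #(𝒟 ∩ ℘(K_v))` for every finite subgroup `𝒟` of `OS av`: for every `s ∈ X` choose `D_s ∈ E_w ∩ 𝒟` with
`s(D_s) = s` (if possible). The map `D ↦ (s(D), f(D - D_(s(D))))` on `E_w ∩ 𝒟` has fibres which are contained in cosets of the group of the `D' ∈ 𝒟` with
`D' ∈ ℘(K_v)`. By `S_Dep` for `M = 1` and `ε / (N_1 + .. )` (the sum of the numbers `N` for all `w`, plus `1`) there is `e₀` such that
`#(𝒟 ∩ ℘(K_v)) ≤ ε' #𝒟` for all `v` and `𝒟 ≥ FS av e₀` (`‖D - ℘(y)‖ = 0 < 1`). Sum over `w ∈ J'` (finite). -/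
def S_DpM : Prop :=
  ∀ (p : ℕ) [Fact p.Prime] (K M : Type) [Field K] [Field M] [Algebra K M]
    [FiniteDimensional K M] [IsGalois K M] [CharP K p], GFld p K →
    ∀ (j : Kgs K ≃+* Kgs M) (J J' : Type) (av : J → AbsoluteValue K ℝ)
      (av' : J' → AbsoluteValue M ℝ) (κ : J' → J) (α : Kgs K) (h : K)
      (θ : GS p av' (j α) →* GS p av α) (pq : GS p av α →* Gal(M/K)),
      TrD p j av av' κ α h θ pq →
    ∀ (D₀ : M) (B ε : ℝ), 0 < ε → ∃ e₀ : ℕ, ∀ 𝒟 : AddSubgroup (OS av),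
      (𝒟 : Set (OS av)).Finite → FS av e₀ ≤ 𝒟 →
      ({D : OS av | D ∈ 𝒟 ∧ ∃ w, ∃ y : (av' w).Completion,
        ‖algebraMap M (av' w).Completion (D₀ + algebraMap K M (D : K)) - (y ^ p - y)‖ <
          B}.ncard : ℝ) ≤ ε * Nat.card 𝒟

/-! ### 7. The points -/

/-- **TrM** (200 lines). The transport of points.

Proof. `X⁄(Kgs K)` and `Y⁄(Kgs M)`, `Y = X.map (algebraMap K M)`, have the coefficients `a_i` and `j (a_i)` (`Jok`). `tr` maps `O` to `O` and `(x, y)` to `(j x, j y)`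
(`WeierstrassCurve.Affine` `map_nonsingular` or similar for the injective homomorphism `j`); additive: it is `Affine.Point.map` for the curve
`X⁄(Kgs K)` over the field `Kgs K` and the homomorphism of `Kgs K`-algebras `Kgs K → Kgs M` (`j.toRingHom.toAlgebra`), up to the equality of the curves; or directly from the
formulas (`slope`, `addX`, `addY` commute with `map`, as in the proof of `Affine.Point.map`). `gal`: compare the coordinates,
`σ' (j x) = j (σ x)` (`pmap` is `Affine.Point.map`). -/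
def S_TrM : Prop :=
  ∀ (K M : Type) [Field K] [Field M] [Algebra K M] (j : Kgs K ≃+* Kgs M), Jok j →
    ∀ X : WeierstrassCurve K, ∃ tr : (X⁄(Kgs K)).toAffine.Point →+
      ((X.map (algebraMap K M))⁄(Kgs M)).toAffine.Point, TrP X (X.map (algebraMap K M)) j tr

/-- **IsO** (100 lines, uses `MP72V.S_It`, `S_ItT`). `IsQ` and `IsR` in terms of orders.

Proof. `Fn ∘ Vn = p ^ k`, `Fn` and `Vn` are additive and `Fn` is injective (`S_It`, for `p = 2` `S_ItT`). (1) `Vn Q ≠ 0` iff `p ^ k • Q = Fn (Vn Q) ≠ 0`, and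
`p • Vn Q = 0` iff `p ^ (k + 1) • Q = Fn (p • Vn Q) = 0`; `addOrderOf_eq_prime_pow`, and conversely. (2) `Vn R = 0` iff `p ^ k • R = 0`. -/
def S_IsO : Prop :=
  ∀ (p : ℕ) [Fact p.Prime] (K : Type) [Field K] [CharP K p] (W : WeierstrassCurve K), Gc p W →
    ∀ (L : Type) [Field L] [Algebra K L] (k : ℕ),
    (∀ Q : Pt p W k L, IsQ p W k Q ↔ addOrderOf Q = p ^ (k + 1)) ∧
    ∀ R : Pt p W k L, IsR p W k R ↔ addOrderOf R = p ^ k

/-- **GcM** (150 lines, uses `MP72V.S_Bas`, `MP72V.S_Or`, `S_BasT`). The normal forms over `M` and for the Frobenius twists.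

Proof. (1) the coefficients: `map_pow`. (2) `IsNf`: `Δ` of `W.map f` is `f Δ`; `Od`: `S_Or` (3) (`W⁄M` is `W.map (algebraMap K M)`). `IsN2`: the coefficients. (3)
`S_Bas` (2), `S_Or` (2); `S_BasT` (2). -/
def S_GcM : Prop :=
  ∀ (p : ℕ) [Fact p.Prime] (K M : Type) [Field K] [Field M] [Algebra K M] [CharP K p]
    (W : WeierstrassCurve K),
    (∀ k, fr p (W.map (algebraMap K M)) k = (fr p W k).map (algebraMap K M)) ∧
    (Gc p W → Gc p (W.map (algebraMap K M))) ∧ (Gc p W → ∀ k, Gc p (fr p W k))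

/-- **QPm** (200 lines, uses `S_Has`, `S_Hst`, `S_Rgo`, `S_Jgl`, `S_TrM`, `S_IsO`, `S_GcM`). The points over `M`.

Proof. `W' = W.map (algebraMap K M)`, `fr p W' k = (fr p W k).map (algebraMap K M)` (`S_GcM`). `S_TrM` gives `tr` with `TrP X Y j tr` for
`X = fr p W k` and every `Y` with `Y = X.map (algebraMap K M)` (`subst`), so for `Y = fr p W' k`; `Q' = tr Q`. (1) `addOrderOf (tr Q) = addOrderOf Q` (`tr` is injective), so `IsQ` by `S_IsO`. `loc`: `ψ ∘ θ`, `θ` is continuous. `one`,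
`mul`: clear. `red`: `omS p av' (j α) g = omS p av α (θ g)`. `gal`: let `σ'` be given and `σ` the corresponding automorphism (`S_Jgl`). `σ' (tr Q) = tr (σ Q) =
(ψ (rG σ)).val • tr Q` and `rG σ = θ (rG' σ')` (`TrD.rg`). (2) in the same way, `omc p (j α) σ' = omc p α σ` (`S_Jgl` (5)). -/
def S_QPm : Prop :=
  ∀ (p : ℕ) [Fact p.Prime] (K M : Type) [Field K] [Field M] [Algebra K M] [CharP K p]
    [CharP M p] (W : WeierstrassCurve K), Gc p W →
    (∀ (j : Kgs K ≃+* Kgs M) (J J' : Type) (av : J → AbsoluteValue K ℝ)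
      (av' : J' → AbsoluteValue M ℝ) (κ : J' → J) (α : Kgs K) (h : K)
      (θ : GS p av' (j α) →* GS p av α) (pq : GS p av α →* Gal(M/K)),
      TrD p j av av' κ α h θ pq → ∀ (k : ℕ) (Q : Pt p W k (Kgs K))
        (ψ : GS p av α → ZMod (p ^ (k + 1))), QPs p W av α k Q ψ →
        ∃ Q' : Pt p (W.map (algebraMap K M)) k (Kgs M),
          QPs p (W.map (algebraMap K M)) av' (j α) k Q' fun g => ψ (θ g)) ∧
    ∀ j : Kgs K ≃+* Kgs M, Jok j → ∀ (α : Kgs K) (h : K), α ≠ 0 →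
      α ^ (p - 1) = algebraMap K (Kgs K) h → ∀ (k : ℕ) (R : Pt p W k (Kgs K)), IsR p W k R →
      (∀ σ : Gal(Kgs K/K), pmap (fr p W k) (σ : Kgs K →ₐ[K] Kgs K) R = (omc p α σ).val • R) →
      ∃ R' : Pt p (W.map (algebraMap K M)) k (Kgs M), IsR p (W.map (algebraMap K M)) k R' ∧
        ∀ σ : Gal(Kgs M/M), pmap (fr p (W.map (algebraMap K M)) k) (σ : Kgs M →ₐ[M] Kgs M) R' =
          (omc p (j α) σ).val • R'

end Pool.Agent.MP72G
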