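import Pool.Agent.Lib.MP_72e2e6_nt.P4.Z.Spec
import Pool.Agent.Lib.MP_72e2e6_nt.P3.E2.Spec
import Pool.Agent.Lib.MP_72e2e6_nt.P3.L.Spec

/-!
# MP_72e2e6_nt, theorem T4, part T (from `K` to the Galois extension `M`): definitions

`M/K` is a finite Galois extension of `p`-power degree of global function fields, `j : Kgs K ≃+* Kgs M` an
isomorphism of the separable closures which is compatible with `K → M`.
-/

namespace Pool.Agent.MP72G

open Finset Pool.Agent.MP72P IntermediateField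
open WeierstrassCurve
open Pool.Agent.MP72W (pmap)
open Pool.Agent.MP72V

open scoped Classical

/-- `j` is compatible with `K → M`. -/
def Jok {K M : Type} [Field K] [Field M] [Algebra K M] (j : Kgs K ≃+* Kgs M) : Prop :=
  ∀ x : K, j (algebraMap K (Kgs K) x) = algebraMap M (Kgs M) (algebraMap K M x)

/-- The automorphisms `σ` and `σ'` correspond to each other. -/
def Jrl {K M : Type} [Field K] [Field M] (j : Kgs K ≃+* Kgs M)
    (σ : Gal(Kgs K/K)) (σ' : Gal(Kgs M/M)) : Prop :=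
  ∀ x, j (σ x) = σ' (j x)

/-- The family `av'` of places of `M` is the family of all places above the places `av`. -/
structure Abo {K M : Type} [Field K] [Field M] [Algebra K M] {J J' : Type}
    (av : J → AbsoluteValue K ℝ) (av' : J' → AbsoluteValue M ℝ) (κ : J' → J) : Prop where
  fin : Finite J'
  pls : Pls av'
  res : ∀ w, rsa K (av' w) = av (κ w)
  cpl : ∀ v : AbsoluteValue M ℝ, (∃ i, (rsa K v).IsEquiv (av i)) → ∃ w, v.IsEquiv (av' w)

/-- The homomorphism `θ` from the Galois group `GS` for `M` to the Galois group `GS` for `K`. -/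
structure TrD (p : ℕ) {K M : Type} [Field K] [Field M] [Algebra K M] (j : Kgs K ≃+* Kgs M)
    {J J' : Type} (av : J → AbsoluteValue K ℝ) (av' : J' → AbsoluteValue M ℝ) (κ : J' → J)
    (α : Kgs K) (h : K) (θ : GS p av' (j α) →* GS p av α) (pq : GS p av α →* Gal(M/K)) :
    Prop where
  jok : Jok j
  abo : Abo av av' κ
  hs : HS p av α h
  hs' : HS p av' (j α) (algebraMap K M h)
  inM : ∀ m : M, j.symm (algebraMap M (Kgs M) m) ∈ OmS p av α
  mem : ∀ x : Kgs K, x ∈ OmS p av α ↔ j x ∈ OmS p av' (j α)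
  th : ∀ (g : GS p av' (j α)) (x : OmS p av α) (y : OmS p av' (j α)), (y : Kgs M) = j x →
    ((g y : OmS p av' (j α)) : Kgs M) = j (θ g x : OmS p av α)
  emb : Topology.IsOpenEmbedding θ
  pqs : Function.Surjective pq
  pql : IsLocallyConstant pq
  pqk : pq.ker = θ.range
  pqa : ∀ (g : GS p av α) (m : M) (x : OmS p av α), (x : Kgs K) = j.symm (algebraMap M (Kgs M) m) →
    ((g x : OmS p av α) : Kgs K) = j.symm (algebraMap M (Kgs M) (pq g m))
  om : ∀ g, omS p av' (j α) g = omS p av α (θ g)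
  os : ∀ D ∈ OS av, algebraMap K M D ∈ OS av' ∧
    ∀ g, hS p av' (j α) (algebraMap K M D) g = hS p av α D (θ g)
  rg : ∀ (σ : Gal(Kgs K/K)) (σ' : Gal(Kgs M/M)), Jrl j σ σ' →
    θ (rG p av' (j α) σ') = rG p av α σ

/-- The hypotheses on the curve: the normal forms for `p ≠ 2` and `p = 2`. -/
def Gc {K : Type} [Field K] (p : ℕ) (W : WeierstrassCurve K) : Prop :=
  (p ≠ 2 ∧ IsNf W ∧ Od p W) ∨ (p = 2 ∧ IsN2 W)

/-- The point `Q` and the character `ψ` (`S_PsiV`). -/
structure QPs (p : ℕ) [Fact p.Prime] {K : Type} [Field K] (W : WeierstrassCurve K) {J : Type}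
    (av : J → AbsoluteValue K ℝ) (α : Kgs K) (k : ℕ) (Q : Pt p W k (Kgs K))
    (ψ : GS p av α → ZMod (p ^ (k + 1))) : Prop where
  q : IsQ p W k Q
  loc : IsLocallyConstant ψ
  one : ψ 1 = 1
  mul : ∀ a b, ψ (a * b) = ψ a * ψ b
  red : ∀ a, ∃ y, ψ a = ((omS p av α a).val : ZMod (p ^ (k + 1))) + p * y
  gal : ∀ σ : Gal(Kgs K/K), pmap (fr p W k) (σ : Kgs K →ₐ[K] Kgs K) Q =
    (ψ (rG p av α σ)).val • Q

/-- `G` is the disjoint union of the double cosets `θ(H) (x w) (D i)`, `κ w = i`, and the `D' w` are the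
stabilizers. -/
structure Dcs {G H J J' : Type} [Group G] [Group H] (θ : H →* G) (D : J → Subgroup G)
    (D' : J' → Subgroup H) (κ : J' → J) (x : J' → G) : Prop where
  mem : ∀ w h, h ∈ D' w ↔ (x w)⁻¹ * θ h * x w ∈ D (κ w)
  ex : ∀ i g, ∃ w h, ∃ d ∈ D i, κ w = i ∧ g = θ h * x w * d
  inj : ∀ w w' h, ∀ d ∈ D (κ w), κ w = κ w' → θ h * x w * d = x w' → w = w'

/-- The induced module: the functions on `Q` with values in `Λ`. -/
def ind {p : ℕ} {G Q Λ : Type} [Group G] [Group Q] [CommRing Λ] (π : Λ) (Ψ : G → Λ)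
    (pq : G →* Q) (β : G → Q → ZMod p) (g : G) (f : Q → Λ) (q : Q) : Λ :=
  Ψ g * zt π (β g q) * f (q * pq g)

/-- The factor of the induced module: `β g q = χ h` for `θ h = s q * g * (s (q * pq g))⁻¹`. -/
def Bet {p : ℕ} {G H Q : Type} [Group G] [Group H] [Group Q] (θ : H →* G) (pq : G →* Q)
    (s : Q → G) (χ : H → ZMod p) (β : G → Q → ZMod p) : Prop :=
  ∀ g q h, θ h = s q * g * (s (q * pq g))⁻¹ → β g q = χ h

/-- The homomorphism `tr` from the points of `X` over `Kgs K` to the points of `Y` over `Kgs M` is given by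
`j` on the coordinates. -/
structure TrP {K M : Type} [Field K] [Field M] (X : WeierstrassCurve K) (Y : WeierstrassCurve M)
    (j : Kgs K ≃+* Kgs M) (tr : (X⁄(Kgs K)).toAffine.Point →+ (Y⁄(Kgs M)).toAffine.Point) :
    Prop where
  inj : Function.Injective tr
  crd : ∀ P x y, XY P x y → XY (tr P) (j x) (j y)
  gal : ∀ (σ : Gal(Kgs K/K)) (σ' : Gal(Kgs M/M)), Jrl j σ σ' →
    ∀ P, pmap Y (σ' : Kgs M →ₐ[M] Kgs M) (tr P) = tr (pmap X (σ : Kgs K →ₐ[K] Kgs K) P)

end Pool.Agent.MP72G
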