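import Pool.Agent.Lib.MP_72e2e6_nt.P4.T.Spec

/-!
# MP_72e2e6_nt, theorem T4, part T: finite separable extensions of global function fields
-/

namespace Pool.Agent.MP72G

open Pool.Agent.MP72P

theorem tGfM : S_GfM := by
  intro p _ K M _ _ _ _ _ h
  obtain ⟨F, iF, hF, hp, iA, hfin, hsep⟩ := h
  letI : Algebra (RatFunc F) M := ((algebraMap K M).comp (algebraMap (RatFunc F) K)).toAlgebra
  haveI : IsScalarTower (RatFunc F) K M := IsScalarTower.of_algebraMap_eq fun _ => rfl
  refine ⟨F, iF, hF, hp, inferInstance, ?_, ?_⟩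
  · exact FiniteDimensional.trans (RatFunc F) K M
  · exact Algebra.IsSeparable.trans (RatFunc F) K M

end Pool.Agent.MP72G
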