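import Pool.Agent.Lib.MP_72e2e6_nt.P4.T.Spec

/-!
# MP_72e2e6_nt, theorem T4, part T: `D ∈ ℘(K_v)` and `D ∈ ℘(M_w)` in terms of `hS D`
-/

set_option autoImplicit false

namespace Pool.Agent.MP72G

open Finset Pool.Agent.MP72P IntermediateField
open WeierstrassCurve
open Pool.Agent.MP72W (pmap)
open Pool.Agent.MP72V

open scoped Classical

private theorem pwmLoc (hHas : S_Has) (hHst : S_Hst) (hRgo : S_Rgo) (p : ℕ) [Fact p.Prime]
    (K : Type) [Field K] [CharP K p] (hK : GFld p K) (J : Type) (av : J → AbsoluteValue K ℝ)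
    (α : Kgs K) (h : K) (hh : HS p av α h) (ι : ∀ i, Kgs K →ₐ[K] Kvs (av i)) (D : K)
    (hD : D ∈ OS av) (i : J) :
    (∃ y : (av i).Completion, y ^ p - y = algebraMap K (av i).Completion D) ↔
      ∀ g ∈ DS p av α ι i, hS p av α D g = 0 := by
  have hchp : CharP (av i).Completion p :=
    charP_of_injective_algebraMap (algebraMap K (av i).Completion).injective p
  obtain ⟨-, -, -, -, -, -, -, -, -, -, hr2, -, -, -, -, -⟩ := hHst p K hK J av α h hh
  obtain ⟨-, -, -, -, -, -, hR⟩ := hRgo p K hK J av α h hh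
  obtain ⟨-, -, -, -, hR5, -⟩ := hR (av i) (ι i)
  obtain ⟨-, -, -, -, hH5, hH6⟩ := hHas p (av i).Completion (Kvs (av i)) 1 1 one_ne_zero
    (by rw [one_pow, map_one])
  have hroot : ∃ x : Kvs (av i), Ph p (algebraMap (av i).Completion (Kvs (av i)) 1) x =
      algebraMap (av i).Completion (Kvs (av i)) (algebraMap K (av i).Completion D) := by
    obtain ⟨x, hx⟩ := hr2 D hD
    refine ⟨ι i (x : Kgs K), ?_⟩
    unfold Ph at hx ⊢
    have h1 : ((x : OmS p av α) : Kgs K) ^ p - 1 * ((x : OmS p av α) : Kgs K) =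
        algebraMap K (Kgs K) D := by
      have h2 := congrArg (fun z : OmS p av α => (z : Kgs K)) hx
      exact h2
    have h3 := congrArg (ι i) h1
    rw [map_sub, map_pow, map_mul, map_one, AlgHom.commutes] at h3
    rw [map_one, h3, ← IsScalarTower.algebraMap_apply]
  have key := hH5 (algebraMap K (av i).Completion D) hroot
  constructor
  · rintro ⟨y, hy⟩ g hg
    obtain ⟨g', rfl⟩ := hg
    obtain ⟨c, hc⟩ := key.2 ⟨y, by unfold Ph; rw [one_mul]; exact hy⟩
    have h1 := hc g'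
    rw [hH6, one_mul, sub_self] at h1
    exact (hR5 D hD g').trans h1
  · intro hg
    obtain ⟨y, hy⟩ := key.1 ⟨0, fun g' => by
      rw [mul_zero, sub_zero, ← hR5 D hD g']
      exact hg _ ⟨g', rfl⟩⟩
    refine ⟨y, ?_⟩
    unfold Ph at hy
    rw [one_mul] at hy
    exact hy

theorem tPwM (h1 : S_Has) (h2 : S_Hst) (h3 : S_Rgo) (h4 : S_GfM) (h5 : S_Dcg) : S_PwM := by
  intro p _ K M _ _ _ _ _ _ hK j J J' av av' κ α h θ pq hT ι ι' D hD
  have hchM : CharP M p := charP_of_injective_algebraMap (algebraMap K M).injective p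
  refine ⟨fun i => pwmLoc h1 h2 h3 p K hK J av α h hT.hs ι D hD i, ?_⟩
  intro w hw d hd hpq
  obtain ⟨hDM, hos⟩ := hT.os D hD
  have h6 := (pwmLoc h1 h2 h3 p M (h4 p K M hK) J' av' (j α) (algebraMap K M h) hT.hs' ι'
    (algebraMap K M D) hDM w).1 hw
  obtain ⟨x, hx⟩ := h5 p K M hK j J J' av av' κ α h θ pq hT ι ι'
  have h7 : x w * d * (x w)⁻¹ ∈ pq.ker := by
    rw [MonoidHom.mem_ker, map_mul, map_mul, hpq, mul_one, map_inv, mul_inv_cancel]
  rw [hT.pqk] at h7
  obtain ⟨h', hh'⟩ := h7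
  have h8 : h' ∈ DS p av' (j α) ι' w := by
    rw [hx.mem, hh']
    have h9 : (x w)⁻¹ * (x w * d * (x w)⁻¹) * x w = d := by group
    rw [h9]
    exact hd
  have h10 := h6 h' h8
  rw [hos h', hh'] at h10
  obtain ⟨-, -, -, -, -, -, -, -, -, -, -, -, -, hhom, -, -⟩ := h2 p K hK J av α h hT.hs
  have h11 := (hhom D hD).add
  have h12 : hS p av α D 1 = 0 := by
    have h13 := h11 1 1
    rw [mul_one] at h13
    exact left_eq_add.1 h13
  have h14 : hS p av α D (x w) + hS p av α D (x w)⁻¹ = 0 := by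
    rw [← h11, mul_inv_cancel, h12]
  rw [h11, h11] at h10
  linear_combination h10 - h14

end Pool.Agent.MP72G
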