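import Pool.Agent.Lib.MP_72e2e6_nt.P4.T.Spec

/-!
# P4/T/Twm: `M ⊆ OmS` and `D₀ ∈ OS av'` if `av` is large
-/

set_option autoImplicit false

namespace Pool.Agent.MP72G

open Finset Pool.Agent.MP72P IntermediateField
open Pool.Agent.MP72V

open scoped Classical

/-- the embedding of `M` into `Kgs K` given by `j` -/
private noncomputable def emb {K M : Type} [Field K] [Field M] [Algebra K M] (j : Kgs K ≃+* Kgs M)
    (hj : Jok j) : M →ₐ[K] Kgs K where
  toRingHom := j.symm.toRingHom.comp (algebraMap M (Kgs M))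
  commutes' := fun x => by
    have h := hj x
    show j.symm (algebraMap M (Kgs M) (algebraMap K M x)) = algebraMap K (Kgs K) x
    rw [← h, j.symm_apply_apply]

private theorem isEquiv_rsa {K M : Type} [Field K] [Field M] [Algebra K M]
    {v w : AbsoluteValue M ℝ} (h : v.IsEquiv w) : (rsa K v).IsEquiv (rsa K w) :=
  fun x y => h (algebraMap K M x) (algebraMap K M y)

/-- towers which contain the first `k` elements -/
private theorem tower {p : ℕ} {K : Type} [Field K] {J : Type} (av : J → AbsoluteValue K ℝ)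
    (α : Kgs K) (n : ℕ) (θ : Fin n → Kgs K)
    (hθ : ∀ i, θ i ^ p - θ i ∈ adjoin K (θ '' {k | k < i}))
    (hi : ∀ i, IsIntegral (OS av) (θ i ^ p - θ i)) (k : ℕ) (hk : k ≤ n) :
    ∃ T : IntermediateField K (Kgs K), Twr p (OS av) K (Kgs K) α T ∧
      ∀ i : Fin n, i.val < k → θ i ∈ T := by
  induction k with
  | zero => exact ⟨K⟮α⟯, Twr.bot, fun i h => absurd h (Nat.not_lt_zero _)⟩
  | succ k ih =>
    obtain ⟨T, hT, hm⟩ := ih (by omega)
    have hk' : k < n := by omega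
    have h1 : θ ⟨k, hk'⟩ ^ p - θ ⟨k, hk'⟩ ∈ T := by
      have h2 : adjoin K (θ '' {l | l < (⟨k, hk'⟩ : Fin n)}) ≤ T := by
        rw [adjoin_le_iff]
        rintro _ ⟨l, hl, rfl⟩
        exact hm l hl
      exact h2 (hθ _)
    refine ⟨T ⊔ K⟮θ ⟨k, hk'⟩⟯, Twr.step T _ hT (hi _) h1, fun i hik => ?_⟩
    rcases Nat.lt_succ_iff_lt_or_eq.mp hik with h | h
    · exact (le_sup_left : T ≤ T ⊔ K⟮θ ⟨k, hk'⟩⟯) (hm i h)
    · have h3 : i = ⟨k, hk'⟩ := Fin.ext h
      rw [h3]
      exact (le_sup_right : K⟮θ ⟨k, hk'⟩⟯ ≤ T ⊔ K⟮θ ⟨k, hk'⟩⟯) (mem_adjoin_simple_self K _)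

theorem tTwm (h1 : S_Ntr) (h2 : S_Alm) (h3 : S_GfM) (h4 : S_Tow) (h5 : S_Ial) : S_Twm := by
  intro p _ K M _ _ _ _ _ _ hK n hn j hj D₀
  have hM : GFld p M := h3 p K M hK
  have hcM : CharP M p := charP_of_injective_algebraMap (algebraMap K M).injective p
  -- the tower
  let φ : M →ₐ[K] Kgs K := emb j hj
  let e : M ≃ₐ[K] φ.fieldRange := AlgEquiv.ofInjectiveField φ
  have hG : IsGalois K φ.fieldRange := IsGalois.of_algEquiv e
  have hF : FiniteDimensional K φ.fieldRange := Module.Finite.equiv e.toLinearEquiv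
  have hr : Module.finrank K φ.fieldRange = p ^ n := by
    rw [← hn]
    exact e.toLinearEquiv.finrank_eq.symm
  obtain ⟨θ, hθ, hle⟩ := h4 p K (Kgs K) n φ.fieldRange hG hF hr
  have h6 := fun i => h5 p K hK (Kgs K) (θ i ^ p - θ i)
  choose mm a ha hint using h6
  -- the places for `D₀`
  have h7 : ∃ (m : ℕ) (u : Fin m → AbsoluteValue M ℝ), (∀ l, (u l).IsNontrivial) ∧
      ∀ v : AbsoluteValue M ℝ, v.IsNontrivial → (∀ l, ¬ v.IsEquiv (u l)) → v D₀ ≤ 1 := by
    by_cases h0 : D₀ = 0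
    · refine ⟨0, fun l => l.elim0, fun l => l.elim0, fun v _ _ => ?_⟩
      rw [h0, map_zero]
      exact zero_le_one
    · obtain ⟨m, u, hu, hv⟩ := h2 p M hM D₀ h0
      exact ⟨m, u, hu.ntr, fun v h h' => (hv v h h').le⟩
  obtain ⟨m', u, hu, hD⟩ := h7
  let I : Type := (Σ i : Fin n, Fin (mm i)) ⊕ Fin m'
  let F : I → AbsoluteValue K ℝ := Sum.elim (fun q => a q.1 q.2) (fun l => rsa K (u l))
  let eI : I ≃ Fin (Fintype.card I) := Fintype.equivFin I
  refine ⟨Fintype.card I, fun i => F (eI.symm i), ?_, ?_⟩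
  · have hF' : ∀ q : I, (F q).IsNontrivial := by
      rintro (q | l)
      · exact ha q.1 q.2
      · exact h1 p K M (u l) (hu l)
    intro i
    exact hF' (eI.symm i)
  · intro J av hav
    have hav' : ∀ q : I, ∃ t, (av t).IsEquiv (F q) := by
      intro q
      obtain ⟨t, ht⟩ := hav (eI q)
      have ht' : (av t).IsEquiv (F (eI.symm (eI q))) := ht
      rw [Equiv.symm_apply_apply] at ht'
      exact ⟨t, ht'⟩
    refine ⟨?_, ?_⟩
    · intro α m
      have hi : ∀ i, IsIntegral (OS av) (θ i ^ p - θ i) := fun i =>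
        hint i J av fun l => hav' (Sum.inl ⟨i, l⟩)
      obtain ⟨T, hT, hm⟩ := tower av α n θ hθ hi n le_rfl
      have h8 : adjoin K (Set.range θ) ≤ T := by
        rw [adjoin_le_iff]
        rintro _ ⟨i, rfl⟩
        exact hm i i.isLt
      have h9 : T ≤ OmS p av α := le_sSup (α := IntermediateField K (Kgs K)) hT
      have h10 : φ m ∈ φ.fieldRange := ⟨m, rfl⟩
      exact h9 (h8 (hle h10))
    · intro J' av' κ hA v hv _ hw
      refine hD v hv fun l hl => ?_
      obtain ⟨t, ht⟩ := hav' (Sum.inr l)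
      have h11 : (rsa K v).IsEquiv (av t) := (isEquiv_rsa hl).trans ht.symm
      obtain ⟨w, hw'⟩ := hA.cpl v ⟨t, h11⟩
      exact hw w hw'

end Pool.Agent.MP72G
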